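import Mathlib
import Pool.Agent.H389R2.LC.Approx

set_option autoImplicit false

/-!
Integer polynomials acting on two-sided sequences by the shift, and the `ℓ¹` norm of a
polynomial.
-/

open Polynomial

namespace Q172.LwRec

section act
variable {M : Type*} [AddCommGroup M]

/-- the shift on two-sided sequences -/
def E (M : Type*) [AddCommGroup M] : Module.End ℤ (ℤ → M) where
  toFun f := fun k => f (k + 1)
  map_add' _ _ := rfl
  map_smul' _ _ := rfl

theorem E_apply (f : ℤ → M) (k : ℤ) : E M f k = f (k + 1) := rfl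

theorem E_pow (i : ℕ) : ∀ (f : ℤ → M) (k : ℤ), ((E M) ^ i) f k = f (k + i) := by
  induction i with
  | zero => intro f k; simp
  | succ i ih =>
    intro f k
    rw [pow_succ, Module.End.mul_apply, ih, E_apply]
    congr 1
    push_cast; ring

/-- the action of a polynomial -/
noncomputable def act (P : ℤ[X]) (f : ℤ → M) : ℤ → M := (aeval (E M) P) f

theorem act_mul (P Q : ℤ[X]) (f : ℤ → M) : act (P * Q) f = act P (act Q f) := by
  unfold act; rw [map_mul]; rfl

theorem act_add (P Q : ℤ[X]) (f : ℤ → M) : act (P + Q) f = act P f + act Q f := by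
  unfold act; rw [map_add]; rfl

theorem act_sub (P Q : ℤ[X]) (f : ℤ → M) : act (P - Q) f = act P f - act Q f := by
  unfold act; rw [map_sub]; rfl

theorem act_add_right (P : ℤ[X]) (f g : ℤ → M) : act P (f + g) = act P f + act P g := by
  unfold act; rw [map_add]

theorem act_sub_right (P : ℤ[X]) (f g : ℤ → M) : act P (f - g) = act P f - act P g := by
  unfold act; rw [map_sub]

theorem act_sum_right {ι : Type*} (s : Finset ι) (P : ℤ[X]) (f : ι → ℤ → M) :
    act P (∑ i ∈ s, f i) = ∑ i ∈ s, act P (f i) := by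
  unfold act; rw [map_sum]

theorem act_zero_right (P : ℤ[X]) : act P (0 : ℤ → M) = 0 := by
  unfold act; rw [map_zero]

theorem act_monomial (i : ℕ) (a : ℤ) (f : ℤ → M) (k : ℤ) :
    act (monomial i a) f k = a • f (k + i) := by
  unfold act
  rw [← C_mul_X_pow_eq_monomial, map_mul, aeval_C, map_pow, aeval_X, Module.End.mul_apply]
  show (a • ((E M) ^ i) f) k = _
  rw [Pi.smul_apply, E_pow]

theorem act_eq_sum (P : ℤ[X]) (N : ℕ) (hN : P.natDegree < N) (f : ℤ → M) (k : ℤ) :
    act P f k = ∑ i ∈ Finset.range N, P.coeff i • f (k + i) := by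
  conv_lhs => rw [P.as_sum_range' N hN]
  unfold act
  rw [map_sum, LinearMap.sum_apply, Finset.sum_apply]
  apply Finset.sum_congr rfl
  intro i _
  exact act_monomial i (P.coeff i) f k

/-- locality of the action -/
theorem act_congr (P : ℤ[X]) (ℓ : ℕ) (hℓ : P.natDegree ≤ ℓ) (f g : ℤ → M) (k : ℤ)
    (h : ∀ i : ℕ, i ≤ ℓ → f (k + i) = g (k + i)) : act P f k = act P g k := by
  rw [act_eq_sum P (ℓ + 1) (by omega), act_eq_sum P (ℓ + 1) (by omega)]
  apply Finset.sum_congr rfl
  intro i hi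
  rw [h i (by have := Finset.mem_range.mp hi; omega)]

theorem act_eq_zero (P : ℤ[X]) (ℓ : ℕ) (hℓ : P.natDegree ≤ ℓ) (f : ℤ → M) (k : ℤ)
    (h : ∀ i : ℕ, i ≤ ℓ → f (k + i) = 0) : act P f k = 0 := by
  rw [act_eq_sum P (ℓ + 1) (by omega)]
  apply Finset.sum_eq_zero
  intro i hi
  rw [h i (by have := Finset.mem_range.mp hi; omega), smul_zero]

end act

/-- the `ℓ¹` norm -/
noncomputable def n1 (P : ℤ[X]) : ℤ := P.sum fun _ a => |a|

theorem n1_eq (P : ℤ[X]) (N : ℕ) (hN : P.natDegree < N) :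
    n1 P = ∑ i ∈ Finset.range N, |P.coeff i| := by
  unfold n1
  exact P.sum_over_range' (fun _ => abs_zero) N hN

theorem n1_nonneg (P : ℤ[X]) : 0 ≤ n1 P := by
  rw [n1_eq P (P.natDegree + 1) (by omega)]
  exact Finset.sum_nonneg fun _ _ => abs_nonneg _

theorem one_le_n1 {P : ℤ[X]} (hP : P ≠ 0) : 1 ≤ n1 P := by
  rw [n1_eq P (P.natDegree + 1) (by omega)]
  have h1 : 1 ≤ |P.coeff P.natDegree| := by
    have : P.coeff P.natDegree ≠ 0 := by
      rw [coeff_natDegree]; exact leadingCoeff_ne_zero.mpr hP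
    exact Int.one_le_abs this
  refine le_trans h1 ?_
  exact Finset.single_le_sum (f := fun i => |P.coeff i|) (fun _ _ => abs_nonneg _)
    (Finset.mem_range.mpr (by omega))

theorem n1_add (P Q : ℤ[X]) : n1 (P + Q) ≤ n1 P + n1 Q := by
  set N := max P.natDegree Q.natDegree + 1 with hN
  have h1 : P.natDegree < N := by have := le_max_left P.natDegree Q.natDegree; omega
  have h2 : Q.natDegree < N := by have := le_max_right P.natDegree Q.natDegree; omega
  have h3 : (P + Q).natDegree < N := by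
    have := natDegree_add_le P Q; omega
  rw [n1_eq _ N h1, n1_eq _ N h2, n1_eq _ N h3, ← Finset.sum_add_distrib]
  apply Finset.sum_le_sum
  intro i _
  rw [coeff_add]
  exact abs_add_le _ _

theorem n1_neg (P : ℤ[X]) : n1 (-P) = n1 P := by
  rw [n1_eq (-P) (P.natDegree + 1) (by rw [natDegree_neg]; omega),
    n1_eq P (P.natDegree + 1) (by omega)]
  apply Finset.sum_congr rfl
  intro i _
  rw [coeff_neg, abs_neg]

theorem n1_sub (P Q : ℤ[X]) : n1 (P - Q) ≤ n1 P + n1 Q := by
  rw [sub_eq_add_neg, ← n1_neg Q]; exact n1_add _ _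

theorem n1_zero : n1 0 = 0 := by
  unfold n1; simp

theorem n1_monomial (i : ℕ) (a : ℤ) : n1 (monomial i a) = |a| := by
  unfold n1
  exact sum_monomial_index a (fun (_ : ℕ) (a : ℤ) => |a|) abs_zero

theorem n1_X_mul (P : ℤ[X]) : n1 (X * P) = n1 P := by
  rw [n1_eq (X * P) (P.natDegree + 1 + 1) (by
      have h1 := natDegree_mul_le (p := (X : ℤ[X])) (q := P)
      have h2 : (X : ℤ[X]).natDegree = 1 := natDegree_X
      omega),
    n1_eq P (P.natDegree + 1) (by omega), Finset.sum_range_succ']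
  simp [coeff_X_mul]

theorem n1_X_pow_mul (j : ℕ) (P : ℤ[X]) : n1 (X ^ j * P) = n1 P := by
  induction j with
  | zero => simp
  | succ j ih => rw [pow_succ', mul_assoc, n1_X_mul, ih]

theorem n1_C_mul (a : ℤ) (P : ℤ[X]) : n1 (C a * P) = |a| * n1 P := by
  rw [n1_eq (C a * P) (P.natDegree + 1) (by
      have := natDegree_C_mul_le a P; omega),
    n1_eq P (P.natDegree + 1) (by omega), Finset.mul_sum]
  apply Finset.sum_congr rfl
  intro i _
  rw [coeff_C_mul, abs_mul]

theorem n1_sum_le {ι : Type*} (s : Finset ι) (f : ι → ℤ[X]) :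
    n1 (∑ i ∈ s, f i) ≤ ∑ i ∈ s, n1 (f i) := by
  classical
  induction s using Finset.induction_on with
  | empty => simp [n1_zero]
  | insert a s ha ih =>
    rw [Finset.sum_insert ha, Finset.sum_insert ha]
    exact le_trans (n1_add _ _) (by linarith)

theorem n1_mul (P Q : ℤ[X]) : n1 (P * Q) ≤ n1 P * n1 Q := by
  have h : P * Q = ∑ i ∈ Finset.range (P.natDegree + 1), C (P.coeff i) * (X ^ i * Q) := by
    conv_lhs => rw [P.as_sum_range' (P.natDegree + 1) (by omega)]
    rw [Finset.sum_mul]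
    apply Finset.sum_congr rfl
    intro i _
    rw [← C_mul_X_pow_eq_monomial, mul_assoc]
  rw [h]
  refine le_trans (n1_sum_le _ _) ?_
  rw [n1_eq P (P.natDegree + 1) (by omega), Finset.sum_mul]
  apply Finset.sum_le_sum
  intro i _
  rw [n1_C_mul, n1_X_pow_mul]

theorem n1_prod_le {ι : Type*} (s : Finset ι) (f : ι → ℤ[X]) (c : ℤ)
    (h : ∀ i ∈ s, n1 (f i) ≤ c) (hc : 0 ≤ c) : n1 (∏ i ∈ s, f i) ≤ c ^ s.card := by
  classical
  induction s using Finset.induction_on with
  | empty =>
    simp only [Finset.prod_empty, Finset.card_empty, pow_zero]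
    rw [← C_1, ← monomial_zero_left, n1_monomial]
    simp
  | insert a s ha ih =>
    rw [Finset.prod_insert ha, Finset.card_insert_of_notMem ha, pow_succ']
    refine le_trans (n1_mul _ _) ?_
    exact mul_le_mul (h a (Finset.mem_insert_self a s))
      (ih fun i hi => h i (Finset.mem_insert_of_mem hi)) (n1_nonneg _) hc

/-- bound for integer sequences -/
theorem act_bdd (P : ℤ[X]) (f : ℤ → ℤ) (B : ℝ) (hB : ∀ k, |(f k : ℝ)| ≤ B) (k : ℤ) :
    |((act P f k : ℤ) : ℝ)| ≤ n1 P * B := by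
  rw [act_eq_sum P (P.natDegree + 1) (by omega), n1_eq P (P.natDegree + 1) (by omega)]
  push_cast
  rw [Finset.sum_mul]
  refine le_trans (Finset.abs_sum_le_sum_abs _ _) ?_
  apply Finset.sum_le_sum
  intro i _
  rw [smul_eq_mul]
  push_cast
  rw [abs_mul]
  exact mul_le_mul_of_nonneg_left (hB _) (abs_nonneg _)

/-- value at a real number `≥ 1` -/
theorem eval_le (P : ℤ[X]) (m : ℕ) (hm : P.natDegree ≤ m) (x : ℝ) (hx : 1 ≤ x) :
    |aeval x P| ≤ n1 P * x ^ m := by
  rw [aeval_eq_sum_range' (n := m + 1) (by omega), n1_eq P (m + 1) (by omega)]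
  push_cast
  rw [Finset.sum_mul]
  refine le_trans (Finset.abs_sum_le_sum_abs _ _) ?_
  apply Finset.sum_le_sum
  intro i hi
  have hi' : i ≤ m := by have := Finset.mem_range.mp hi; omega
  rw [zsmul_eq_mul, abs_mul, abs_of_nonneg (by positivity : (0:ℝ) ≤ x ^ i)]
  exact mul_le_mul_of_nonneg_left (pow_le_pow_right₀ hx hi') (abs_nonneg _)

end Q172.LwRec
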