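import Mathlib
import Pool.Agent.Q172.LwRec.Act

set_option autoImplicit false

/-!
The two-sided sums commute with integer polynomials in the shift.
-/

open Polynomial Pool.H389R2.LC

namespace Q172.LwRec

theorem gg_shiftN (ε : ℝ) (f : ℤ → ℤ) (r j : ℤ) :
    gg ε (fun k => f (k + r)) j = gg ε f (j + r) := by
  unfold gg FF PP
  congr 2
  · apply tsum_congr
    intro i
    show ((f (j + (i : ℤ) + r) : ℤ) : ℝ) * _ = _
    rw [show j + (i : ℤ) + r = j + r + i by ring]
  · apply tsum_congr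
    intro i
    show ((f (j - 1 - (i : ℤ) + r) : ℤ) : ℝ) * _ = _
    rw [show j - 1 - (i : ℤ) + r = j + r - 1 - i by ring]

theorem gg_smul (ε : ℝ) (f : ℤ → ℤ) (a : ℤ) (j : ℤ) :
    gg ε (fun k => a * f k) j = a * gg ε f j := by
  unfold gg FF PP
  rw [← mul_div_assoc, mul_add, ← tsum_mul_left, ← tsum_mul_left]
  congr 2
  · apply tsum_congr
    intro i
    push_cast; ring
  · apply tsum_congr
    intro i
    push_cast; ring

section base
variable {t : ℤ} {ε : ℝ} (hb : Base t ε)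
include hb

theorem gg_add (f g : ℤ → ℤ) (B : ℝ) (hB : ∀ k, |(f k : ℝ)| ≤ B) (hB' : ∀ k, |(g k : ℝ)| ≤ B)
    (j : ℤ) : gg ε (f + g) j = gg ε f j + gg ε g j := by
  have h1 := gg_sub hb f (fun k => (-1) * g k) B hB (by
    intro k; push_cast; rw [abs_mul]; simpa using hB' k) j
  rw [gg_smul] at h1
  have h2 : (fun k => f k - (-1) * g k) = f + g := by
    funext k; simp
  rw [h2] at h1
  rw [h1]; push_cast; ring

/-- the two-sided sum commutes with the action -/
theorem gg_act (f : ℤ → ℤ) (B : ℝ) (hB : ∀ k, |(f k : ℝ)| ≤ B) (P : ℤ[X]) :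
    ∀ j, gg ε (act P f) j = act P (gg ε f) j := by
  have hB0 : 0 ≤ B := le_trans (abs_nonneg _) (hB 0)
  induction P using Polynomial.induction_on' with
  | add P Q hP hQ =>
    intro j
    rw [act_add, act_add]
    have hP1 : (0 : ℝ) ≤ n1 P := by exact_mod_cast n1_nonneg P
    have hQ1 : (0 : ℝ) ≤ n1 Q := by exact_mod_cast n1_nonneg Q
    rw [gg_add hb (act P f) (act Q f) ((n1 P + n1 Q) * B) ?_ ?_, hP, hQ]
    · rfl
    · intro k
      refine le_trans (act_bdd P f B hB k) ?_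
      nlinarith
    · intro k
      refine le_trans (act_bdd Q f B hB k) ?_
      nlinarith
  | monomial i a =>
    intro j
    have h1 : act (monomial i a) f = fun k => a * f (k + i) := by
      funext k; rw [act_monomial]; rfl
    rw [h1, gg_smul ε (fun k => f (k + i)) a j, gg_shiftN, act_monomial, zsmul_eq_mul]

omit hb in
/-- the characteristic polynomial -/
noncomputable def R (t : ℤ) : ℤ[X] := X ^ 2 - C t * X + 1

omit hb in
theorem act_R {M : Type*} [AddCommGroup M] (f : ℤ → M) (k : ℤ) :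
    act (R t) f k = f (k + 2) - t • f (k + 1) + f k := by
  have h : R t = monomial 2 1 - monomial 1 t + monomial 0 1 := by
    unfold R
    rw [← C_mul_X_pow_eq_monomial, ← C_mul_X_pow_eq_monomial, ← C_mul_X_pow_eq_monomial]
    simp
  rw [h, act_add, act_sub]
  simp only [Pi.add_apply, Pi.sub_apply, act_monomial]
  simp

theorem act_R_gg (f : ℤ → ℤ) (B : ℝ) (hB : ∀ k, |(f k : ℝ)| ≤ B) (j : ℤ) :
    act (R t) (gg ε f) j = -(f (j + 1) : ℝ) := by
  rw [act_R, gg_rec hb f B hB j, zsmul_eq_mul]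
  ring

theorem gg_act_R (w : ℤ → ℤ) (B : ℝ) (hB : ∀ k, |(w k : ℝ)| ≤ B) (j : ℤ) :
    gg ε (act (R t) w) j = -(w (j + 1) : ℝ) := by
  rw [gg_act hb w B hB, act_R_gg hb w B hB]

/-- a bounded integer sequence which satisfies the recurrence near a place vanishes there -/
theorem zero_of_rec (w : ℤ → ℤ) (B : ℝ) (hB : ∀ k, |(w k : ℝ)| ≤ B) (j : ℤ) (ρ : ℕ)
    (h0 : ∀ k, j - ρ < k → k < j + ρ → act (R t) w k = 0)
    (hs : 2 * ((t + 2) * B) * (1 - ε⁻¹)⁻¹ * ε⁻¹ ^ ρ < 1) : w (j + 1) = 0 := by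
  have hB0 : 0 ≤ B := le_trans (abs_nonneg _) (hB 0)
  have ht : (3 : ℝ) ≤ t := by exact_mod_cast hb.ht
  have hb1 : ∀ k, |((act (R t) w k : ℤ) : ℝ)| ≤ (t + 2) * B := by
    intro k
    rw [act_R]
    push_cast
    rw [smul_eq_mul]
    push_cast
    have e1 := hB (k + 2)
    have e2 := hB (k + 1)
    have e3 := hB k
    have e4 : |(t : ℝ) * (w (k + 1) : ℝ)| ≤ t * B := by
      rw [abs_mul, abs_of_nonneg (by linarith : (0:ℝ) ≤ t)]
      exact mul_le_mul_of_nonneg_left e2 (by linarith)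
    calc |(w (k + 2) : ℝ) - t * (w (k + 1) : ℝ) + (w k : ℝ)|
        ≤ |(w (k + 2) : ℝ) - t * (w (k + 1) : ℝ)| + |(w k : ℝ)| := abs_add_le _ _
      _ ≤ |(w (k + 2) : ℝ)| + |(t : ℝ) * (w (k + 1) : ℝ)| + |(w k : ℝ)| := by
          have := abs_sub (w (k + 2) : ℝ) (t * (w (k + 1) : ℝ))
          linarith
      _ ≤ (t + 2) * B := by linarith
  have h1 := gg_small hb (act (R t) w) _ hb1 j ρ h0
  rw [gg_act_R hb w B hB, abs_neg] at h1
  have h2 : |(w (j + 1) : ℝ)| < 1 := lt_of_le_of_lt h1 hs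
  have h3 : |w (j + 1)| < 1 := by exact_mod_cast h2
  exact Int.abs_lt_one_iff.mp h3

end base

end Q172.LwRec
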