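import Mathlib
import Pool.Agent.Q172.LwRec.GgLin

set_option autoImplicit false

/-!
Palindromic polynomials modulo `X^2 - t X + 1`.
-/

open Polynomial Pool.H389R2.LC

namespace Q172.LwRec

/-- palindromic of degree `2h` (in the weak sense) -/
def Pal (h : ℕ) (P : ℤ[X]) : Prop :=
  P.natDegree ≤ 2 * h ∧ ∀ i, i ≤ 2 * h → P.coeff (2 * h - i) = P.coeff i

theorem V_mod (t : ℤ) (i : ℕ) :
    ∃ (V : ℤ) (Q : ℤ[X]), (X : ℤ[X]) ^ (2 * i) + 1 = C V * X ^ i + R t * Q := by
  induction i using Nat.twoStepInduction with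
  | zero => exact ⟨2, 0, by simp; norm_num⟩
  | one => exact ⟨t, 1, by unfold R; ring⟩
  | more i ih1 ih2 =>
    obtain ⟨V0, Q0, h0⟩ := ih1
    obtain ⟨V1, Q1, h1⟩ := ih2
    refine ⟨t * V1 - V0, (X ^ 2 + 1) * Q1 - X ^ 2 * Q0 + C V1 * X ^ (i + 1), ?_⟩
    have e1 : (X : ℤ[X]) ^ (2 * (i + 2)) + 1
        = (X ^ 2 + 1) * (X ^ (2 * (i + 1)) + 1) - X ^ 2 * (X ^ (2 * i) + 1) := by ring
    rw [e1, h0, h1]
    unfold R
    simp only [C_sub, C_mul]
    ring

theorem pal_mod (t : ℤ) (h : ℕ) : ∀ P : ℤ[X], Pal h P →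
    ∃ (M : ℤ) (Q : ℤ[X]), P = C M * X ^ h + R t * Q := by
  induction h with
  | zero =>
    intro P hP
    refine ⟨P.coeff 0, 0, ?_⟩
    have h0 : P.natDegree = 0 := by have := hP.1; omega
    rw [mul_zero, add_zero, pow_zero, mul_one]
    exact eq_C_of_natDegree_eq_zero h0
  | succ h ih =>
    intro P hP
    obtain ⟨hdeg, hpal⟩ := hP
    obtain ⟨V, Q0, hV⟩ := V_mod t (h + 1)
    set P' : ℤ[X] := P - C (P.coeff 0) * (X ^ (2 * (h + 1)) + 1) with hP'
    have hcoeff : ∀ i, P'.coeff i = P.coeff i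
        - P.coeff 0 * ((if i = 2 * (h + 1) then 1 else 0) + (if i = 0 then 1 else 0)) := by
      intro i
      rw [hP', coeff_sub, coeff_C_mul, coeff_add, coeff_X_pow, coeff_one]
    have h0 : P'.coeff 0 = 0 := by
      rw [hcoeff]; simp
    have hX : P' = X * P'.divX := by
      conv_lhs => rw [← X_mul_divX_add P', h0]
      simp
    have hbig : ∀ i, 2 * h + 1 < i → P'.coeff i = 0 := by
      intro i hi
      rw [hcoeff]
      by_cases h1 : i = 2 * (h + 1)
      · subst h1
        have := hpal 0 (by omega)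
        rw [Nat.sub_zero] at this
        rw [this]
        simp
      · have h2 : P.coeff i = 0 := coeff_eq_zero_of_natDegree_lt (by omega)
        rw [h2, if_neg h1, if_neg (by omega)]
        simp
    have hdivX : Pal h P'.divX := by
      constructor
      · rw [natDegree_le_iff_coeff_eq_zero]
        intro i hi
        rw [coeff_divX]
        exact hbig _ (by omega)
      · intro i hi
        rw [coeff_divX, coeff_divX, hcoeff, hcoeff]
        have h3 := hpal (i + 1) (by omega)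
        rw [show 2 * h - i + 1 = 2 * (h + 1) - (i + 1) by omega, h3,
          if_neg (by omega), if_neg (by omega), if_neg (by omega), if_neg (by omega)]
    obtain ⟨M, Q, hQ⟩ := ih _ hdivX
    refine ⟨P.coeff 0 * V + M, C (P.coeff 0) * Q0 + X * Q, ?_⟩
    have e1 : P = C (P.coeff 0) * (X ^ (2 * (h + 1)) + 1) + P' := by rw [hP']; ring
    calc P = C (P.coeff 0) * (X ^ (2 * (h + 1)) + 1) + X * P'.divX := by rw [← hX]; exact e1
      _ = C (P.coeff 0) * (C V * X ^ (h + 1) + R t * Q0) + X * (C M * X ^ h + R t * Q) := by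
          rw [hV, hQ]
      _ = _ := by simp only [C_add, C_mul]; ring

theorem R_natDegree (t : ℤ) : (R t).natDegree = 2 := by
  unfold R; compute_degree!

theorem R_monic (t : ℤ) : (R t).Monic := by
  unfold R; monicity!

theorem reflect_pal {h : ℕ} {P : ℤ[X]} (hP : Pal h P) : reflect (2 * h) P = P := by
  ext i
  rw [coeff_reflect]
  rcases le_or_gt i (2 * h) with hi | hi
  · rw [revAt_le hi]
    exact hP.2 i hi
  · rw [revAt_eq_self_of_lt hi]

theorem pal_of_reflect {h : ℕ} {P : ℤ[X]} (hd : P.natDegree ≤ 2 * h)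
    (hP : reflect (2 * h) P = P) : Pal h P := by
  refine ⟨hd, fun i hi => ?_⟩
  have := congrArg (fun Q => Polynomial.coeff Q i) hP
  simp only [coeff_reflect] at this
  rw [revAt_le hi] at this
  exact this

theorem reflect_R (t : ℤ) : reflect 2 (R t) = R t := by
  have h : R t = monomial 2 1 - monomial 1 t + monomial 0 1 := by
    unfold R
    rw [← C_mul_X_pow_eq_monomial, ← C_mul_X_pow_eq_monomial, ← C_mul_X_pow_eq_monomial]
    simp
  ext i
  rw [coeff_reflect]
  rcases le_or_gt i 2 with hi | hi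
  · rw [revAt_le hi, h]
    simp only [coeff_add, coeff_sub, coeff_monomial]
    interval_cases i <;> simp
  · rw [revAt_eq_self_of_lt hi]

/-- division -/
theorem pal_div (t : ℤ) {h : ℕ} {P Q : ℤ[X]} (hP : Pal (h + 1) P) (hQ : P = R t * Q) : Pal h Q := by
  rcases eq_or_ne Q 0 with h0 | h0
  · subst h0
    exact ⟨by simp, fun i _ => by simp⟩
  · have hd : Q.natDegree ≤ 2 * h := by
      have h1 := hP.1
      rw [hQ, natDegree_mul (R_monic t).ne_zero h0, R_natDegree] at h1
      omega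
    apply pal_of_reflect hd
    have h1 := reflect_pal hP
    rw [hQ, show 2 * (h + 1) = 2 + 2 * h by ring,
      reflect_mul _ _ (R_natDegree t).le hd, reflect_R] at h1
    exact mul_left_cancel₀ (R_monic t).ne_zero h1

/-- the norm of the quotient -/
theorem n1_div {t : ℤ} (ht : 3 ≤ t) {P Q : ℤ[X]} (hQ : P = R t * Q) : n1 Q ≤ n1 P := by
  have h1 : C t * (X * Q) = X ^ 2 * Q + X ^ 0 * Q - P := by
    rw [hQ]; unfold R; ring
  have h2 : n1 (C t * (X * Q)) ≤ n1 Q + n1 Q + n1 P := by
    rw [h1]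
    refine le_trans (n1_sub _ _) ?_
    have h3 := n1_add (X ^ 2 * Q) (X ^ 0 * Q)
    rw [n1_X_pow_mul, n1_X_pow_mul] at h3
    linarith
  rw [n1_C_mul, n1_X_mul, abs_of_pos (by linarith)] at h2
  have h4 := n1_nonneg Q
  nlinarith

end Q172.LwRec
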