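import Mathlib
import Pool.Agent.Q172.LwRec.Pal

set_option autoImplicit false

/-!
A palindromic recurrence on a long window gives a multiplier with small Littlewood product.
-/

open Polynomial Pool.H389R2.LC

namespace Q172.LwRec

theorem act_cast (P : ℤ[X]) (f : ℤ → ℤ) (k : ℤ) :
    act P (fun j => ((f j : ℤ) : ℝ)) k = ((act P f k : ℤ) : ℝ) := by
  rw [act_eq_sum P (P.natDegree + 1) (by omega), act_eq_sum P (P.natDegree + 1) (by omega)]
  push_cast
  apply Finset.sum_congr rfl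
  intro i _
  rw [zsmul_eq_mul, smul_eq_mul]
  push_cast
  rfl

section base
variable {t : ℤ} {ε : ℝ} (hb : Base t ε)
include hb

/-- reduction modulo `R` of the action on the two-sided sums -/
theorem act_mod (f : ℤ → ℤ) (B : ℝ) (hB : ∀ k, |(f k : ℝ)| ≤ B) (h : ℕ) (M : ℤ) (P Q : ℤ[X])
    (hP : P = C M * X ^ h + R t * Q) (j : ℤ) :
    ∃ z : ℤ, act P (gg ε f) j = M * gg ε f (j + h) + z := by
  refine ⟨-act Q (fun k => f (k + 1)) j, ?_⟩
  have h1 : act P (gg ε f) j = act (C M * X ^ h) (gg ε f) j + act (Q * R t) (gg ε f) j := by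
    rw [hP, act_add, mul_comm (R t) Q]; rfl
  have h2 : act (R t) (gg ε f) = -(fun k => ((f (k + 1) : ℤ) : ℝ)) := by
    funext k
    rw [act_R_gg hb f B hB]; rfl
  have h3 : act (Q * R t) (gg ε f) j = -((act Q (fun k => f (k + 1)) j : ℤ) : ℝ) := by
    rw [act_mul, h2, ← act_cast]
    unfold act
    rw [map_neg]; rfl
  rw [h1, h3, C_mul_X_pow_eq_monomial, act_monomial, zsmul_eq_mul]
  push_cast
  rfl

/-- descent: division by the characteristic polynomial -/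
theorem descent (D : ℤ → ℤ) (B : ℝ) (hB : ∀ k, |(D k : ℝ)| ≤ B) (P Q : ℤ[X]) (hP : P = R t * Q)
    (s : ℤ) (n : ℕ) (ρ : ℕ) (hρ0 : 0 < ρ) (hρ : 2 * ρ ≤ n)
    (hrel : ∀ k, s ≤ k → k < s + n → act P D k = 0)
    (hs : 2 * ((t + 2) * (n1 Q * B)) * (1 - ε⁻¹)⁻¹ * ε⁻¹ ^ ρ < 1) :
    ∀ k, s ≤ k → k < s + (n + 2 : ℕ) → act Q D k = 0 := by
  set w := act Q D with hw
  have hwB : ∀ k, |(w k : ℝ)| ≤ n1 Q * B := act_bdd Q D B hB
  have hR : ∀ k, s ≤ k → k < s + n → act (R t) w k = 0 := by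
    intro k h1 h2
    have := hrel k h1 h2
    rwa [hP, act_mul] at this
  have hrec : ∀ k, s ≤ k → k < s + n → w (k + 2) - t * w (k + 1) + w k = 0 := by
    intro k h1 h2
    have := hR k h1 h2
    rw [act_R, smul_eq_mul] at this
    exact this
  have hz1 : w (s + ρ) = 0 := by
    have := zero_of_rec hb w _ hwB (s + ρ - 1) ρ (by
      intro k h1 h2
      exact hR k (by omega) (by omega)) hs
    rwa [sub_add_cancel] at this
  have hz2 : w (s + ρ + 1) = 0 :=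
    zero_of_rec hb w _ hwB (s + ρ) ρ (by
      intro k h1 h2
      exact hR k (by omega) (by omega)) hs
  have hf : ∀ i : ℕ, ρ + i ≤ n + 1 → w (s + ρ + i) = 0 := by
    intro i
    induction i using Nat.twoStepInduction with
    | zero => intro _; simpa using hz1
    | one => intro _; simpa using hz2
    | more i ih1 ih2 =>
      intro hi
      have h1 := ih1 (by omega)
      have h2 := ih2 (by omega)
      have h3 := hrec (s + ρ + i) (by omega) (by omega)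
      push_cast at h2 ⊢
      rw [show s + ρ + ((i : ℤ) + 2) = s + ρ + i + 2 by ring]
      rw [show s + ρ + ((i : ℤ) + 1) = s + ρ + i + 1 by ring] at h2
      rw [h1, h2] at h3
      linarith
  have hg : ∀ i : ℕ, i ≤ ρ → w (s + ρ - i) = 0 ∧ w (s + ρ - i + 1) = 0 := by
    intro i
    induction i with
    | zero => intro _; exact ⟨by simpa using hz1, by simpa using hz2⟩
    | succ i ih =>
      intro hi
      obtain ⟨h1, h2⟩ := ih (by omega)
      have h3 := hrec (s + ρ - (i + 1 : ℕ)) (by omega) (by omega)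
      push_cast at h3 ⊢
      rw [show s + ρ - ((i : ℤ) + 1) + 2 = s + ρ - i + 1 by ring,
        show s + ρ - ((i : ℤ) + 1) + 1 = s + ρ - i by ring, h1, h2] at h3
      refine ⟨by linarith, ?_⟩
      rw [show s + ρ - ((i : ℤ) + 1) + 1 = s + ρ - i by ring]
      exact h1
  intro k hk1 hk2
  rcases le_or_gt (s + ρ) k with h | h
  · have := hf (k - (s + ρ)).toNat (by omega)
    rwa [show s + (ρ : ℤ) + ((k - (s + ρ)).toNat : ℤ) = k by omega] at this
  · have := (hg (s + ρ - k).toNat (by omega)).1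
    rwa [show s + (ρ : ℤ) - ((s + ρ - k).toNat : ℤ) = k by omega] at this

/-- the case of a nonzero value -/
theorem core_ne (α β : ℝ) (A0 B0 : ℤ) (c : ℕ) (hc : 0 < c) (hα : (c : ℝ) * α = A0 + B0 * ε)
    (d : ℕ → ℤ) (B : ℝ) (hB : ∀ k, |(d k : ℝ)| ≤ B)
    (hβ : β = ∑' k : ℕ, (d k : ℝ) * ε⁻¹ ^ k) :
    ∃ C : ℝ, 0 < C ∧ ∀ (h s n : ℕ) (M : ℤ) (P Q : ℤ[X]), M ≠ 0 → P.natDegree ≤ 2 * h →
      P = Polynomial.C M * X ^ h + R t * Q → (n1 P : ℝ) ^ 3 * ε ^ (h + 2) < ε ^ n →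
      (∀ k : ℤ, s ≤ k → k < s + n → act P (ext d) k = 0) →
      ∃ q : ℕ, 0 < q ∧ (q : ℝ) ≤ C * ε ^ (s + 2 * n) ∧
        (L α β q) ^ 2 ≤ C * (n1 P : ℝ) ^ 3 * ε ^ h * ε⁻¹ ^ n := by
  have hε := hb.pos
  have hr0 := hb.rpos
  have hr1 := hb.rlt
  have hm1 := hb.mul
  have h2ε := hb.two_lt
  have hB0 : 0 ≤ B := le_trans (abs_nonneg _) (hB 0)
  have hcr : (0 : ℝ) < c := by exact_mod_cast hc
  have h1r : 0 < 1 - ε⁻¹ := by linarith
  have hinv : 0 < (1 - ε⁻¹)⁻¹ := inv_pos.mpr h1r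
  set C1 : ℝ := c ^ 2 * |(B0 : ℝ)| * ε * 8 * (2 * B * (1 - ε⁻¹)⁻¹ + |β|) with hC1
  have hC1nn : 0 ≤ C1 := by positivity
  refine ⟨C1 ^ 2 * ε ^ 2 + 2 * c * ε, by positivity, ?_⟩
  intro h s n M P Q hM hdeg hP hlt hrel
  set H : ℝ := (n1 P : ℝ) with hH
  have hP0 : P ≠ 0 := by
    intro h0
    have hev : aeval ε (0 : ℤ[X]) = aeval ε (Polynomial.C M * X ^ h + R t * Q) := by
      rw [← hP, h0]
    rw [map_zero, map_add, map_mul, map_mul, aeval_C, map_pow, aeval_X] at hev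
    have hR0 : aeval ε (R t) = 0 := by
      unfold R
      simp only [map_add, map_sub, map_mul, map_pow, aeval_X, aeval_C, map_one]
      simpa using hb.hq
    rw [hR0, zero_mul, add_zero] at hev
    have : (algebraMap ℤ ℝ) M ≠ 0 := by simpa using hM
    exact (mul_ne_zero this (pow_pos hε h).ne') hev.symm
  have hH1 : 1 ≤ H := by
    have := one_le_n1 hP0
    rw [hH]; exact_mod_cast this
  have hH0 : 0 < H := by linarith
  have hH3 : H ≤ H ^ 3 := by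
    have h1 : H ^ 1 ≤ H ^ 3 := pow_le_pow_right₀ hH1 (by norm_num)
    linarith
  -- size of M
  have hMsize : |(M : ℝ)| ≤ H * ε ^ h := by
    have h1 := eval_le P (2 * h) hdeg ε hb.h1.le
    have h2 : aeval ε P = (M : ℝ) * ε ^ h := by
      rw [hP, map_add, map_mul, map_mul, aeval_C, map_pow, aeval_X]
      have hR0 : aeval ε (R t) = 0 := by
        unfold R
        simp only [map_add, map_sub, map_mul, map_pow, aeval_X, aeval_C, map_one]
        simpa using hb.hq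
      rw [hR0, zero_mul, add_zero]; simp
    rw [h2, abs_mul, abs_of_pos (pow_pos hε h), two_mul, pow_add, ← mul_assoc] at h1
    exact le_of_mul_le_mul_right h1 (pow_pos hε h)
  -- h < n
  have hhn : h + 2 < n := by
    have h1 : ε ^ (h + 2) < ε ^ n := by
      have : 1 * ε ^ (h + 2) ≤ H ^ 3 * ε ^ (h + 2) :=
        mul_le_mul_of_nonneg_right (by linarith) (pow_pos hε _).le
      linarith
    exact (pow_lt_pow_iff_right₀ hb.h1).mp h1
  set j0 : ℕ := s + n / 2 with hj0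
  set p : ℕ := j0 + h with hp
  set ρ : ℕ := (n - 1) / 2 with hρ
  set m : ℕ := M.natAbs with hm
  have hm0 : 0 < m := Int.natAbs_pos.mpr hM
  set δ : ℝ := 2 * (H * B) * (1 - ε⁻¹)⁻¹ * ε⁻¹ ^ ρ with hδ
  have hδ0 : 0 ≤ δ := by positivity
  have hext := ext_bdd d B hB
  have heB : ∀ k, |((act P (ext d) k : ℤ) : ℝ)| ≤ H * B := act_bdd P (ext d) B hext
  have hsm : ∀ j : ℤ, (j0 : ℤ) ≤ j → j ≤ j0 + 1 → |act P (gg ε (ext d)) j| ≤ δ := by
    intro j h1 h2
    rw [← gg_act hb (ext d) B hext P]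
    apply gg_small hb _ _ heB
    intro k h3 h4
    exact hrel k (by omega) (by omega)
  obtain ⟨z0, hz0⟩ := act_mod hb (ext d) B hext h M P Q hP j0
  obtain ⟨z1, hz1⟩ := act_mod hb (ext d) B hext h M P Q hP (j0 + 1)
  have hs0 := hsm j0 le_rfl (by omega)
  have hs1 := hsm (j0 + 1) (by omega) le_rfl
  rw [hz0] at hs0
  rw [hz1] at hs1
  have hpj : ((j0 : ℤ) + (h : ℤ)) = (p : ℤ) := by rw [hp]; push_cast; ring
  have hpj1 : ((j0 : ℤ) + 1 + (h : ℤ)) = (p : ℤ) + 1 := by rw [hp]; push_cast; ring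
  rw [hpj] at hs0
  rw [hpj1] at hs1
  obtain ⟨a, b, hab, ha, hb', hdvd⟩ := pigeon m hm0 (-z0) (-z1)
  obtain ⟨z, hz⟩ : M ∣ a * (-z0) + b * (-z1) := by
    rw [hm] at hdvd
    exact Int.natAbs_dvd.mp hdvd
  set A : ℕ := Nat.sqrt m with hA
  have hMabs : (m : ℝ) = |(M : ℝ)| := by
    rw [hm, Nat.cast_natAbs]; push_cast; rfl
  have hMr : (0 : ℝ) < |(M : ℝ)| := by
    rw [← hMabs]; exact_mod_cast hm0
  have hA1 : 1 ≤ (A : ℝ) := by
    have : 0 < Nat.sqrt m := Nat.sqrt_pos.mpr hm0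
    exact_mod_cast this
  have hA2 : (A : ℝ) ^ 2 ≤ |(M : ℝ)| := by
    rw [← hMabs]
    exact_mod_cast Nat.sqrt_le' m
  have haA : |(a : ℝ)| ≤ A := by
    have : ((|a| : ℤ) : ℝ) ≤ ((A : ℤ) : ℝ) := by exact_mod_cast ha
    simpa using this
  have hbA : |(b : ℝ)| ≤ A := by
    have : ((|b| : ℤ) : ℝ) ≤ ((A : ℤ) : ℝ) := by exact_mod_cast hb'
    simpa using this
  have hA2' : (A : ℝ) ^ 2 ≤ H * ε ^ h := le_trans hA2 hMsize
  have hHh : H * ε ^ h * ε ^ 2 < ε ^ n := by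
    calc H * ε ^ h * ε ^ 2 = H * ε ^ (h + 2) := by ring
      _ ≤ H ^ 3 * ε ^ (h + 2) := mul_le_mul_of_nonneg_right hH3 (pow_pos hε _).le
      _ < ε ^ n := hlt
  -- nonvanishing
  have hne : a * U t p + b * U t (p + 1) ≠ 0 := by
    intro h0
    have hdiv : U t (p + 1) ∣ a * U t p := ⟨-b, by linarith⟩
    have hdiv2 : U t (p + 1) ∣ a := (U_coprime t p).symm.dvd_of_dvd_mul_right hdiv
    have hUp : ε ^ p ≤ (U t (p + 1) : ℝ) := hb.U_lower p
    have hεp : 0 < ε ^ p := pow_pos hε p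
    have hUpos : (0 : ℤ) < U t (p + 1) := by
      have : (0 : ℝ) < U t (p + 1) := by linarith
      exact_mod_cast this
    by_cases ha0 : a = 0
    · rw [ha0] at h0
      have : b = 0 := by
        rcases mul_eq_zero.mp (by linarith : b * U t (p + 1) = 0) with h | h
        · exact h
        · omega
      rcases hab with h | h
      · exact h ha0
      · exact h this
    · have h1 : U t (p + 1) ≤ |a| := Int.le_of_dvd (abs_pos.mpr ha0) ((dvd_abs _ _).mpr hdiv2)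
      have h2 : (U t (p + 1) : ℝ) ≤ A := by
        have : (U t (p + 1) : ℝ) ≤ ((|a| : ℤ) : ℝ) := by exact_mod_cast h1
        have h3 : ((|a| : ℤ) : ℝ) ≤ A := by push_cast; exact haA
        linarith
      have h3 : (ε ^ p) ^ 2 ≤ H * ε ^ h := by
        calc (ε ^ p) ^ 2 ≤ (A : ℝ) ^ 2 := pow_le_pow_left₀ hεp.le (by linarith) 2
          _ ≤ _ := hA2'
      have h4 : ε ^ n ≤ (ε ^ p) ^ 2 * ε ^ 2 := by
        rw [← pow_mul, ← pow_add]
        exact pow_le_pow_right₀ hb.h1.le (by omega)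
      have h5 : (ε ^ p) ^ 2 * ε ^ 2 ≤ H * ε ^ h * ε ^ 2 :=
        mul_le_mul_of_nonneg_right h3 (by positivity)
      linarith
  -- closeness
  have hκ : |(a : ℝ) * gg ε (ext d) p + b * gg ε (ext d) (p + 1) - z| ≤ 2 * δ / A := by
    set Z : ℝ := (a : ℝ) * gg ε (ext d) p + b * gg ε (ext d) (p + 1) - z with hZ
    have e1 : (M : ℝ) * Z = a * (M * gg ε (ext d) p + z0) + b * (M * gg ε (ext d) (p + 1) + z1) := by
      have e2 : ((a * (-z0) + b * (-z1) : ℤ) : ℝ) = ((M * z : ℤ) : ℝ) := by rw [hz]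
      push_cast at e2
      rw [hZ]
      linear_combination e2
    have e3 : |(M : ℝ)| * |Z| ≤ 2 * A * δ := by
      rw [← abs_mul, e1]
      calc |(a : ℝ) * (M * gg ε (ext d) p + z0) + b * (M * gg ε (ext d) (p + 1) + z1)|
          ≤ |(a : ℝ)| * |M * gg ε (ext d) p + z0| + |(b : ℝ)| * |M * gg ε (ext d) (p + 1) + z1| := by
            rw [← abs_mul, ← abs_mul]; exact abs_add_le _ _
        _ ≤ A * δ + A * δ := by
            apply add_le_add
            · exact mul_le_mul haA hs0 (abs_nonneg _) (by positivity)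
            · exact mul_le_mul hbA hs1 (abs_nonneg _) (by positivity)
        _ = 2 * A * δ := by ring
    have e4 : (A : ℝ) ^ 2 * |Z| ≤ 2 * A * δ :=
      le_trans (mul_le_mul_of_nonneg_right hA2 (abs_nonneg _)) e3
    rw [le_div_iff₀ (by linarith)]
    have e5 : (A : ℝ) * (|Z| * A) ≤ A * (2 * δ) := by nlinarith
    exact le_of_mul_le_mul_left e5 (by linarith)
  obtain ⟨q, hq0, hqs, hqL⟩ := key hb α β A0 B0 c hc hα d B hB hβ p a b hne (2 * A)
    (by linarith) _ z hκ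
  have hρ2 : ε ^ n ≤ ε ^ 2 * ε ^ (2 * ρ) := by
    rw [← pow_add]
    exact pow_le_pow_right₀ hb.h1.le (by omega)
  refine ⟨q, hq0, ?_, ?_⟩
  · -- size of q
    have h1 : ((A : ℝ) * ε ^ p) ^ 2 ≤ (ε ^ (s + 2 * n)) ^ 2 := by
      calc ((A : ℝ) * ε ^ p) ^ 2 = (A : ℝ) ^ 2 * ε ^ (2 * p) := by ring
        _ ≤ (H * ε ^ h) * ε ^ (2 * p) :=
            mul_le_mul_of_nonneg_right hA2' (pow_pos hε _).le
        _ ≤ (H * ε ^ h * ε ^ 2) * ε ^ (2 * p) := by
            apply mul_le_mul_of_nonneg_right _ (pow_pos hε _).le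
            have h3 : (1 : ℝ) ≤ ε ^ 2 := one_le_pow₀ hb.h1.le
            have h4 : 0 ≤ H * ε ^ h := by positivity
            nlinarith
        _ ≤ ε ^ n * ε ^ (2 * p) := mul_le_mul_of_nonneg_right hHh.le (pow_pos hε _).le
        _ = ε ^ (n + 2 * p) := by rw [pow_add]
        _ ≤ ε ^ ((s + 2 * n) * 2) := pow_le_pow_right₀ hb.h1.le (by omega)
        _ = (ε ^ (s + 2 * n)) ^ 2 := by rw [pow_mul]
    have h2 : (A : ℝ) * ε ^ p ≤ ε ^ (s + 2 * n) :=
      le_of_sq_le_sq h1 (pow_pos hε _).le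
    calc (q : ℝ) ≤ c * (2 * A) * ε ^ (p + 1) := hqs
      _ = 2 * c * ε * (A * ε ^ p) := by ring
      _ ≤ 2 * c * ε * ε ^ (s + 2 * n) := mul_le_mul_of_nonneg_left h2 (by positivity)
      _ ≤ (C1 ^ 2 * ε ^ 2 + 2 * c * ε) * ε ^ (s + 2 * n) := by
          apply mul_le_mul_of_nonneg_right _ (pow_pos hε _).le
          have : 0 ≤ C1 ^ 2 * ε ^ 2 := by positivity
          linarith
  · -- the product
    have hA3 : (A : ℝ) ^ 2 * ε⁻¹ ^ p ≤ H * ε⁻¹ ^ ρ := by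
      calc (A : ℝ) ^ 2 * ε⁻¹ ^ p ≤ (H * ε ^ h) * ε⁻¹ ^ p :=
            mul_le_mul_of_nonneg_right hA2' (pow_pos hr0 _).le
        _ ≤ (H * ε ^ h) * ε⁻¹ ^ (h + ρ) := by
            apply mul_le_mul_of_nonneg_left _ (by positivity)
            exact pow_le_pow_of_le_one hr0.le hr1.le (by omega)
        _ = H * (ε * ε⁻¹) ^ h * ε⁻¹ ^ ρ := by rw [pow_add, mul_pow]; ring
        _ = H * ε⁻¹ ^ ρ := by rw [hm1, one_pow, mul_one]
    have hL1 : L α β q ≤ C1 * A * H * ε⁻¹ ^ ρ := by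
      calc L α β q ≤ c ^ 2 * |(B0 : ℝ)| * ε * (2 * (A : ℝ)) ^ 2
              * (2 * δ / A + (2 * A) * ε⁻¹ ^ p * |β|) := hqL
        _ = c ^ 2 * |(B0 : ℝ)| * ε * 8 * (A * δ + A * ((A : ℝ) ^ 2 * ε⁻¹ ^ p) * |β|) := by
            have : (A : ℝ) ≠ 0 := by linarith
            field_simp
            ring
        _ ≤ c ^ 2 * |(B0 : ℝ)| * ε * 8 * (A * δ + A * (H * ε⁻¹ ^ ρ) * |β|) := by
            apply mul_le_mul_of_nonneg_left _ (by positivity)
            have h1 : (A : ℝ) * ((A : ℝ) ^ 2 * ε⁻¹ ^ p) * |β| ≤ A * (H * ε⁻¹ ^ ρ) * |β| := by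
              apply mul_le_mul_of_nonneg_right _ (abs_nonneg _)
              exact mul_le_mul_of_nonneg_left hA3 (by linarith)
            linarith
        _ = C1 * A * H * ε⁻¹ ^ ρ := by rw [hδ, hC1]; ring
    have hL0 := L_nonneg α β q
    have hinvn : ε⁻¹ ^ (2 * ρ) ≤ ε ^ 2 * ε⁻¹ ^ n := by
      have h1 : ε⁻¹ ^ (2 * ρ + 2) ≤ ε⁻¹ ^ n :=
        pow_le_pow_of_le_one hr0.le hr1.le (by omega)
      calc ε⁻¹ ^ (2 * ρ) = (ε * ε⁻¹) ^ 2 * ε⁻¹ ^ (2 * ρ) := by rw [hm1, one_pow, one_mul]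
        _ = ε ^ 2 * ε⁻¹ ^ (2 * ρ + 2) := by rw [mul_pow, pow_add]; ring
        _ ≤ ε ^ 2 * ε⁻¹ ^ n := mul_le_mul_of_nonneg_left h1 (by positivity)
    calc (L α β q) ^ 2 ≤ (C1 * A * H * ε⁻¹ ^ ρ) ^ 2 := pow_le_pow_left₀ hL0 hL1 2
      _ = C1 ^ 2 * (A : ℝ) ^ 2 * H ^ 2 * ε⁻¹ ^ (2 * ρ) := by rw [mul_comm 2 ρ, pow_mul]; ring
      _ ≤ C1 ^ 2 * (H * ε ^ h) * H ^ 2 * (ε ^ 2 * ε⁻¹ ^ n) := by
          apply mul_le_mul _ hinvn (by positivity) (by positivity)
          apply mul_le_mul_of_nonneg_right _ (by positivity)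
          exact mul_le_mul_of_nonneg_left hA2' (by positivity)
      _ = (C1 ^ 2 * ε ^ 2) * H ^ 3 * ε ^ h * ε⁻¹ ^ n := by ring
      _ ≤ (C1 ^ 2 * ε ^ 2 + 2 * c * ε) * H ^ 3 * ε ^ h * ε⁻¹ ^ n := by
          apply mul_le_mul_of_nonneg_right _ (by positivity)
          apply mul_le_mul_of_nonneg_right _ (by positivity)
          apply mul_le_mul_of_nonneg_right _ (by positivity)
          have : 0 ≤ 2 * (c : ℝ) * ε := by positivity
          linarith

end base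

end Q172.LwRec
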