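import Mathlib
import Pool.Agent.Q172.LwRec.Core

set_option autoImplicit false

/-!
A polynomial of the shift which maps the digits to a mirror symmetric string.
-/

open Polynomial Pool.H389R2.LC

namespace Q172.LwRec

theorem aeval_R {t : ℤ} {x : ℝ} (hx : x ^ 2 - t * x + 1 = 0) : aeval x (R t) = 0 := by
  unfold R
  simp only [map_add, map_sub, map_mul, map_pow, aeval_X, aeval_C, map_one]
  simpa using hx

/-- representation with prescribed centre -/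
theorem mod_center (t : ℤ) (h : ℕ) : ∀ S : ℤ[X], ∃ (r0 r1 : ℤ) (Q : ℤ[X]),
    S = X ^ h * (C r0 + C r1 * X) + R t * Q := by
  induction h with
  | zero =>
    intro S
    have h1 := modByMonic_add_div S (R t)
    have hdeg : (S %ₘ R t).natDegree < 2 := by
      have h2 := natDegree_modByMonic_lt S (R_monic t) (by
        intro h; have := R_natDegree t; rw [h] at this; simp at this)
      rwa [R_natDegree] at h2
    refine ⟨(S %ₘ R t).coeff 0, (S %ₘ R t).coeff 1, S /ₘ R t, ?_⟩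
    have h3 : S %ₘ R t = C ((S %ₘ R t).coeff 0) + C ((S %ₘ R t).coeff 1) * X := by
      conv_lhs => rw [(S %ₘ R t).as_sum_range' 2 hdeg]
      rw [Finset.sum_range_succ, Finset.sum_range_one, ← C_mul_X_pow_eq_monomial,
        ← C_mul_X_pow_eq_monomial]
      ring
    rw [pow_zero, one_mul, ← h3, h1]
  | succ h ih =>
    intro S
    obtain ⟨r0, r1, Q, hS⟩ := ih S
    refine ⟨r0 * t + r1, -r0, Q + X ^ h * C r0, ?_⟩
    rw [hS]
    unfold R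
    simp only [C_add, C_mul, C_neg]
    ring

theorem eval_le' (P : ℤ[X]) (x : ℝ) (hx0 : 0 ≤ x) (hx : x ≤ 1) :
    |aeval x P| ≤ n1 P := by
  rw [aeval_eq_sum_range' (n := P.natDegree + 1) (by omega), n1_eq P (P.natDegree + 1) (by omega)]
  push_cast
  refine le_trans (Finset.abs_sum_le_sum_abs _ _) ?_
  apply Finset.sum_le_sum
  intro i _
  rw [zsmul_eq_mul, abs_mul, abs_of_nonneg (by positivity : (0:ℝ) ≤ x ^ i)]
  have h1 : x ^ i ≤ 1 := pow_le_one₀ hx0 hx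
  have h2 := abs_nonneg ((P.coeff i : ℤ) : ℝ)
  nlinarith

section base
variable {t : ℤ} {ε : ℝ} (hb : Base t ε)
include hb

theorem hqinv : ε⁻¹ ^ 2 - t * ε⁻¹ + 1 = 0 := by
  have h1 := hb.add
  have h2 := hb.mul
  rw [← h1]
  linear_combination -h2

/-- the unit is irrational -/
theorem lin_indep (r0 r1 : ℤ) (h : (r0 : ℝ) + r1 * ε = 0) : r0 = 0 ∧ r1 = 0 := by
  have hr0 := hb.rpos
  have hr1 := hb.rlt
  have hadd := hb.add
  have hmul := hb.mul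
  have hint : ∀ n : ℕ, ∃ z : ℤ, (r1 : ℝ) * ε⁻¹ ^ n = z := by
    intro n
    induction n using Nat.twoStepInduction with
    | zero => exact ⟨r1, by simp⟩
    | one =>
      refine ⟨t * r1 + r0, ?_⟩
      push_cast
      rw [← hadd, pow_one]
      linear_combination (-1 : ℝ) * h
    | more n ih1 ih2 =>
      obtain ⟨z1, h1⟩ := ih1
      obtain ⟨z2, h2⟩ := ih2
      refine ⟨t * z2 - z1, ?_⟩
      push_cast
      rw [← h1, ← h2]
      have h3 : ε⁻¹ ^ 2 = t * ε⁻¹ - 1 := by have := hqinv hb; linarith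
      calc (r1 : ℝ) * ε⁻¹ ^ (n + 2) = r1 * ε⁻¹ ^ n * ε⁻¹ ^ 2 := by ring
        _ = r1 * ε⁻¹ ^ n * (t * ε⁻¹ - 1) := by rw [h3]
        _ = _ := by ring
  have hr1z : r1 = 0 := by
    by_contra hne
    obtain ⟨n, hn⟩ := exists_pow_lt_of_lt_one (y := ε⁻¹)
      (inv_pos.mpr (abs_pos.mpr (Int.cast_ne_zero.mpr hne) : (0 : ℝ) < |(r1 : ℝ)|)) hr1
    obtain ⟨z, hz⟩ := hint n
    have h1 : |(z : ℝ)| < 1 := by
      rw [← hz, abs_mul, abs_of_pos (pow_pos hr0 n)]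
      have h2 : 0 < |(r1 : ℝ)| := abs_pos.mpr (Int.cast_ne_zero.mpr hne)
      calc |(r1 : ℝ)| * ε⁻¹ ^ n < |(r1 : ℝ)| * |(r1 : ℝ)|⁻¹ := mul_lt_mul_of_pos_left hn h2
        _ = 1 := mul_inv_cancel₀ h2.ne'
    have h2 : |z| < 1 := by exact_mod_cast h1
    have h3 : z = 0 := Int.abs_lt_one_iff.mp h2
    rw [h3] at hz
    have h4 : (r1 : ℝ) * ε⁻¹ ^ n ≠ 0 :=
      mul_ne_zero (Int.cast_ne_zero.mpr hne) (pow_pos hr0 n).ne'
    exact h4 (by simpa using hz)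
  refine ⟨?_, hr1z⟩
  rw [hr1z] at h
  have : (r0 : ℝ) = 0 := by simpa using h
  exact_mod_cast this

/-- a polynomial which vanishes at the unit is divisible by `R` -/
theorem R_dvd (P : ℤ[X]) (hP : aeval ε P = 0) : ∃ Q : ℤ[X], P = R t * Q := by
  obtain ⟨r0, r1, Q, h⟩ := mod_center t 0 P
  have h1 := congrArg (aeval ε) h
  rw [hP, map_add, map_mul, map_mul, map_add, map_mul, aeval_R hb.hq, aeval_C, aeval_C, aeval_X,
    pow_zero, map_one, zero_mul, add_zero, one_mul] at h1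
  obtain ⟨h2, h3⟩ := lin_indep hb r0 r1 (by simpa using h1.symm)
  refine ⟨Q, ?_⟩
  rw [h, h2, h3]
  simp

/-- a bounded integer solution of the recurrence on a long window vanishes on the window -/
theorem zero_window (w : ℤ → ℤ) (B : ℝ) (hwB : ∀ k, |(w k : ℝ)| ≤ B)
    (s : ℤ) (n : ℕ) (ρ : ℕ) (hρ0 : 0 < ρ) (hρ : 2 * ρ ≤ n)
    (hR : ∀ k, s ≤ k → k < s + n → act (R t) w k = 0)
    (hs : 2 * ((t + 2) * B) * (1 - ε⁻¹)⁻¹ * ε⁻¹ ^ ρ < 1) :
    ∀ k, s ≤ k → k < s + (n + 2 : ℕ) → w k = 0 := by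
  have hrec : ∀ k, s ≤ k → k < s + n → w (k + 2) - t * w (k + 1) + w k = 0 := by
    intro k h1 h2
    have := hR k h1 h2
    rw [act_R, smul_eq_mul] at this
    exact this
  have hz1 : w (s + ρ) = 0 := by
    have := zero_of_rec hb w _ hwB (s + ρ - 1) ρ (by
      intro k h1 h2
      exact hR k (by omega) (by omega)) hs
    rwa [sub_add_cancel] at this
  have hz2 : w (s + ρ + 1) = 0 :=
    zero_of_rec hb w _ hwB (s + ρ) ρ (by
      intro k h1 h2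
      exact hR k (by omega) (by omega)) hs
  have hf : ∀ i : ℕ, ρ + i ≤ n + 1 → w (s + ρ + i) = 0 := by
    intro i
    induction i using Nat.twoStepInduction with
    | zero => intro _; simpa using hz1
    | one => intro _; simpa using hz2
    | more i ih1 ih2 =>
      intro hi
      have h1 := ih1 (by omega)
      have h2 := ih2 (by omega)
      have h3 := hrec (s + ρ + i) (by omega) (by omega)
      push_cast at h2 ⊢
      rw [show s + ρ + ((i : ℤ) + 2) = s + ρ + i + 2 by ring]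
      rw [show s + ρ + ((i : ℤ) + 1) = s + ρ + i + 1 by ring] at h2
      rw [h1, h2] at h3
      linarith
  have hg : ∀ i : ℕ, i ≤ ρ → w (s + ρ - i) = 0 ∧ w (s + ρ - i + 1) = 0 := by
    intro i
    induction i with
    | zero => intro _; exact ⟨by simpa using hz1, by simpa using hz2⟩
    | succ i ih =>
      intro hi
      obtain ⟨h1, h2⟩ := ih (by omega)
      have h3 := hrec (s + ρ - (i + 1 : ℕ)) (by omega) (by omega)
      push_cast at h3 ⊢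
      rw [show s + ρ - ((i : ℤ) + 1) + 2 = s + ρ - i + 1 by ring,
        show s + ρ - ((i : ℤ) + 1) + 1 = s + ρ - i by ring, h1, h2] at h3
      refine ⟨by linarith, ?_⟩
      rw [show s + ρ - ((i : ℤ) + 1) + 1 = s + ρ - i by ring]
      exact h1
  intro k hk1 hk2
  rcases le_or_gt (s + ρ) k with h | h
  · have := hf (k - (s + ρ)).toNat (by omega)
    rwa [show s + (ρ : ℤ) + ((k - (s + ρ)).toNat : ℤ) = k by omega] at this
  · have := (hg (s + ρ - k).toNat (by omega)).1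
    rwa [show s + (ρ : ℤ) - ((s + ρ - k).toNat : ℤ) = k by omega] at this

/-- reduction of the action, general centre -/
theorem act_mod' (f : ℤ → ℤ) (B : ℝ) (hB : ∀ k, |(f k : ℝ)| ≤ B) (h : ℕ) (r0 r1 : ℤ) (S Q : ℤ[X])
    (hS : S = X ^ h * (C r0 + C r1 * X) + R t * Q) (j : ℤ) :
    ∃ z : ℤ, act S (gg ε f) j = r0 * gg ε f (j + h) + r1 * gg ε f (j + h + 1) + z := by
  refine ⟨-act Q (fun k => f (k + 1)) j, ?_⟩
  have h1 : act S (gg ε f) j = act (monomial h r0) (gg ε f) j + act (monomial (h + 1) r1) (gg ε f) j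
      + act (Q * R t) (gg ε f) j := by
    have e : S = monomial h r0 + monomial (h + 1) r1 + Q * R t := by
      rw [hS, ← C_mul_X_pow_eq_monomial, ← C_mul_X_pow_eq_monomial]; ring
    rw [e, act_add, act_add]; rfl
  have h2 : act (R t) (gg ε f) = -(fun k => ((f (k + 1) : ℤ) : ℝ)) := by
    funext k
    rw [act_R_gg hb f B hB]; rfl
  have h3 : act (Q * R t) (gg ε f) j = -((act Q (fun k => f (k + 1)) j : ℤ) : ℝ) := by
    rw [act_mul, h2, ← act_cast]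
    unfold act
    rw [map_neg]; rfl
  rw [h1, h3, act_monomial, act_monomial, zsmul_eq_mul, zsmul_eq_mul]
  push_cast
  rw [show j + ((h : ℤ) + 1) = j + h + 1 by ring]

/-- the case of a nonzero value -/
theorem mir_ne (α β : ℝ) (A0 B0 : ℤ) (c : ℕ) (hc : 0 < c) (hα : (c : ℝ) * α = A0 + B0 * ε)
    (d : ℕ → ℤ) (B : ℝ) (hB : ∀ k, |(d k : ℝ)| ≤ B)
    (hβ : β = ∑' k : ℕ, (d k : ℝ) * ε⁻¹ ^ k) :
    ∃ C K0 : ℝ, 0 < C ∧ 0 < K0 ∧ ∀ (ℓ s n : ℕ) (σ : ℤ) (P : ℤ[X]), aeval ε P ≠ 0 →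
      P.natDegree ≤ ℓ → (σ = 1 ∨ σ = -1) →
      K0 * (n1 P : ℝ) ^ 6 * ε ^ (2 * ℓ) ≤ ε ^ n →
      (∀ k : ℤ, s ≤ k → k < s + n →
        act P (ext d) (2 * s + n - 1 - k) = σ * act P (ext d) k) →
      ∃ q : ℕ, 0 < q ∧ (q : ℝ) ≤ C * ε ^ (s + 2 * n) ∧
        (L α β q) ^ 2 ≤ C * (n1 P : ℝ) ^ 6 * ε ^ (2 * ℓ) * ε⁻¹ ^ n := by
  have hε := hb.pos
  have hr0 := hb.rpos
  have hr1 := hb.rlt
  have hm1 := hb.mul
  have h2ε := hb.two_lt
  have hδ1 := hb.δpos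
  have hB0 : 0 ≤ B := le_trans (abs_nonneg _) (hB 0)
  have hcr : (0 : ℝ) < c := by exact_mod_cast hc
  have h1r : 0 < 1 - ε⁻¹ := by linarith
  have hinv : 0 < (1 - ε⁻¹)⁻¹ := inv_pos.mpr h1r
  -- size of the coefficients: |r0|, |r1| ≤ C2 H ε^(ℓ/2)
  set C2 : ℝ := 2 * (1 + ε) * (3 + ε ^ 2) * ε with hC2
  have hC2pos : 0 < C2 := by positivity
  set C1 : ℝ := c ^ 2 * |(B0 : ℝ)| * ε * (2 * C2) ^ 2 * (4 * B * (1 - ε⁻¹)⁻¹ + 2 * C2 * |β|) with hC1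
  have hC1nn : 0 ≤ C1 := by positivity
  refine ⟨C1 ^ 2 * ε ^ 6 + 2 * c * C2 * ε ^ 4, C2 ^ 2 * ε ^ 4 + ε ^ 6, by positivity, by positivity, ?_⟩
  intro ℓ s n σ P hP0 hdeg hσ hle hmir
  set H : ℝ := (n1 P : ℝ) with hH
  have hPne : P ≠ 0 := by rintro rfl; simp at hP0
  have hH1 : 1 ≤ H := by
    have := one_le_n1 hPne
    rw [hH]; exact_mod_cast this
  have hH0 : 0 < H := by linarith
  have hH6 : 1 ≤ H ^ 6 := one_le_pow₀ hH1
  have hHℓ : 0 < H ^ 6 * ε ^ (2 * ℓ) := by positivity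
  have hn : 6 + 2 * ℓ ≤ n := by
    have h1 : ε ^ (6 + 2 * ℓ) ≤ ε ^ n := by
      calc ε ^ (6 + 2 * ℓ) = ε ^ 6 * (1 * ε ^ (2 * ℓ)) := by rw [pow_add]; ring
        _ ≤ ε ^ 6 * (H ^ 6 * ε ^ (2 * ℓ)) := by gcongr
        _ ≤ (C2 ^ 2 * ε ^ 4 + ε ^ 6) * (H ^ 6 * ε ^ (2 * ℓ)) := by
            apply mul_le_mul_of_nonneg_right _ hHℓ.le
            have : 0 ≤ C2 ^ 2 * ε ^ 4 := by positivity
            linarith
        _ = (C2 ^ 2 * ε ^ 4 + ε ^ 6) * H ^ 6 * ε ^ (2 * ℓ) := by ring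
        _ ≤ ε ^ n := hle
    exact (pow_le_pow_iff_right₀ hb.h1).mp h1
  have hHε : C2 ^ 2 * H ^ 6 * ε ^ (2 * ℓ) * ε ^ 4 ≤ ε ^ n := by
    calc C2 ^ 2 * H ^ 6 * ε ^ (2 * ℓ) * ε ^ 4 = (C2 ^ 2 * ε ^ 4) * (H ^ 6 * ε ^ (2 * ℓ)) := by ring
      _ ≤ (C2 ^ 2 * ε ^ 4 + ε ^ 6) * (H ^ 6 * ε ^ (2 * ℓ)) := by
          apply mul_le_mul_of_nonneg_right _ hHℓ.le
          have : 0 ≤ ε ^ 6 := by positivity
          linarith
      _ = (C2 ^ 2 * ε ^ 4 + ε ^ 6) * H ^ 6 * ε ^ (2 * ℓ) := by ring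
      _ ≤ ε ^ n := hle
  have hσ2 : σ * σ = 1 := by rcases hσ with h | h <;> rw [h] <;> norm_num
  have hσa : |(σ : ℝ)| = 1 := by rcases hσ with h | h <;> rw [h] <;> simp
  -- parity
  obtain ⟨w, a, hw1, hw2, hna⟩ : ∃ w a : ℕ, 1 ≤ w ∧ w ≤ 2 ∧ n = 2 * a + w := by
    rcases Nat.even_or_odd' n with ⟨g, hg | hg⟩
    · exact ⟨2, g - 1, by norm_num, le_rfl, by omega⟩
    · exact ⟨1, g, le_rfl, by norm_num, hg⟩
  -- we compare the places j0 and j0 + w' where w' = 3 - w; centre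
  obtain ⟨w', hw'⟩ : ∃ w' : ℕ, w' = 3 - w := ⟨_, rfl⟩
  set j0 : ℕ := s + a + w - 2 with hj0
  set h : ℕ := ℓ / 2 with hh
  set p : ℕ := j0 + h with hp
  set S : ℤ[X] := P * (1 - monomial w' σ) with hS
  obtain ⟨r0, r1, Q, hSQ⟩ := mod_center t h S
  set ρ : ℕ := a - 2 with hρ
  have ha : 2 + ℓ ≤ a := by omega
  -- values
  have hmono : ∀ x : ℝ, aeval x (1 - monomial w' σ : ℤ[X]) = 1 - σ * x ^ w' := by
    intro x
    rw [map_sub, map_one, aeval_monomial]; simp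
  have hv1 : aeval ε P * (1 - σ * ε ^ w') = ε ^ h * (r0 + r1 * ε) := by
    have h1 := congrArg (aeval ε) hSQ
    rw [hS, map_mul, hmono, map_add, map_mul, map_mul, map_add, map_mul, aeval_R hb.hq, map_pow,
      aeval_X, aeval_C, aeval_C, zero_mul, add_zero] at h1
    simpa using h1
  have hv2 : aeval ε⁻¹ P * (1 - σ * ε⁻¹ ^ w') = ε⁻¹ ^ h * (r0 + r1 * ε⁻¹) := by
    have h1 := congrArg (aeval ε⁻¹) hSQ
    rw [hS, map_mul, hmono, map_add, map_mul, map_mul, map_add, map_mul, aeval_R (hqinv hb), map_pow,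
      aeval_X, aeval_C, aeval_C, zero_mul, add_zero] at h1
    simpa using h1
  have hw'1 : 1 ≤ w' := by omega
  have hw'2 : w' ≤ 2 := by omega
  have hεw : ε ≤ ε ^ w' := by
    calc ε = ε ^ 1 := (pow_one _).symm
      _ ≤ ε ^ w' := pow_le_pow_right₀ hb.h1.le hw'1
  have hεw2 : ε ^ w' ≤ ε ^ 2 := pow_le_pow_right₀ hb.h1.le hw'2
  have hfac1 : |1 - (σ : ℝ) * ε ^ w'| ≤ 1 + ε ^ 2 := by
    calc |1 - (σ : ℝ) * ε ^ w'| ≤ |(1 : ℝ)| + |(σ : ℝ) * ε ^ w'| := abs_sub _ _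
      _ = 1 + ε ^ w' := by
          rw [abs_mul, hσa, one_mul, abs_one, abs_of_pos (pow_pos hε _)]
      _ ≤ _ := by linarith
  have hfac2 : |1 - (σ : ℝ) * ε⁻¹ ^ w'| ≤ 2 := by
    calc |1 - (σ : ℝ) * ε⁻¹ ^ w'| ≤ |(1 : ℝ)| + |(σ : ℝ) * ε⁻¹ ^ w'| := abs_sub _ _
      _ = 1 + ε⁻¹ ^ w' := by
          rw [abs_mul, hσa, one_mul, abs_one, abs_of_pos (pow_pos hr0 _)]
      _ ≤ 2 := by have := pow_le_one₀ (n := w') hr0.le hr1.le; linarith
  have hfacne : 1 - (σ : ℝ) * ε ^ w' ≠ 0 := by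
    rcases hσ with h | h
    · rw [h]; push_cast; intro h0; linarith
    · rw [h]; push_cast; intro h0
      have := pow_pos hε w'
      linarith
  have hεh : 0 < ε ^ h := pow_pos hε h
  have hihh : 0 < ε⁻¹ ^ h := pow_pos hr0 h
  have hεhi : ε ^ h * ε⁻¹ ^ h = 1 := by rw [← mul_pow, hm1, one_pow]
  have hsz1 : |(r0 : ℝ) + r1 * ε| ≤ (1 + ε ^ 2) * ε * H * ε ^ h := by
    have h1 := eval_le P ℓ hdeg ε hb.h1.le
    have h2 : ε ^ ℓ ≤ ε * ε ^ h * ε ^ h := by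
      calc ε ^ ℓ ≤ ε ^ (1 + h + h) := pow_le_pow_right₀ hb.h1.le (by omega)
        _ = ε * ε ^ h * ε ^ h := by rw [pow_add, pow_add, pow_one]
    have h3 : ε ^ h * |(r0 : ℝ) + r1 * ε| ≤ ε ^ h * ((1 + ε ^ 2) * ε * H * ε ^ h) := by
      rw [← abs_of_pos hεh, ← abs_mul, abs_of_pos hεh, ← hv1, abs_mul]
      calc |aeval ε P| * |1 - (σ : ℝ) * ε ^ w'| ≤ (H * ε ^ ℓ) * (1 + ε ^ 2) :=
            mul_le_mul h1 hfac1 (abs_nonneg _) (by positivity)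
        _ ≤ (H * (ε * ε ^ h * ε ^ h)) * (1 + ε ^ 2) := by gcongr
        _ = _ := by ring
    exact le_of_mul_le_mul_left h3 hεh
  have hsz2 : |(r0 : ℝ) + r1 * ε⁻¹| ≤ 2 * H * ε ^ h := by
    have h1 := eval_le' P ε⁻¹ hr0.le hr1.le
    have h3 : ε⁻¹ ^ h * |(r0 : ℝ) + r1 * ε⁻¹| ≤ ε⁻¹ ^ h * (2 * H * ε ^ h) := by
      rw [← abs_of_pos hihh, ← abs_mul, abs_of_pos hihh, ← hv2, abs_mul]
      calc |aeval ε⁻¹ P| * |1 - (σ : ℝ) * ε⁻¹ ^ w'| ≤ H * 2 :=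
            mul_le_mul h1 hfac2 (abs_nonneg _) hH0.le
        _ = (ε ^ h * ε⁻¹ ^ h) * (2 * H) := by rw [hεhi]; ring
        _ = _ := by ring
    exact le_of_mul_le_mul_left h3 hihh
  have hsr1 : |(r1 : ℝ)| ≤ (3 + ε ^ 2) * ε * H * ε ^ h := by
    have e : (r1 : ℝ) * (ε - ε⁻¹) = (r0 + r1 * ε) - (r0 + r1 * ε⁻¹) := by ring
    have h1 : |(r1 : ℝ)| * 1 ≤ |(r1 : ℝ)| * (ε - ε⁻¹) :=
      mul_le_mul_of_nonneg_left hδ1.le (abs_nonneg _)
    have h2 : |(r1 : ℝ)| * (ε - ε⁻¹) = |(r1 : ℝ) * (ε - ε⁻¹)| := by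
      rw [abs_mul, abs_of_pos (by linarith : (0 : ℝ) < ε - ε⁻¹)]
    have h3 : |(r1 : ℝ) * (ε - ε⁻¹)| ≤ (1 + ε ^ 2) * ε * H * ε ^ h + 2 * H * ε ^ h := by
      rw [e]
      exact le_trans (abs_sub _ _) (add_le_add hsz1 hsz2)
    have h4 : 2 * H * ε ^ h ≤ 2 * ε * H * ε ^ h := by
      have h5 : 0 < H * ε ^ h := by positivity
      calc 2 * H * ε ^ h = 2 * (1 * (H * ε ^ h)) := by ring
        _ ≤ 2 * (ε * (H * ε ^ h)) :=
            mul_le_mul_of_nonneg_left (mul_le_mul_of_nonneg_right hb.h1.le h5.le) (by norm_num)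
        _ = 2 * ε * H * ε ^ h := by ring
    calc |(r1 : ℝ)| = |(r1 : ℝ)| * 1 := (mul_one _).symm
      _ ≤ (1 + ε ^ 2) * ε * H * ε ^ h + 2 * ε * H * ε ^ h := by linarith
      _ = _ := by ring
  have hsr0 : |(r0 : ℝ)| ≤ (1 + ε) * (3 + ε ^ 2) * ε * H * ε ^ h := by
    have e : (r0 : ℝ) = (r0 + r1 * ε⁻¹) - r1 * ε⁻¹ := by ring
    have h1 : |(r0 : ℝ)| ≤ |(r0 : ℝ) + r1 * ε⁻¹| + |(r1 : ℝ) * ε⁻¹| := by
      conv_lhs => rw [e]
      exact abs_sub _ _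
    have h2 : |(r1 : ℝ) * ε⁻¹| ≤ |(r1 : ℝ)| := by
      rw [abs_mul, abs_of_pos hr0]
      exact mul_le_of_le_one_right (abs_nonneg _) hr1.le
    have h3 : 2 * H * ε ^ h ≤ ε * ((3 + ε ^ 2) * ε * H * ε ^ h) := by
      have h4 : 0 < H * ε ^ h := by positivity
      have h5 : 2 ≤ ε * ((3 + ε ^ 2) * ε) := by
        have h6 : 0 ≤ ε ^ 4 := by positivity
        have h7 : (1 : ℝ) ≤ ε ^ 2 := one_le_pow₀ hb.h1.le
        calc (2 : ℝ) ≤ 3 * 1 := by norm_num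
          _ ≤ 3 * ε ^ 2 := mul_le_mul_of_nonneg_left h7 (by norm_num)
          _ ≤ 3 * ε ^ 2 + ε ^ 4 := by linarith
          _ = _ := by ring
      calc 2 * H * ε ^ h = 2 * (H * ε ^ h) := by ring
        _ ≤ (ε * ((3 + ε ^ 2) * ε)) * (H * ε ^ h) := mul_le_mul_of_nonneg_right h5 h4.le
        _ = _ := by ring
    calc |(r0 : ℝ)| ≤ ε * ((3 + ε ^ 2) * ε * H * ε ^ h) + (3 + ε ^ 2) * ε * H * ε ^ h := by linarith
      _ = _ := by ring
  have hS12 : |(r0 : ℝ)| + |(r1 : ℝ)| ≤ C2 * H * ε ^ h := by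
    have h1 : (3 + ε ^ 2) * ε * H * ε ^ h ≤ (1 + ε) * (3 + ε ^ 2) * ε * H * ε ^ h := by
      have h4 : 0 < (3 + ε ^ 2) * ε * H * ε ^ h := by positivity
      calc (3 + ε ^ 2) * ε * H * ε ^ h = 1 * ((3 + ε ^ 2) * ε * H * ε ^ h) := by ring
        _ ≤ (1 + ε) * ((3 + ε ^ 2) * ε * H * ε ^ h) :=
            mul_le_mul_of_nonneg_right (by linarith) h4.le
        _ = _ := by ring
    calc |(r0 : ℝ)| + |(r1 : ℝ)| ≤ (1 + ε) * (3 + ε ^ 2) * ε * H * ε ^ h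
          + (1 + ε) * (3 + ε ^ 2) * ε * H * ε ^ h := by linarith
      _ = C2 * H * ε ^ h := by rw [hC2]; ring
  have hrne : (r0 : ℝ) + r1 * ε ≠ 0 := by
    intro h0
    rw [h0, mul_zero] at hv1
    rcases mul_eq_zero.mp hv1 with h1 | h1
    · exact hP0 h1
    · exact hfacne h1
  -- nonvanishing
  have hne : r0 * U t p + r1 * U t (p + 1) ≠ 0 := by
    intro h0
    have hdiv : U t (p + 1) ∣ r0 * U t p := ⟨-r1, by linarith⟩
    have hdiv2 : U t (p + 1) ∣ r0 := (U_coprime t p).symm.dvd_of_dvd_mul_right hdiv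
    have hUp : ε ^ p ≤ (U t (p + 1) : ℝ) := hb.U_lower p
    have hεp : 0 < ε ^ p := pow_pos hε p
    have hUpos : (0 : ℤ) < U t (p + 1) := by
      have : (0 : ℝ) < U t (p + 1) := by linarith
      exact_mod_cast this
    by_cases ha0 : r0 = 0
    · rw [ha0] at h0 hrne
      have hr1z : r1 = 0 := by
        rcases mul_eq_zero.mp (by linarith : r1 * U t (p + 1) = 0) with h | h
        · exact h
        · omega
      rw [hr1z] at hrne
      simp at hrne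
    · have h1 : U t (p + 1) ≤ |r0| := Int.le_of_dvd (abs_pos.mpr ha0) ((dvd_abs _ _).mpr hdiv2)
      have h2 : (U t (p + 1) : ℝ) ≤ C2 * H * ε ^ h := by
        have h3 : (U t (p + 1) : ℝ) ≤ ((|r0| : ℤ) : ℝ) := by exact_mod_cast h1
        push_cast at h3
        have h4 := abs_nonneg (r1 : ℝ)
        linarith
      have h3 : ε ^ p ≤ C2 * H * ε ^ h := le_trans hUp h2
      have h4 : ε ^ j0 ≤ C2 * H := by
        rw [hp, pow_add] at h3
        exact le_of_mul_le_mul_right h3 hεh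
      have h5 : (ε ^ j0) ^ 2 ≤ C2 ^ 2 * H ^ 6 := by
        calc (ε ^ j0) ^ 2 ≤ (C2 * H) ^ 2 := pow_le_pow_left₀ (pow_pos hε _).le h4 2
          _ = C2 ^ 2 * H ^ 2 := by ring
          _ ≤ C2 ^ 2 * H ^ 6 := by
              apply mul_le_mul_of_nonneg_left _ (by positivity)
              exact pow_le_pow_right₀ hH1 (by norm_num)
      have h6 : ε ^ n ≤ (ε ^ j0) ^ 2 * ε ^ 4 * ε⁻¹ := by
        have h7 : ε ^ n * ε ≤ (ε ^ j0) ^ 2 * ε ^ 4 := by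
          rw [← pow_succ, ← pow_mul, ← pow_add]
          exact pow_le_pow_right₀ hb.h1.le (by omega)
        calc ε ^ n = ε ^ n * ε * ε⁻¹ := by rw [mul_assoc, hm1, mul_one]
          _ ≤ _ := mul_le_mul_of_nonneg_right h7 hr0.le
      have h7 : (ε ^ j0) ^ 2 * ε ^ 4 * ε⁻¹ < (C2 ^ 2 * H ^ 6 * ε ^ 4) * 1 := by
        apply mul_lt_mul' _ hr1 hr0.le (by positivity)
        exact mul_le_mul_of_nonneg_right h5 (by positivity)
      have h8 : C2 ^ 2 * H ^ 6 * ε ^ 4 ≤ C2 ^ 2 * H ^ 6 * ε ^ (2 * ℓ) * ε ^ 4 := by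
        have h9 : (1 : ℝ) ≤ ε ^ (2 * ℓ) := one_le_pow₀ hb.h1.le
        have h10 : 0 < C2 ^ 2 * H ^ 6 * ε ^ 4 := by positivity
        calc C2 ^ 2 * H ^ 6 * ε ^ 4 = C2 ^ 2 * H ^ 6 * ε ^ 4 * 1 := by ring
          _ ≤ C2 ^ 2 * H ^ 6 * ε ^ 4 * ε ^ (2 * ℓ) := mul_le_mul_of_nonneg_left h9 h10.le
          _ = _ := by ring
      linarith
  -- closeness
  set e : ℤ → ℤ := act P (ext d) with he
  have hext := ext_bdd d B hB
  have heB : ∀ k, |(e k : ℝ)| ≤ H * B := act_bdd P (ext d) B hext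
  set δ : ℝ := 4 * (H * B) * (1 - ε⁻¹)⁻¹ * ε⁻¹ ^ ρ with hδ
  have hδ0 : 0 ≤ δ := by positivity
  have hcl : |gg ε e j0 - σ * gg ε e (j0 + w')| ≤ δ := by
    have h1 := gg_close hb (fun k => e ((2 * s + n - 1 : ℤ) - k)) (fun k => σ * e k) (H * B)
      (fun k => heB _) (by
        intro k; push_cast; rw [abs_mul, hσa, one_mul]; exact heB k) (j0 + w') ρ (by
        intro k h1 h2
        exact hmir k (by omega) (by omega))
    rw [gg_reflect hb e (H * B) heB, gg_smul] at h1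
    rw [show (2 * s + n - 1 : ℤ) - (j0 + w') = j0 by omega] at h1
    exact h1
  obtain ⟨z, hz⟩ := act_mod' hb (ext d) B hext h r0 r1 S Q hSQ j0
  have hact : act S (gg ε (ext d)) j0 = gg ε e j0 - σ * gg ε e (j0 + w') := by
    have e1 : S = P - monomial w' σ * P := by rw [hS]; ring
    rw [e1, act_sub, act_mul]
    show act P (gg ε (ext d)) j0 - act (monomial w' σ) (act P (gg ε (ext d))) j0 = _
    rw [act_monomial, zsmul_eq_mul, ← gg_act hb (ext d) B hext P, ← gg_act hb (ext d) B hext P]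
  have hκ : |(r0 : ℝ) * gg ε (ext d) p + r1 * gg ε (ext d) (p + 1) - (-z : ℤ)| ≤ δ := by
    have hpj : ((j0 : ℤ) + (h : ℤ)) = (p : ℤ) := by rw [hp]; push_cast; ring
    rw [hpj] at hz
    have e1 : (r0 : ℝ) * gg ε (ext d) p + r1 * gg ε (ext d) (p + 1) - (-z : ℤ)
        = gg ε e j0 - σ * gg ε e (j0 + w') := by
      rw [← hact, hz]; push_cast; ring
    rw [e1]; exact hcl
  obtain ⟨q, hq0, hqs, hqL⟩ := key hb α β A0 B0 c hc hα d B hB hβ p r0 r1 hne (2 * (C2 * H * ε ^ h))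
    (by have : 0 < C2 * H * ε ^ h := by positivity
        linarith) _ _ hκ
  have hh2 : 2 * h ≤ ℓ := by omega
  refine ⟨q, hq0, ?_, ?_⟩
  · -- size of q
    have h1 : C2 * H * ε ^ h * ε ^ (p + 1) ≤ C2 * ε ^ 4 * ε ^ (s + 2 * n) := by
      have h2 : H ≤ ε ^ n := by
        calc H ≤ H ^ 6 := by
              calc H = H ^ 1 := (pow_one _).symm
                _ ≤ H ^ 6 := pow_le_pow_right₀ hH1 (by norm_num)
          _ = 1 * (H ^ 6 * 1) := by ring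
          _ ≤ (C2 ^ 2 * ε ^ 4 + ε ^ 6) * (H ^ 6 * ε ^ (2 * ℓ)) := by
              have h3 : 1 ≤ ε ^ 6 := one_le_pow₀ hb.h1.le
              have h4 : 0 ≤ C2 ^ 2 * ε ^ 4 := by positivity
              have h5 : 1 ≤ ε ^ (2 * ℓ) := one_le_pow₀ hb.h1.le
              apply mul_le_mul (by linarith) _ (by positivity) (by positivity)
              exact mul_le_mul_of_nonneg_left h5 (by positivity)
          _ = (C2 ^ 2 * ε ^ 4 + ε ^ 6) * H ^ 6 * ε ^ (2 * ℓ) := by ring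
          _ ≤ ε ^ n := hle
      calc C2 * H * ε ^ h * ε ^ (p + 1) ≤ C2 * ε ^ n * ε ^ h * ε ^ (p + 1) := by gcongr
        _ = C2 * ε ^ (n + h + (p + 1)) := by rw [pow_add, pow_add]; ring
        _ ≤ C2 * ε ^ (4 + (s + 2 * n)) := by
            apply mul_le_mul_of_nonneg_left _ hC2pos.le
            exact pow_le_pow_right₀ hb.h1.le (by omega)
        _ = C2 * ε ^ 4 * ε ^ (s + 2 * n) := by rw [pow_add]; ring
    calc (q : ℝ) ≤ c * (2 * (C2 * H * ε ^ h)) * ε ^ (p + 1) := hqs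
      _ = 2 * c * (C2 * H * ε ^ h * ε ^ (p + 1)) := by ring
      _ ≤ 2 * c * (C2 * ε ^ 4 * ε ^ (s + 2 * n)) := mul_le_mul_of_nonneg_left h1 (by positivity)
      _ = (2 * c * C2 * ε ^ 4) * ε ^ (s + 2 * n) := by ring
      _ ≤ (C1 ^ 2 * ε ^ 6 + 2 * c * C2 * ε ^ 4) * ε ^ (s + 2 * n) := by
          apply mul_le_mul_of_nonneg_right _ (pow_pos hε _).le
          have : 0 ≤ C1 ^ 2 * ε ^ 6 := by positivity
          linarith
  · have hep : ε ^ h * ε⁻¹ ^ p ≤ ε⁻¹ ^ ρ := by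
      calc ε ^ h * ε⁻¹ ^ p ≤ ε ^ h * ε⁻¹ ^ (h + ρ) := by
            apply mul_le_mul_of_nonneg_left _ hεh.le
            exact pow_le_pow_of_le_one hr0.le hr1.le (by omega)
        _ = (ε ^ h * ε⁻¹ ^ h) * ε⁻¹ ^ ρ := by rw [pow_add]; ring
        _ = ε⁻¹ ^ ρ := by rw [hεhi, one_mul]
    have hL1 : L α β q ≤ C1 * H ^ 3 * ε ^ ℓ * ε⁻¹ ^ ρ := by
      calc L α β q ≤ c ^ 2 * |(B0 : ℝ)| * ε * (2 * (C2 * H * ε ^ h)) ^ 2
              * (δ + (2 * (C2 * H * ε ^ h)) * ε⁻¹ ^ p * |β|) := hqL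
        _ = c ^ 2 * |(B0 : ℝ)| * ε * (2 * C2) ^ 2 * H ^ 2 * ε ^ (2 * h)
              * (δ + 2 * C2 * H * (ε ^ h * ε⁻¹ ^ p) * |β|) := by rw [mul_comm 2 h, pow_mul]; ring
        _ ≤ c ^ 2 * |(B0 : ℝ)| * ε * (2 * C2) ^ 2 * H ^ 2 * ε ^ ℓ
              * (δ + 2 * C2 * H * ε⁻¹ ^ ρ * |β|) := by
            apply mul_le_mul
            · apply mul_le_mul_of_nonneg_left _ (by positivity)
              exact pow_le_pow_right₀ hb.h1.le hh2
            · have : 2 * C2 * H * (ε ^ h * ε⁻¹ ^ p) * |β| ≤ 2 * C2 * H * ε⁻¹ ^ ρ * |β| := by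
                apply mul_le_mul_of_nonneg_right _ (abs_nonneg _)
                exact mul_le_mul_of_nonneg_left hep (by positivity)
              linarith
            · positivity
            · positivity
        _ = C1 * H ^ 3 * ε ^ ℓ * ε⁻¹ ^ ρ := by rw [hδ, hC1]; ring
    have hL0 := L_nonneg α β q
    have hρn : (ε⁻¹ ^ ρ) ^ 2 ≤ ε ^ 6 * ε⁻¹ ^ n := by
      have h1 : ε⁻¹ ^ (2 * ρ + 6) ≤ ε⁻¹ ^ n :=
        pow_le_pow_of_le_one hr0.le hr1.le (by omega)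
      calc (ε⁻¹ ^ ρ) ^ 2 = (ε * ε⁻¹) ^ 6 * (ε⁻¹ ^ ρ) ^ 2 := by rw [hm1, one_pow, one_mul]
        _ = ε ^ 6 * ε⁻¹ ^ (2 * ρ + 6) := by rw [mul_pow]; ring
        _ ≤ ε ^ 6 * ε⁻¹ ^ n := mul_le_mul_of_nonneg_left h1 (by positivity)
    calc (L α β q) ^ 2 ≤ (C1 * H ^ 3 * ε ^ ℓ * ε⁻¹ ^ ρ) ^ 2 := pow_le_pow_left₀ hL0 hL1 2
      _ = C1 ^ 2 * H ^ 6 * ε ^ (2 * ℓ) * (ε⁻¹ ^ ρ) ^ 2 := by rw [mul_comm 2 ℓ, pow_mul]; ring
      _ ≤ C1 ^ 2 * H ^ 6 * ε ^ (2 * ℓ) * (ε ^ 6 * ε⁻¹ ^ n) :=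
          mul_le_mul_of_nonneg_left hρn (by positivity)
      _ = (C1 ^ 2 * ε ^ 6) * (H ^ 6 * ε ^ (2 * ℓ) * ε⁻¹ ^ n) := by ring
      _ ≤ (C1 ^ 2 * ε ^ 6 + 2 * c * C2 * ε ^ 4) * (H ^ 6 * ε ^ (2 * ℓ) * ε⁻¹ ^ n) := by
          apply mul_le_mul_of_nonneg_right _ (by positivity)
          have : 0 ≤ 2 * c * C2 * ε ^ 4 := by positivity
          linarith
      _ = _ := by ring

end base

end Q172.LwRec
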