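import Mathlib
import Pool.Agent.Q172.LwRec.Mirror

set_option autoImplicit false

/-!
Mirror symmetric images of the digits: descent to a nonzero value.
-/

open Polynomial Pool.H389R2.LC

namespace Q172.LwRec

section base
variable {t : ℤ} {ε : ℝ} (hb : Base t ε)
include hb

theorem mirror (α β : ℝ) (A0 B0 : ℤ) (c : ℕ) (hc : 0 < c) (hα : (c : ℝ) * α = A0 + B0 * ε)
    (d : ℕ → ℤ) (B : ℝ) (hB : ∀ k, |(d k : ℝ)| ≤ B)
    (hβ : β = ∑' k : ℕ, (d k : ℝ) * ε⁻¹ ^ k) :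
    ∃ C K0 : ℝ, 0 < C ∧ 0 < K0 ∧ ∀ (ℓ s : ℕ) (σ : ℤ), (σ = 1 ∨ σ = -1) →
      ∀ (m n : ℕ) (P : ℤ[X]), P.natDegree = m → P ≠ 0 → P.natDegree ≤ ℓ →
      K0 * (n1 P : ℝ) ^ 6 * ε ^ (2 * ℓ) ≤ ε ^ n →
      (∀ k : ℤ, s ≤ k → k < s + n →
        act P (ext d) (2 * s + n - 1 - k) = σ * act P (ext d) k) →
      ∃ q : ℕ, 0 < q ∧ (q : ℝ) ≤ C * ε ^ (s + 2 * n + 2 * m) ∧
        (L α β q) ^ 2 ≤ C * (n1 P : ℝ) ^ 6 * ε ^ (2 * ℓ) * ε⁻¹ ^ n := by
  have hε := hb.pos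
  have hr0 := hb.rpos
  have hr1 := hb.rlt
  have hm1 := hb.mul
  have hB0 : 0 ≤ B := le_trans (abs_nonneg _) (hB 0)
  have h1r : 0 < 1 - ε⁻¹ := by linarith
  have hinv : 0 < (1 - ε⁻¹)⁻¹ := inv_pos.mpr h1r
  have ht : (3 : ℝ) ≤ t := by exact_mod_cast hb.ht
  obtain ⟨C, K1, hC0, hK1, hC⟩ := mir_ne hb α β A0 B0 c hc hα d B hB hβ
  set Y : ℝ := 2 * (t + 2) * (2 * B) * (1 - ε⁻¹)⁻¹ with hY
  have hY0 : 0 ≤ Y := by positivity
  refine ⟨C, K1 + Y ^ 2 * ε + ε ^ 2, hC0, by positivity, ?_⟩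
  set K0 : ℝ := K1 + Y ^ 2 * ε + ε ^ 2 with hK0
  have hK0pos : 0 < K0 := by positivity
  have hK0ε : ε ^ 2 < K0 := by
    have : 0 ≤ Y ^ 2 * ε := by positivity
    linarith
  have hK0Y : Y ^ 2 * ε < K0 := by
    have : 0 < ε ^ 2 := by positivity
    linarith
  have hK01 : K1 ≤ K0 := by
    have h1 : 0 < ε ^ 2 := by positivity
    have h2 : 0 ≤ Y ^ 2 * ε := by positivity
    linarith
  have hext := ext_bdd d B hB
  intro ℓ s σ hσ m
  have hσa : |(σ : ℝ)| = 1 := by rcases hσ with h | h <;> rw [h] <;> simp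
  induction m using Nat.strong_induction_on with
  | _ m ih =>
    intro n P hPm hP0 hdeg hle hmir
    have hH1 : (1 : ℝ) ≤ n1 P := by
      have := one_le_n1 hP0
      exact_mod_cast this
    set H : ℝ := (n1 P : ℝ) with hH
    have hHh : 0 < H ^ 6 * ε ^ (2 * ℓ) := by positivity
    by_cases hval : aeval ε P = 0
    · -- descent
      obtain ⟨Q, hMQ⟩ := R_dvd hb P hval
      have hQ0 : Q ≠ 0 := by
        intro h0; rw [h0, mul_zero] at hMQ; exact hP0 hMQ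
      have hQdeg : Q.natDegree + 2 = m := by
        rw [← hPm, hMQ, natDegree_mul (R_monic t).ne_zero hQ0, R_natDegree]; ring
      have hnQ : (n1 Q : ℝ) ≤ H := by
        have := n1_div hb.ht hMQ
        rw [hH]; exact_mod_cast this
      have hnQ0 : (0 : ℝ) ≤ n1 Q := by exact_mod_cast n1_nonneg Q
      have hone : (1 : ℝ) ≤ ε ^ (2 * ℓ) := one_le_pow₀ hb.h1.le
      have hεn : ε ^ 2 < ε ^ n := by
        calc ε ^ 2 < K0 := hK0ε
          _ = K0 * 1 * 1 := by ring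
          _ ≤ K0 * H ^ 6 * ε ^ (2 * ℓ) := by
              have h3 : (1 : ℝ) ≤ H ^ 6 := one_le_pow₀ hH1
              gcongr
          _ ≤ ε ^ n := hle
      have hn2 : 2 < n := (pow_lt_pow_iff_right₀ hb.h1).mp hεn
      have hsmall : 2 * ((t + 2) * (2 * (n1 Q * B))) * (1 - ε⁻¹)⁻¹ * ε⁻¹ ^ (n / 2) < 1 := by
        have h1 : (Y * n1 Q) ^ 2 < (ε ^ (n / 2)) ^ 2 := by
          have h2 : (Y * n1 Q) ^ 2 * ε < ε ^ (2 * (n / 2)) * ε := by
            calc (Y * n1 Q) ^ 2 * ε = (Y ^ 2 * ε) * (n1 Q : ℝ) ^ 2 := by ring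
              _ ≤ (Y ^ 2 * ε) * H ^ 2 := by
                  apply mul_le_mul_of_nonneg_left _ (by positivity)
                  exact pow_le_pow_left₀ hnQ0 hnQ 2
              _ ≤ (Y ^ 2 * ε) * (H ^ 6 * ε ^ (2 * ℓ)) := by
                  apply mul_le_mul_of_nonneg_left _ (by positivity)
                  have h3 : H ^ 2 ≤ H ^ 6 := pow_le_pow_right₀ hH1 (by norm_num)
                  calc H ^ 2 ≤ H ^ 6 := h3
                    _ = H ^ 6 * 1 := (mul_one _).symm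
                    _ ≤ H ^ 6 * ε ^ (2 * ℓ) := mul_le_mul_of_nonneg_left hone (by positivity)
              _ < K0 * (H ^ 6 * ε ^ (2 * ℓ)) := mul_lt_mul_of_pos_right hK0Y hHh
              _ = K0 * H ^ 6 * ε ^ (2 * ℓ) := by ring
              _ ≤ ε ^ n := hle
              _ ≤ ε ^ (2 * (n / 2) + 1) := pow_le_pow_right₀ hb.h1.le (by omega)
              _ = ε ^ (2 * (n / 2)) * ε := pow_succ _ _
          have h3 := lt_of_mul_lt_mul_right h2 hε.le
          calc (Y * n1 Q) ^ 2 < ε ^ (2 * (n / 2)) := h3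
            _ = (ε ^ (n / 2)) ^ 2 := by rw [mul_comm 2, pow_mul]
        have h4 : Y * n1 Q < ε ^ (n / 2) := lt_of_pow_lt_pow_left₀ 2 (pow_pos hε _).le h1
        have h5 : Y * n1 Q * ε⁻¹ ^ (n / 2) < ε ^ (n / 2) * ε⁻¹ ^ (n / 2) :=
          mul_lt_mul_of_pos_right h4 (pow_pos hr0 _)
        rw [← mul_pow, hm1, one_pow] at h5
        calc 2 * ((t + 2) * (2 * (n1 Q * B))) * (1 - ε⁻¹)⁻¹ * ε⁻¹ ^ (n / 2)
            = Y * n1 Q * ε⁻¹ ^ (n / 2) := by rw [hY]; ring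
          _ < 1 := h5
      set w : ℤ → ℤ := act Q (ext d) with hw
      have hwB : ∀ k, |(w k : ℝ)| ≤ n1 Q * B := act_bdd Q (ext d) B hext
      have hPw : act P (ext d) = act (R t) w := by rw [hMQ, act_mul]
      have hz := zero_window hb (fun k => w (2 * s + n + 1 - k) - σ * w k) (2 * (n1 Q * B)) (by
          intro k
          push_cast
          calc |(w (2 * s + n + 1 - k) : ℝ) - σ * w k|
              ≤ |(w (2 * s + n + 1 - k) : ℝ)| + |(σ : ℝ) * w k| := abs_sub _ _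
            _ ≤ n1 Q * B + n1 Q * B := by
                apply add_le_add (hwB _)
                rw [abs_mul, hσa, one_mul]; exact hwB k
            _ = 2 * (n1 Q * B) := by ring) s n (n / 2) (by omega) (by omega) (by
          intro k h1 h2
          have h3 := hmir k h1 h2
          rw [hPw, act_R, act_R] at h3
          rw [act_R]
          simp only [smul_eq_mul] at h3 ⊢
          rw [show (2 * s + n - 1 - k + 2 : ℤ) = 2 * s + n + 1 - k by ring,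
            show (2 * s + n - 1 - k + 1 : ℤ) = 2 * s + n + 1 - (k + 1) by ring,
            show (2 * s + n - 1 - k : ℤ) = 2 * s + n + 1 - (k + 2) by ring] at h3
          linarith) hsmall
      have hcmp : (n1 Q : ℝ) ^ 6 * ε ^ (2 * ℓ) ≤ H ^ 6 * ε ^ (2 * ℓ) := by
        apply mul_le_mul_of_nonneg_right _ (pow_pos hε _).le
        exact pow_le_pow_left₀ hnQ0 hnQ 6
      obtain ⟨q, h1, h2, h3⟩ := ih Q.natDegree (by omega) (n + 2) Q rfl hQ0 (by omega) (by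
        calc K0 * (n1 Q : ℝ) ^ 6 * ε ^ (2 * ℓ) = K0 * ((n1 Q : ℝ) ^ 6 * ε ^ (2 * ℓ)) := by ring
          _ ≤ K0 * (H ^ 6 * ε ^ (2 * ℓ)) := mul_le_mul_of_nonneg_left hcmp hK0pos.le
          _ = K0 * H ^ 6 * ε ^ (2 * ℓ) := by ring
          _ ≤ ε ^ n := hle
          _ ≤ ε ^ (n + 2) := pow_le_pow_right₀ hb.h1.le (by omega)) (by
        intro k hk1 hk2
        have h4 := hz k hk1 hk2
        rw [show (2 * s + (n + 2 : ℕ) - 1 - k : ℤ) = 2 * s + n + 1 - k by push_cast; ring]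
        linarith)
      refine ⟨q, h1, ?_, ?_⟩
      · rw [show s + 2 * (n + 2) + 2 * Q.natDegree = s + 2 * n + 2 * m by omega] at h2
        exact h2
      · calc (L α β q) ^ 2 ≤ C * (n1 Q : ℝ) ^ 6 * ε ^ (2 * ℓ) * ε⁻¹ ^ (n + 2) := h3
          _ = C * ((n1 Q : ℝ) ^ 6 * ε ^ (2 * ℓ)) * ε⁻¹ ^ (n + 2) := by ring
          _ ≤ C * (H ^ 6 * ε ^ (2 * ℓ)) * ε⁻¹ ^ n := by
              apply mul_le_mul _ _ (pow_pos hr0 _).le (by positivity)
              · exact mul_le_mul_of_nonneg_left hcmp hC0.le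
              · exact pow_le_pow_of_le_one hr0.le hr1.le (by omega)
          _ = C * H ^ 6 * ε ^ (2 * ℓ) * ε⁻¹ ^ n := by ring
    · obtain ⟨q, h1, h2, h3⟩ := hC ℓ s n σ P hval hdeg hσ (by
        calc K1 * H ^ 6 * ε ^ (2 * ℓ) = K1 * (H ^ 6 * ε ^ (2 * ℓ)) := by ring
          _ ≤ K0 * (H ^ 6 * ε ^ (2 * ℓ)) := mul_le_mul_of_nonneg_right hK01 hHh.le
          _ = K0 * H ^ 6 * ε ^ (2 * ℓ) := by ring
          _ ≤ ε ^ n := hle) hmir
      refine ⟨q, h1, le_trans h2 ?_, h3⟩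
      apply mul_le_mul_of_nonneg_left _ hC0.le
      exact pow_le_pow_right₀ hb.h1.le (by omega)

end base

end Q172.LwRec
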