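import Mathlib
import Pool.Agent.Q172.LwRec.Core

set_option autoImplicit false

/-!
Reciprocal recurrences: descent to a nonzero value, odd degrees and antipalindromic polynomials.
-/

open Polynomial Pool.H389R2.LC

namespace Q172.LwRec

/-- a polynomial factor which makes a reciprocal polynomial palindromic of even degree -/
theorem to_even (ℓ : ℕ) (P : ℤ[X]) (hd : P.natDegree ≤ ℓ) (σ : ℤ) (hσ : σ = 1 ∨ σ = -1)
    (hP : reflect ℓ P = C σ * P) :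
    ∃ (F : ℤ[X]) (h : ℕ), F ≠ 0 ∧ n1 F ≤ 2 ∧ F.natDegree ≤ 2 ∧ 2 * h ≤ ℓ + 2 ∧ Pal h (F * P) := by
  -- general principle
  have gen : ∀ (F : ℤ[X]) (e h : ℕ), F.natDegree ≤ e → e + ℓ = 2 * h →
      reflect e F = C σ * F → Pal h (F * P) := by
    intro F e h hF heq hR
    have hσ2 : σ * σ = 1 := by rcases hσ with h | h <;> rw [h] <;> norm_num
    apply pal_of_reflect
    · have := natDegree_mul_le (p := F) (q := P)
      omega
    · rw [← heq, reflect_mul F P hF hd, hR, hP]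
      calc C σ * F * (C σ * P) = C (σ * σ) * (F * P) := by rw [C_mul]; ring
        _ = F * P := by rw [hσ2, C_1, one_mul]
  have hn1 : ∀ (i : ℕ) (a b : ℤ), n1 (monomial i a + monomial 0 b) ≤ |a| + |b| := by
    intro i a b
    have := n1_add (monomial i a) (monomial 0 b)
    rwa [n1_monomial, n1_monomial] at this
  have e1 : ∀ a : ℤ, (X : ℤ[X]) + C a = monomial 1 1 + monomial 0 a := by
    intro a
    rw [← C_mul_X_pow_eq_monomial, ← C_mul_X_pow_eq_monomial]; simp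
  have e2 : ∀ a : ℤ, (X : ℤ[X]) ^ 2 + C a = monomial 2 1 + monomial 0 a := by
    intro a
    rw [← C_mul_X_pow_eq_monomial, ← C_mul_X_pow_eq_monomial]; simp
  have hrefl1 : ∀ a : ℤ, a * a = 1 → reflect 1 ((X : ℤ[X]) + C a) = C a * (X + C a) := by
    intro a ha
    rw [e1]
    ext i
    rw [coeff_reflect, coeff_C_mul]
    rcases le_or_gt i 1 with hi | hi
    · rw [revAt_le hi]
      simp only [coeff_add, coeff_monomial]
      interval_cases i <;> simp [ha]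
    · rw [revAt_eq_self_of_lt hi]
      simp only [coeff_add, coeff_monomial]
      rw [if_neg (by omega), if_neg (by omega)]
      simp
  have hrefl2 : ∀ a : ℤ, a * a = 1 → reflect 2 ((X : ℤ[X]) ^ 2 + C a) = C a * (X ^ 2 + C a) := by
    intro a ha
    rw [e2]
    ext i
    rw [coeff_reflect, coeff_C_mul]
    rcases le_or_gt i 2 with hi | hi
    · rw [revAt_le hi]
      simp only [coeff_add, coeff_monomial]
      interval_cases i <;> simp [ha]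
    · rw [revAt_eq_self_of_lt hi]
      simp only [coeff_add, coeff_monomial]
      rw [if_neg (by omega), if_neg (by omega)]
      simp
  have hσσ : σ * σ = 1 := by rcases hσ with h | h <;> rw [h] <;> norm_num
  have hσa : |σ| = 1 := by rcases hσ with h | h <;> rw [h] <;> norm_num
  rcases Nat.even_or_odd' ℓ with ⟨g, hg | hg⟩
  · refine ⟨X ^ 2 + C σ, g + 1, ?_, ?_, ?_, by omega, gen _ 2 (g + 1) ?_ (by omega) ?_⟩
    · exact (monic_X_pow_add_C σ (by norm_num)).ne_zero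
    · rw [e2]; exact le_trans (hn1 2 1 σ) (by rw [hσa]; norm_num)
    · exact (natDegree_X_pow_add_C (n := 2) (r := σ)).le
    · exact (natDegree_X_pow_add_C (n := 2) (r := σ)).le
    · exact hrefl2 σ hσσ
  · refine ⟨X + C σ, g + 1, ?_, ?_, ?_, by omega, gen _ 1 (g + 1) ?_ (by omega) ?_⟩
    · exact (monic_X_add_C σ).ne_zero
    · rw [e1]; exact le_trans (hn1 1 1 σ) (by rw [hσa]; norm_num)
    · exact (natDegree_X_add_C σ).le.trans (by norm_num)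
    · exact (natDegree_X_add_C σ).le
    · exact hrefl1 σ hσσ

section base
variable {t : ℤ} {ε : ℝ} (hb : Base t ε)
include hb

/-- the palindromic case -/
theorem core (α β : ℝ) (A0 B0 : ℤ) (c : ℕ) (hc : 0 < c) (hα : (c : ℝ) * α = A0 + B0 * ε)
    (d : ℕ → ℤ) (B : ℝ) (hB : ∀ k, |(d k : ℝ)| ≤ B)
    (hβ : β = ∑' k : ℕ, (d k : ℝ) * ε⁻¹ ^ k) :
    ∃ C K0 : ℝ, 0 < C ∧ 0 < K0 ∧ ∀ (h s n : ℕ) (P : ℤ[X]), P ≠ 0 → Pal h P →
      K0 * (n1 P : ℝ) ^ 3 * ε ^ h ≤ ε ^ n →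
      (∀ k : ℤ, s ≤ k → k < s + n → act P (ext d) k = 0) →
      ∃ q : ℕ, 0 < q ∧ (q : ℝ) ≤ C * ε ^ (s + 2 * n + 4 * h) ∧
        (L α β q) ^ 2 ≤ C * (n1 P : ℝ) ^ 3 * ε ^ h * ε⁻¹ ^ n := by
  have hε := hb.pos
  have hr0 := hb.rpos
  have hr1 := hb.rlt
  have hm1 := hb.mul
  have h2ε := hb.two_lt
  have hB0 : 0 ≤ B := le_trans (abs_nonneg _) (hB 0)
  have h1r : 0 < 1 - ε⁻¹ := by linarith
  have hinv : 0 < (1 - ε⁻¹)⁻¹ := inv_pos.mpr h1r
  have ht : (3 : ℝ) ≤ t := by exact_mod_cast hb.ht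
  obtain ⟨C, hC0, hC⟩ := core_ne hb α β A0 B0 c hc hα d B hB hβ
  set Y : ℝ := 2 * (t + 2) * B * (1 - ε⁻¹)⁻¹ with hY
  have hY0 : 0 ≤ Y := by positivity
  refine ⟨C, Y ^ 2 * ε + ε ^ 2 + 1, hC0, by positivity, ?_⟩
  set K0 : ℝ := Y ^ 2 * ε + ε ^ 2 + 1 with hK0
  have hK0ε : ε ^ 2 < K0 := by
    have : 0 ≤ Y ^ 2 * ε := by positivity
    linarith
  have hK0Y : Y ^ 2 * ε < K0 := by
    have : 0 < ε ^ 2 := by positivity
    linarith
  have hext := ext_bdd d B hB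
  intro h
  induction h with
  | zero =>
    intro s n P hP0 hpal hle hrel
    obtain ⟨M, Q, hMQ⟩ := pal_mod t 0 P hpal
    have hM : M ≠ 0 := by
      intro hM0
      rw [hM0, C_0, zero_mul, zero_add] at hMQ
      have hQ0 : Q ≠ 0 := by
        intro h0; rw [h0, mul_zero] at hMQ; exact hP0 hMQ
      have h1 := hpal.1
      rw [hMQ, natDegree_mul (R_monic t).ne_zero hQ0, R_natDegree] at h1
      omega
    have hH1 : (1 : ℝ) ≤ n1 P := by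
      have := one_le_n1 hP0
      exact_mod_cast this
    obtain ⟨q, h1, h2, h3⟩ := hC 0 s n M P Q hM hpal.1 hMQ (by
      have h3 : 0 < (n1 P : ℝ) ^ 3 := by positivity
      have h4 : ε ^ 2 * (n1 P : ℝ) ^ 3 < K0 * (n1 P : ℝ) ^ 3 := mul_lt_mul_of_pos_right hK0ε h3
      calc (n1 P : ℝ) ^ 3 * ε ^ (0 + 2) = ε ^ 2 * (n1 P : ℝ) ^ 3 := by ring
        _ < K0 * (n1 P : ℝ) ^ 3 := h4
        _ = K0 * (n1 P : ℝ) ^ 3 * ε ^ 0 := by ring
        _ ≤ ε ^ n := hle) hrel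
    exact ⟨q, h1, by simpa using h2, h3⟩
  | succ h ih =>
    intro s n P hP0 hpal hle hrel
    have hH1 : (1 : ℝ) ≤ n1 P := by
      have := one_le_n1 hP0
      exact_mod_cast this
    set H : ℝ := (n1 P : ℝ) with hH
    have hHh : 0 < H ^ 3 * ε ^ (h + 1) := by positivity
    obtain ⟨M, Q, hMQ⟩ := pal_mod t (h + 1) P hpal
    by_cases hM : M = 0
    · -- descent
      rw [hM, C_0, zero_mul, zero_add] at hMQ
      have hQ0 : Q ≠ 0 := by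
        intro h0; rw [h0, mul_zero] at hMQ; exact hP0 hMQ
      have hpalQ := pal_div t hpal hMQ
      have hnQ : (n1 Q : ℝ) ≤ H := by
        have := n1_div hb.ht hMQ
        rw [hH]; exact_mod_cast this
      have hnQ0 : (0 : ℝ) ≤ n1 Q := by exact_mod_cast n1_nonneg Q
      have hone : (1 : ℝ) ≤ ε ^ (h + 1) := one_le_pow₀ hb.h1.le
      have hεn : ε ^ 2 < ε ^ n := by
        calc ε ^ 2 < K0 := hK0ε
          _ = K0 * 1 * 1 := by ring
          _ ≤ K0 * H ^ 3 * ε ^ (h + 1) := by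
              have h3 : (1 : ℝ) ≤ H ^ 3 := one_le_pow₀ hH1
              gcongr
          _ ≤ ε ^ n := hle
      have hn2 : 2 < n := (pow_lt_pow_iff_right₀ hb.h1).mp hεn
      have hsmall : 2 * ((t + 2) * (n1 Q * B)) * (1 - ε⁻¹)⁻¹ * ε⁻¹ ^ (n / 2) < 1 := by
        have h1 : (Y * n1 Q) ^ 2 < (ε ^ (n / 2)) ^ 2 := by
          have h2 : (Y * n1 Q) ^ 2 * ε < ε ^ (2 * (n / 2)) * ε := by
            calc (Y * n1 Q) ^ 2 * ε = (Y ^ 2 * ε) * (n1 Q : ℝ) ^ 2 := by ring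
              _ ≤ (Y ^ 2 * ε) * H ^ 2 := by
                  apply mul_le_mul_of_nonneg_left _ (by positivity)
                  exact pow_le_pow_left₀ hnQ0 hnQ 2
              _ ≤ (Y ^ 2 * ε) * (H ^ 3 * ε ^ (h + 1)) := by
                  apply mul_le_mul_of_nonneg_left _ (by positivity)
                  have h3 : H ^ 2 ≤ H ^ 3 := pow_le_pow_right₀ hH1 (by norm_num)
                  nlinarith [pow_pos (by linarith : 0 < H) 3]
              _ < K0 * (H ^ 3 * ε ^ (h + 1)) := mul_lt_mul_of_pos_right hK0Y hHh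
              _ = K0 * H ^ 3 * ε ^ (h + 1) := by ring
              _ ≤ ε ^ n := hle
              _ ≤ ε ^ (2 * (n / 2) + 1) := pow_le_pow_right₀ hb.h1.le (by omega)
              _ = ε ^ (2 * (n / 2)) * ε := pow_succ _ _
          have h3 := lt_of_mul_lt_mul_right h2 hε.le
          calc (Y * n1 Q) ^ 2 < ε ^ (2 * (n / 2)) := h3
            _ = (ε ^ (n / 2)) ^ 2 := by rw [mul_comm 2, pow_mul]
        have h4 : Y * n1 Q < ε ^ (n / 2) := lt_of_pow_lt_pow_left₀ 2 (pow_pos hε _).le h1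
        have h5 : Y * n1 Q * ε⁻¹ ^ (n / 2) < ε ^ (n / 2) * ε⁻¹ ^ (n / 2) :=
          mul_lt_mul_of_pos_right h4 (pow_pos hr0 _)
        rw [← mul_pow, hm1, one_pow] at h5
        calc 2 * ((t + 2) * (n1 Q * B)) * (1 - ε⁻¹)⁻¹ * ε⁻¹ ^ (n / 2)
            = Y * n1 Q * ε⁻¹ ^ (n / 2) := by rw [hY]; ring
          _ < 1 := h5
      have hrelQ := descent hb (ext d) B hext P Q hMQ s n (n / 2) (by omega) (by omega) hrel hsmall
      have hcmp : (n1 Q : ℝ) ^ 3 * ε ^ h ≤ H ^ 3 * ε ^ (h + 1) := by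
        have h1 : (n1 Q : ℝ) ^ 3 ≤ H ^ 3 := pow_le_pow_left₀ hnQ0 hnQ 3
        have h2 : ε ^ h ≤ ε ^ (h + 1) := pow_le_pow_right₀ hb.h1.le (by omega)
        exact mul_le_mul h1 h2 (pow_pos hε _).le (by positivity)
      obtain ⟨q, h1, h2, h3⟩ := ih s (n + 2) Q hQ0 hpalQ (by
        calc K0 * (n1 Q : ℝ) ^ 3 * ε ^ h = K0 * ((n1 Q : ℝ) ^ 3 * ε ^ h) := by ring
          _ ≤ K0 * (H ^ 3 * ε ^ (h + 1)) := by
              apply mul_le_mul_of_nonneg_left hcmp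
              positivity
          _ = K0 * H ^ 3 * ε ^ (h + 1) := by ring
          _ ≤ ε ^ n := hle
          _ ≤ ε ^ (n + 2) := pow_le_pow_right₀ hb.h1.le (by omega)) (by
        intro k hk1 hk2
        exact hrelQ k hk1 hk2)
      refine ⟨q, h1, ?_, ?_⟩
      · rw [show s + 2 * (n + 2) + 4 * h = s + 2 * n + 4 * (h + 1) by ring] at h2
        exact h2
      · calc (L α β q) ^ 2 ≤ C * (n1 Q : ℝ) ^ 3 * ε ^ h * ε⁻¹ ^ (n + 2) := h3
          _ = C * ((n1 Q : ℝ) ^ 3 * ε ^ h) * ε⁻¹ ^ (n + 2) := by ring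
          _ ≤ C * (H ^ 3 * ε ^ (h + 1)) * ε⁻¹ ^ n := by
              apply mul_le_mul _ _ (pow_pos hr0 _).le (by positivity)
              · exact mul_le_mul_of_nonneg_left hcmp hC0.le
              · exact pow_le_pow_of_le_one hr0.le hr1.le (by omega)
          _ = C * H ^ 3 * ε ^ (h + 1) * ε⁻¹ ^ n := by ring
    · obtain ⟨q, h1, h2, h3⟩ := hC (h + 1) s n M P Q hM hpal.1 hMQ (by
        have h4 : ε ^ 2 * (H ^ 3 * ε ^ (h + 1)) < K0 * (H ^ 3 * ε ^ (h + 1)) :=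
          mul_lt_mul_of_pos_right hK0ε hHh
        calc H ^ 3 * ε ^ (h + 1 + 2) = ε ^ 2 * (H ^ 3 * ε ^ (h + 1)) := by ring
          _ < K0 * (H ^ 3 * ε ^ (h + 1)) := h4
          _ = K0 * H ^ 3 * ε ^ (h + 1) := by ring
          _ ≤ ε ^ n := hle) hrel
      refine ⟨q, h1, le_trans h2 ?_, h3⟩
      apply mul_le_mul_of_nonneg_left _ hC0.le
      exact pow_le_pow_right₀ hb.h1.le (by omega)

/-- the general reciprocal case -/
theorem recip (α β : ℝ) (A0 B0 : ℤ) (c : ℕ) (hc : 0 < c) (hα : (c : ℝ) * α = A0 + B0 * ε)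
    (d : ℕ → ℤ) (B : ℝ) (hB : ∀ k, |(d k : ℝ)| ≤ B)
    (hβ : β = ∑' k : ℕ, (d k : ℝ) * ε⁻¹ ^ k) :
    ∃ C K0 : ℝ, 0 < C ∧ 0 < K0 ∧ ∀ (ℓ s n : ℕ) (σ : ℤ) (P : ℤ[X]), P ≠ 0 → P.natDegree ≤ ℓ →
      (σ = 1 ∨ σ = -1) → reflect ℓ P = Polynomial.C σ * P →
      K0 * (n1 P : ℝ) ^ 6 * ε ^ ℓ ≤ ε ^ (2 * n) →
      (∀ k : ℤ, s ≤ k → k < s + n → act P (ext d) k = 0) →
      ∃ q : ℕ, 0 < q ∧ (q : ℝ) ≤ C * ε ^ (s + 6 * n) ∧
        (L α β q) ^ 4 ≤ C * (n1 P : ℝ) ^ 6 * ε ^ ℓ * ε⁻¹ ^ (2 * n) := by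
  have hε := hb.pos
  have hr0 := hb.rpos
  have hr1 := hb.rlt
  have hm1 := hb.mul
  obtain ⟨C, K0, hC0, hK00, hC⟩ := core hb α β A0 B0 c hc hα d B hB hβ
  refine ⟨C * ε ^ 4 + C ^ 2 * 64 * ε ^ 6, 64 * K0 ^ 2 * ε ^ 6 + ε ^ 4, by positivity, by positivity, ?_⟩
  intro ℓ s n σ P hP0 hd hσ hrefl hle hrel
  obtain ⟨F, h, hF0, hFn, hFd, hh, hpal⟩ := to_even ℓ P hd σ hσ hrefl
  have hH1 : (1 : ℝ) ≤ n1 P := by
    have := one_le_n1 hP0
    exact_mod_cast this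
  set H : ℝ := (n1 P : ℝ) with hH
  have hH6 : 1 ≤ H ^ 6 := one_le_pow₀ hH1
  have hHℓ : 0 < H ^ 6 * ε ^ ℓ := by positivity
  have hε4 : ε ^ 4 * ε ^ ℓ ≤ ε ^ (2 * n) := by
    calc ε ^ 4 * ε ^ ℓ = ε ^ 4 * (1 * ε ^ ℓ) := by ring
      _ ≤ ε ^ 4 * (H ^ 6 * ε ^ ℓ) := by gcongr
      _ ≤ (64 * K0 ^ 2 * ε ^ 6 + ε ^ 4) * (H ^ 6 * ε ^ ℓ) := by
          apply mul_le_mul_of_nonneg_right _ hHℓ.le
          have : 0 ≤ 64 * K0 ^ 2 * ε ^ 6 := by positivity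
          linarith
      _ = (64 * K0 ^ 2 * ε ^ 6 + ε ^ 4) * H ^ 6 * ε ^ ℓ := by ring
      _ ≤ ε ^ (2 * n) := hle
  have hℓn : ℓ + 4 ≤ 2 * n := by
    rw [← pow_add] at hε4
    have := (pow_le_pow_iff_right₀ hb.h1).mp hε4
    omega
  obtain ⟨m, hm⟩ : ∃ m : ℕ, n = m + 2 := ⟨n - 2, by omega⟩
  have hFP0 : F * P ≠ 0 := mul_ne_zero hF0 hP0
  have hn1FP : (n1 (F * P) : ℝ) ≤ 2 * H := by
    have h1 := n1_mul F P
    have h2 := n1_nonneg P
    have h3 : n1 F * n1 P ≤ 2 * n1 P := mul_le_mul_of_nonneg_right hFn h2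
    have h4 : n1 (F * P) ≤ 2 * n1 P := le_trans h1 h3
    rw [hH]; exact_mod_cast h4
  have hn1FP0 : (0 : ℝ) ≤ n1 (F * P) := by exact_mod_cast n1_nonneg (F * P)
  have hsq : ((n1 (F * P) : ℝ) ^ 3 * ε ^ h) ^ 2 ≤ 64 * ε ^ 2 * (H ^ 6 * ε ^ ℓ) := by
    calc ((n1 (F * P) : ℝ) ^ 3 * ε ^ h) ^ 2 = (n1 (F * P) : ℝ) ^ 6 * ε ^ (2 * h) := by
          rw [mul_pow, ← pow_mul, ← pow_mul]; ring_nf
      _ ≤ (2 * H) ^ 6 * ε ^ (ℓ + 2) := by
          apply mul_le_mul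
          · exact pow_le_pow_left₀ hn1FP0 hn1FP 6
          · exact pow_le_pow_right₀ hb.h1.le hh
          · positivity
          · positivity
      _ = 64 * ε ^ 2 * (H ^ 6 * ε ^ ℓ) := by ring
  obtain ⟨q, h1, h2, h3⟩ := hC h s m (F * P) hFP0 hpal (by
    have h4 : (K0 * (n1 (F * P) : ℝ) ^ 3 * ε ^ h) ^ 2 ≤ (ε ^ m) ^ 2 := by
      have h5 : (K0 * (n1 (F * P) : ℝ) ^ 3 * ε ^ h) ^ 2 * ε ^ 4 ≤ (ε ^ m) ^ 2 * ε ^ 4 := by
        calc (K0 * (n1 (F * P) : ℝ) ^ 3 * ε ^ h) ^ 2 * ε ^ 4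
            = K0 ^ 2 * ((n1 (F * P) : ℝ) ^ 3 * ε ^ h) ^ 2 * ε ^ 4 := by ring
          _ ≤ K0 ^ 2 * (64 * ε ^ 2 * (H ^ 6 * ε ^ ℓ)) * ε ^ 4 := by
              apply mul_le_mul_of_nonneg_right _ (by positivity)
              exact mul_le_mul_of_nonneg_left hsq (by positivity)
          _ = (64 * K0 ^ 2 * ε ^ 6) * (H ^ 6 * ε ^ ℓ) := by ring
          _ ≤ (64 * K0 ^ 2 * ε ^ 6 + ε ^ 4) * (H ^ 6 * ε ^ ℓ) := by
              apply mul_le_mul_of_nonneg_right _ hHℓ.le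
              have : 0 ≤ ε ^ 4 := by positivity
              linarith
          _ = (64 * K0 ^ 2 * ε ^ 6 + ε ^ 4) * H ^ 6 * ε ^ ℓ := by ring
          _ ≤ ε ^ (2 * n) := hle
          _ = (ε ^ m) ^ 2 * ε ^ 4 := by rw [hm, ← pow_mul, ← pow_add]; ring_nf
      exact le_of_mul_le_mul_right h5 (by positivity)
    exact le_of_sq_le_sq h4 (pow_pos hε _).le) (by
    intro k hk1 hk2
    rw [act_mul]
    apply act_eq_zero F 2 hFd
    intro i hi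
    exact hrel _ (by omega) (by omega))
  refine ⟨q, h1, ?_, ?_⟩
  · calc (q : ℝ) ≤ C * ε ^ (s + 2 * m + 4 * h) := h2
      _ ≤ C * ε ^ (4 + (s + 6 * n)) := by
          apply mul_le_mul_of_nonneg_left _ hC0.le
          exact pow_le_pow_right₀ hb.h1.le (by omega)
      _ = C * ε ^ 4 * ε ^ (s + 6 * n) := by rw [pow_add]; ring
      _ ≤ (C * ε ^ 4 + C ^ 2 * 64 * ε ^ 6) * ε ^ (s + 6 * n) := by
          apply mul_le_mul_of_nonneg_right _ (pow_pos hε _).le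
          have : 0 ≤ C ^ 2 * 64 * ε ^ 6 := by positivity
          linarith
  · have h4 : (ε⁻¹ ^ m) ^ 2 = ε ^ 4 * ε⁻¹ ^ (2 * n) := by
      calc (ε⁻¹ ^ m) ^ 2 = (ε * ε⁻¹) ^ 4 * (ε⁻¹ ^ m) ^ 2 := by rw [hm1, one_pow, one_mul]
        _ = ε ^ 4 * ε⁻¹ ^ (2 * n) := by
            rw [hm, mul_pow, ← pow_mul, mul_assoc, ← pow_add]; ring_nf
    calc (L α β q) ^ 4 = ((L α β q) ^ 2) ^ 2 := by ring
      _ ≤ (C * (n1 (F * P) : ℝ) ^ 3 * ε ^ h * ε⁻¹ ^ m) ^ 2 :=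
          pow_le_pow_left₀ (sq_nonneg _) h3 2
      _ = C ^ 2 * ((n1 (F * P) : ℝ) ^ 3 * ε ^ h) ^ 2 * (ε⁻¹ ^ m) ^ 2 := by ring
      _ ≤ C ^ 2 * (64 * ε ^ 2 * (H ^ 6 * ε ^ ℓ)) * (ε⁻¹ ^ m) ^ 2 := by
          apply mul_le_mul_of_nonneg_right _ (by positivity)
          exact mul_le_mul_of_nonneg_left hsq (by positivity)
      _ = (C ^ 2 * 64 * ε ^ 6) * H ^ 6 * ε ^ ℓ * ε⁻¹ ^ (2 * n) := by rw [h4]; ring
      _ ≤ (C * ε ^ 4 + C ^ 2 * 64 * ε ^ 6) * H ^ 6 * ε ^ ℓ * ε⁻¹ ^ (2 * n) := by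
          apply mul_le_mul_of_nonneg_right _ (by positivity)
          apply mul_le_mul_of_nonneg_right _ (by positivity)
          apply mul_le_mul_of_nonneg_right _ (by positivity)
          have : 0 ≤ C * ε ^ 4 := by positivity
          linarith

end base

end Q172.LwRec
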