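import Mathlib
import Pool.Agent.Q172.LwRec.Main
import Pool.Agent.H389R2.LC.Rep

set_option autoImplicit false

/-!
From quantitative statements to Littlewood's conjecture and to a power saving.
-/

open Polynomial Pool.H389R2.LC

namespace Q172.LwRec

theorem to_LC (α β C : ℝ) (hC : 0 < C)
    (h : ∀ K : ℝ, 0 < K → ∃ q : ℕ, 0 < q ∧ (L α β q) ^ 4 * K ≤ C) :
    ∀ η : ℝ, 0 < η → ∀ N : ℕ, ∃ q : ℕ, N ≤ q ∧ 0 < q ∧ L α β q < η := by
  apply liminf_of_inf
  intro η hη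
  obtain ⟨q, hq0, hq⟩ := h (2 * C / η ^ 4) (by positivity)
  refine ⟨q, hq0, ?_⟩
  have h3 : (L α β q) ^ 4 < η ^ 4 := by
    have h4 : 0 < 2 * C / η ^ 4 := by positivity
    by_contra hcon
    push Not at hcon
    have h5 : η ^ 4 * (2 * C / η ^ 4) ≤ (L α β q) ^ 4 * (2 * C / η ^ 4) :=
      mul_le_mul_of_nonneg_right hcon h4.le
    have h6 : η ^ 4 * (2 * C / η ^ 4) = 2 * C := by field_simp
    linarith
  exact lt_of_pow_lt_pow_left₀ 4 hη.le h3

section base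
variable {t : ℤ} {ε : ℝ} (hb : Base t ε)
include hb

theorem to_rate (α β C κ : ℝ) (_hC : 0 < C) (hκ : 0 < κ)
    (h : ∀ K : ℝ, ∃ (T : ℝ) (q : ℕ), K ≤ T ∧ 0 < q ∧ (q : ℝ) ≤ C * ε ^ (6 * T) ∧
      (L α β q) ^ 4 ≤ C * ε⁻¹ ^ (κ * T)) :
    ∃ η : ℝ, 0 < η ∧ ∀ N : ℕ, ∃ q : ℕ, N ≤ q ∧ 0 < q ∧ (q : ℝ) ^ η * L α β q < 1 := by
  have hε := hb.pos
  have hr0 := hb.rpos
  refine ⟨κ / 48, by positivity, ?_⟩
  set η : ℝ := κ / 48 with hη
  apply exists_large
  · intro q _ h0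
    rw [h0, mul_zero]; exact one_pos
  · intro θ hθ
    set C' : ℝ := max C 1 with hC'
    have hC'1 : 1 ≤ C' := le_max_right _ _
    have hC'0 : 0 < C' := by linarith
    have hCC' : C ≤ C' := le_max_left _ _
    have hx1 : ε⁻¹ ^ (κ / 2) < 1 := Real.rpow_lt_one hr0.le hb.rlt (by positivity)
    have hx0 : 0 < ε⁻¹ ^ (κ / 2) := Real.rpow_pos_of_pos hr0 _
    obtain ⟨K0, hK0⟩ := exists_pow_small hx0 hx1 (C' ^ (1 + 4 * η)) (min (θ ^ 4) 1) (by positivity)
    obtain ⟨T, q, hTK, hq0, hqs, hqL⟩ := h K0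
    have hq0r : (0 : ℝ) < q := by exact_mod_cast hq0
    have hL0 := L_nonneg α β q
    have hT0 : 0 ≤ T := le_trans (Nat.cast_nonneg K0) hTK
    have hqs' : (q : ℝ) ≤ C' * ε ^ (6 * T) :=
      le_trans hqs (mul_le_mul_of_nonneg_right hCC' (Real.rpow_pos_of_pos hε _).le)
    have hL4 : (L α β q) ^ 4 ≤ C' * ε⁻¹ ^ (κ * T) :=
      le_trans hqL (mul_le_mul_of_nonneg_right hCC' (Real.rpow_pos_of_pos hr0 _).le)
    have hdecay : C' ^ (1 + 4 * η) * ε⁻¹ ^ (κ * T / 2) < min (θ ^ 4) 1 := by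
      have h5 : ε⁻¹ ^ (κ * T / 2) ≤ (ε⁻¹ ^ (κ / 2)) ^ K0 := by
        rw [← Real.rpow_natCast, ← Real.rpow_mul hr0.le]
        apply Real.rpow_le_rpow_of_exponent_ge hr0 hb.rlt.le
        have : κ / 2 * K0 ≤ κ / 2 * T := mul_le_mul_of_nonneg_left hTK (by positivity)
        linarith
      calc C' ^ (1 + 4 * η) * ε⁻¹ ^ (κ * T / 2) ≤ C' ^ (1 + 4 * η) * (ε⁻¹ ^ (κ / 2)) ^ K0 :=
            mul_le_mul_of_nonneg_left h5 (Real.rpow_pos_of_pos hC'0 _).le
        _ < _ := hK0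
    have hη0 : 0 < η := by positivity
    refine ⟨q, hq0, ?_, ?_⟩
    · have h6 : (L α β q) ^ 4 < θ ^ 4 := by
        calc (L α β q) ^ 4 ≤ C' * ε⁻¹ ^ (κ * T) := hL4
          _ ≤ C' ^ (1 + 4 * η) * ε⁻¹ ^ (κ * T / 2) := by
              apply mul_le_mul _ _ (Real.rpow_pos_of_pos hr0 _).le
                (Real.rpow_pos_of_pos hC'0 _).le
              · calc C' = C' ^ (1 : ℝ) := (Real.rpow_one _).symm
                  _ ≤ C' ^ (1 + 4 * η) :=
                    Real.rpow_le_rpow_of_exponent_le hC'1 (by linarith)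
              · apply Real.rpow_le_rpow_of_exponent_ge hr0 hb.rlt.le
                have : 0 ≤ κ * T := by positivity
                linarith
          _ < min (θ ^ 4) 1 := hdecay
          _ ≤ θ ^ 4 := min_le_left _ _
      exact lt_of_pow_lt_pow_left₀ 4 hθ.le h6
    · have h7 : ((q : ℝ) ^ η * L α β q) ^ 4 < 1 ^ 4 := by
        rw [mul_pow, one_pow]
        have h8 : ((q : ℝ) ^ η) ^ 4 ≤ C' ^ (4 * η) * ε ^ (κ * T / 2) := by
          have h9 : ((q : ℝ) ^ η) ^ 4 = (q : ℝ) ^ (4 * η) := by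
            rw [← Real.rpow_natCast, ← Real.rpow_mul hq0r.le]
            congr 1
            push_cast; ring
          rw [h9]
          calc (q : ℝ) ^ (4 * η) ≤ (C' * ε ^ (6 * T)) ^ (4 * η) :=
                Real.rpow_le_rpow hq0r.le hqs' (by positivity)
            _ = C' ^ (4 * η) * (ε ^ (6 * T)) ^ (4 * η) :=
                Real.mul_rpow hC'0.le (Real.rpow_pos_of_pos hε _).le
            _ = C' ^ (4 * η) * ε ^ (κ * T / 2) := by
                rw [← Real.rpow_mul hε.le]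
                congr 2
                rw [hη]; ring
        calc ((q : ℝ) ^ η) ^ 4 * (L α β q) ^ 4
            ≤ (C' ^ (4 * η) * ε ^ (κ * T / 2)) * (C' * ε⁻¹ ^ (κ * T)) :=
              mul_le_mul h8 hL4 (by positivity) (mul_pos (Real.rpow_pos_of_pos hC'0 _)
                (Real.rpow_pos_of_pos hε _)).le
          _ = C' ^ (1 + 4 * η) * ε⁻¹ ^ (κ * T / 2) := by
              rw [Real.rpow_add hC'0, Real.rpow_one, Real.inv_rpow hε.le, Real.inv_rpow hε.le,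
                ← Real.rpow_neg hε.le, ← Real.rpow_neg hε.le]
              have : ε ^ (κ * T / 2) * ε ^ (-(κ * T)) = ε ^ (-(κ * T / 2)) := by
                rw [← Real.rpow_add hε]; congr 1; ring
              calc C' ^ (4 * η) * ε ^ (κ * T / 2) * (C' * ε ^ (-(κ * T)))
                  = C' * C' ^ (4 * η) * (ε ^ (κ * T / 2) * ε ^ (-(κ * T))) := by ring
                _ = C' * C' ^ (4 * η) * ε ^ (-(κ * T / 2)) := by rw [this]
          _ < min (θ ^ 4) 1 := hdecay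
          _ ≤ 1 := min_le_right _ _
      exact lt_of_pow_lt_pow_left₀ 4 zero_le_one h7

/-- the hypothesis in logarithmic form -/
theorem log_form {H x y : ℝ} (hH : 1 ≤ H) {m : ℕ} (h : x + 6 * Real.logb ε H + y ≤ m) :
    H ^ 6 * ε ^ x * ε ^ y ≤ ε ^ m := by
  have hε := hb.pos
  have h1 : ε ^ (6 * Real.logb ε H) = H ^ 6 := by
    rw [mul_comm, Real.rpow_mul hε.le, Real.rpow_logb hε (ne_of_gt hb.h1) (by linarith)]
    norm_cast
  calc H ^ 6 * ε ^ x * ε ^ y = ε ^ (x + 6 * Real.logb ε H + y) := by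
        rw [Real.rpow_add hε, Real.rpow_add hε, h1]; ring
    _ ≤ ε ^ (m : ℝ) := Real.rpow_le_rpow_of_exponent_le hb.h1.le h
    _ = ε ^ m := Real.rpow_natCast _ _

end base

end Q172.LwRec
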