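import Mathlib
import Pool.Agent.Q172.LwRec.Rate

set_option autoImplicit false

/-!
Siegel's lemma with the rank in place of the number of equations, and matrices of digits of
small rank.
-/

open Polynomial Pool.H389R2.LC

attribute [local instance] Matrix.seminormedAddCommGroup

namespace Q172.LwRec

theorem siegel_rank {n N : ℕ} (A : Matrix (Fin n) (Fin (N + 1)) ℤ) (b : ℕ) (hb1 : 1 ≤ b)
    (hb : ∀ i j, |A i j| ≤ b) (r : ℕ) (hr : (A.map (Int.cast : ℤ → ℚ)).rank = r)
    (hrN : r < N + 1) :
    ∃ v : Fin (N + 1) → ℤ, v ≠ 0 ∧ A.mulVec v = 0 ∧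
      ∀ i, |(v i : ℝ)| ≤ (((N : ℝ) + 1) * b) ^ ((r : ℝ) / (N + 1 - r)) := by
  classical
  set A' : Matrix (Fin n) (Fin (N + 1)) ℚ := A.map (Int.cast : ℤ → ℚ) with hA'
  obtain ⟨κ, a, hinj, hspan, hli⟩ := exists_linearIndependent' ℚ A'.row
  have : Finite κ := Finite.of_injective a hinj
  have : Fintype κ := Fintype.ofFinite κ
  have hcard : Fintype.card κ = r := by
    rw [← finrank_span_eq_card hli, hspan, ← Matrix.rank_eq_finrank_span_row, hr]
  -- passing from the selected rows to all rows
  have hall : ∀ t : Fin (N + 1) → ℤ, (A.submatrix a id).mulVec t = 0 → A.mulVec t = 0 := by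
    intro t ht
    let φ : (Fin (N + 1) → ℚ) →ₗ[ℚ] ℚ :=
      { toFun := fun x => ∑ j, x j * (t j : ℚ)
        map_add' := by
          intro x y
          rw [← Finset.sum_add_distrib]
          apply Finset.sum_congr rfl
          intro j _
          rw [Pi.add_apply]; ring
        map_smul' := by
          intro c x
          rw [RingHom.id_apply, smul_eq_mul, Finset.mul_sum]
          apply Finset.sum_congr rfl
          intro j _
          rw [Pi.smul_apply, smul_eq_mul]; ring }
    have hφ : ∀ i, φ (A'.row i) = ((A.mulVec t i : ℤ) : ℚ) := by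
      intro i
      show ∑ j, A' i j * (t j : ℚ) = ((∑ j, A i j * t j : ℤ) : ℚ)
      push_cast
      rfl
    have hker : Submodule.span ℚ (Set.range A'.row) ≤ LinearMap.ker φ := by
      rw [← hspan, Submodule.span_le]
      rintro _ ⟨k, rfl⟩
      show φ (A'.row (a k)) = 0
      rw [hφ]
      have : A.mulVec t (a k) = 0 := congrFun ht k
      rw [this]; simp
    funext i
    have h1 : φ (A'.row i) = 0 := hker (Submodule.subset_span ⟨i, rfl⟩)
    rw [hφ] at h1
    have h2 : A.mulVec t i = 0 := by exact_mod_cast h1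
    rw [h2]; rfl
  rcases Nat.eq_zero_or_pos r with h0 | h0
  · subst h0
    have : IsEmpty κ := Fintype.card_eq_zero_iff.mp hcard
    refine ⟨fun i => if i = 0 then 1 else 0, ?_, ?_, ?_⟩
    · intro h
      have := congrFun h 0
      simp at this
    · apply hall
      funext k
      exact this.elim k
    · intro i
      have h1 : ((0 : ℕ) : ℝ) / (N + 1 - ((0 : ℕ) : ℝ)) = 0 := by simp
      rw [h1, Real.rpow_zero]
      by_cases hi : i = 0 <;> simp [hi]
  · obtain ⟨v, hv0, hv, hvn⟩ := Int.Matrix.exists_ne_zero_int_vec_norm_le (A.submatrix a id)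
      (by rw [hcard, Fintype.card_fin]; exact hrN) (by rw [hcard]; exact h0)
    refine ⟨v, hv0, hall v hv, fun i => ?_⟩
    have hMn : ‖A.submatrix a id‖ ≤ b := by
      rw [Matrix.norm_le_iff (Nat.cast_nonneg b)]
      intro k j
      rw [Int.norm_eq_abs]
      have := hb (a k) j
      have h2 : ((|A (a k) j| : ℤ) : ℝ) ≤ ((b : ℤ) : ℝ) := by exact_mod_cast this
      push_cast at h2
      exact h2
    have hb1' : (1 : ℝ) ≤ b := by exact_mod_cast hb1
    have h1 : |(v i : ℝ)| ≤ ‖v‖ := by
      rw [← Int.norm_eq_abs]; exact norm_le_pi_norm v i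
    refine le_trans h1 (le_trans hvn ?_)
    rw [hcard, Fintype.card_fin]
    push_cast
    apply Real.rpow_le_rpow (by positivity)
    · apply mul_le_mul_of_nonneg_left (max_le hb1' hMn) (by positivity)
    · apply div_nonneg (Nat.cast_nonneg r)
      have : (r : ℝ) < N + 1 := by exact_mod_cast hrN
      linarith

/-- the symmetrised Hankel matrix of the digits -/
def sH (d : ℕ → ℤ) (s n N : ℕ) : Matrix (Fin n) (Fin (N + 1)) ℤ :=
  fun k i => d (s + k + (N - i)) + d (s + k + (N + i))

/-- a kernel vector gives a palindromic recurrence -/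
theorem rec_of_kernel (d : ℕ → ℤ) (s n N : ℕ) (v : Fin (N + 1) → ℤ) (hv : v ≠ 0)
    (h : (sH d s n N).mulVec v = 0) (X0 : ℝ) (hX : ∀ i, |(v i : ℝ)| ≤ X0) :
    ∃ P : ℤ[X], P ≠ 0 ∧ P.natDegree ≤ 2 * N ∧ reflect (2 * N) P = Polynomial.C 1 * P ∧
      (n1 P : ℝ) ≤ 2 * (N + 1) * X0 ∧
      ∀ k : ℤ, s ≤ k → k < s + n → act P (ext d) k = 0 := by
  classical
  set P : ℤ[X] := ∑ i : Fin (N + 1), (monomial (N - i) (v i) + monomial (N + i) (v i)) with hP
  have hcoeff : ∀ j : ℕ, P.coeff j
      = ∑ i : Fin (N + 1), ((if N - i = j then v i else 0) + (if N + i = j then v i else 0)) := by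
    intro j
    rw [hP, finsetSum_coeff]
    apply Finset.sum_congr rfl
    intro i _
    rw [coeff_add, coeff_monomial, coeff_monomial]
  refine ⟨P, ?_, ?_, ?_, ?_, ?_⟩
  · -- nonzero
    intro h0
    apply hv
    funext i
    have h1 : P.coeff (N + i) = 0 := by rw [h0]; simp
    rw [hcoeff, Finset.sum_eq_single i] at h1
    · simp only [if_true] at h1
      by_cases hi : N - (i : ℕ) = N + i
      · rw [if_pos hi] at h1
        show v i = 0
        omega
      · rw [if_neg hi] at h1
        show v i = 0
        omega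
    · intro j _ hji
      have hji' : (j : ℕ) ≠ i := fun h => hji (Fin.ext h)
      have hj := j.2
      have hi := i.2
      rw [if_neg (by omega), if_neg (by omega), add_zero]
    · intro h; exact absurd (Finset.mem_univ i) h
  · -- degree
    apply natDegree_sum_le_of_forall_le
    intro i _
    have hi := i.2
    refine le_trans (natDegree_add_le _ _) (max_le ?_ ?_)
    · exact le_trans (natDegree_monomial_le _) (by omega)
    · exact le_trans (natDegree_monomial_le _) (by omega)
  · -- reflection
    rw [C_1, one_mul]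
    ext j
    rw [coeff_reflect]
    rcases le_or_gt j (2 * N) with hj | hj
    · rw [revAt_le hj, hcoeff, hcoeff]
      apply Finset.sum_congr rfl
      intro i _
      have hi := i.2
      have e1 : (N - (i : ℕ) = 2 * N - j) ↔ (N + (i : ℕ) = j) := by omega
      have e2 : (N + (i : ℕ) = 2 * N - j) ↔ (N - (i : ℕ) = j) := by omega
      simp only [e1, e2]
      ring
    · rw [revAt_eq_self_of_lt hj]
  · -- norm
    have h1 : n1 P ≤ ∑ i : Fin (N + 1), (2 * |v i|) := by
      refine le_trans (n1_sum_le _ _) ?_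
      apply Finset.sum_le_sum
      intro i _
      refine le_trans (n1_add _ _) ?_
      rw [n1_monomial, n1_monomial]; linarith
    calc (n1 P : ℝ) ≤ ((∑ i : Fin (N + 1), (2 * |v i|) : ℤ) : ℝ) := by exact_mod_cast h1
      _ = ∑ i : Fin (N + 1), (2 * |(v i : ℝ)|) := by push_cast; rfl
      _ ≤ ∑ _i : Fin (N + 1), (2 * X0) := by
          apply Finset.sum_le_sum
          intro i _
          linarith [hX i]
      _ = 2 * (N + 1) * X0 := by
          rw [Finset.sum_const, Finset.card_univ, Fintype.card_fin, nsmul_eq_mul]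
          push_cast; ring
  · -- recurrence
    intro k hk1 hk2
    obtain ⟨m, hm⟩ : ∃ m : ℕ, (m : ℤ) = k - s := ⟨(k - s).toNat, by omega⟩
    have hmn : m < n := by omega
    have h1 := congrFun h ⟨m, hmn⟩
    have h2 : ∑ i : Fin (N + 1), (d (s + m + (N - i)) + d (s + m + (N + i))) * v i = 0 := h1
    have h3 : act P (ext d) k = ∑ i : Fin (N + 1),
        (d (s + m + (N - i)) + d (s + m + (N + i))) * v i := by
      rw [hP]
      unfold act
      rw [map_sum, LinearMap.sum_apply, Finset.sum_apply]
      apply Finset.sum_congr rfl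
      intro i _
      have e1 : (aeval (E ℤ) (monomial (N - (i : ℕ)) (v i) + monomial (N + (i : ℕ)) (v i))) (ext d) k
          = act (monomial (N - (i : ℕ)) (v i)) (ext d) k
            + act (monomial (N + (i : ℕ)) (v i)) (ext d) k := by
        rw [map_add]; rfl
      rw [e1, act_monomial, act_monomial,
        show k + ((N - (i : ℕ) : ℕ) : ℤ) = ((s + m + (N - i) : ℕ) : ℤ) by push_cast; omega,
        show k + ((N + (i : ℕ) : ℕ) : ℤ) = ((s + m + (N + i) : ℕ) : ℤ) by push_cast; omega,
        ext_nat, ext_nat, smul_eq_mul, smul_eq_mul]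
      ring
    rw [h3, h2]

end Q172.LwRec
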