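import Mathlib
import Pool.Agent.Q172.LwRec.Rate

set_option autoImplicit false

/-!
Sums of locally periodic strings: the product of the polynomials `X^ℓ - σ`.
-/

open Polynomial Pool.H389R2.LC

namespace Q172.LwRec

/-- the product polynomial -/
noncomputable def PP' {r : ℕ} (ℓ : Fin r → ℕ) (σ : Fin r → ℤ) (S : Finset (Fin r)) : ℤ[X] :=
  ∏ j ∈ S, (X ^ ℓ j - C (σ j))

section facts
variable {r : ℕ} (ℓ : Fin r → ℕ) (σ : Fin r → ℤ)

theorem PP_ne (hℓ : ∀ j, 0 < ℓ j) (S : Finset (Fin r)) : PP' ℓ σ S ≠ 0 := by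
  unfold PP'
  rw [Finset.prod_ne_zero_iff]
  intro j _
  exact (monic_X_pow_sub_C (σ j) (hℓ j).ne').ne_zero

theorem PP_deg (S : Finset (Fin r)) : (PP' ℓ σ S).natDegree ≤ ∑ j ∈ S, ℓ j := by
  classical
  unfold PP'
  refine le_trans (natDegree_prod_le _ _) ?_
  apply Finset.sum_le_sum
  intro j _
  exact natDegree_X_pow_sub_C.le

theorem PP_n1 (hσ : ∀ j, σ j = 1 ∨ σ j = -1) (S : Finset (Fin r)) : n1 (PP' ℓ σ S) ≤ 2 ^ S.card := by
  unfold PP'
  apply n1_prod_le _ _ 2 _ (by norm_num)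
  intro j _
  have h1 : (X ^ ℓ j - C (σ j) : ℤ[X]) = monomial (ℓ j) 1 - monomial 0 (σ j) := by
    rw [← C_mul_X_pow_eq_monomial, ← C_mul_X_pow_eq_monomial]; simp
  have h2 := n1_sub (monomial (ℓ j) (1 : ℤ)) (monomial 0 (σ j))
  rw [n1_monomial, n1_monomial] at h2
  rw [h1]
  rcases hσ j with h | h <;> rw [h] at h2 ⊢ <;> simpa using h2

theorem reflect_one (a : ℕ) (τ : ℤ) (hτ : τ = 1 ∨ τ = -1) :
    reflect a (X ^ a - C τ : ℤ[X]) = C (-τ) * (X ^ a - C τ) := by
  have h1 : (X ^ a - C τ : ℤ[X]) = monomial a 1 - monomial 0 τ := by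
    rw [← C_mul_X_pow_eq_monomial, ← C_mul_X_pow_eq_monomial]; simp
  have hττ : τ * τ = 1 := by rcases hτ with h | h <;> rw [h] <;> norm_num
  rw [h1]
  ext i
  rw [coeff_reflect, coeff_C_mul]
  rcases le_or_gt i a with hi | hi
  · rw [revAt_le hi]
    simp only [coeff_sub, coeff_monomial]
    by_cases h2 : a = i
    · subst h2
      by_cases h3 : a = 0
      · subst h3
        simp only [if_true, Nat.sub_zero]
        linear_combination -hττ
      · rw [if_neg (by omega), if_pos (by omega), if_pos rfl, if_neg (by omega)]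
        ring
    · by_cases h3 : i = 0
      · subst h3
        rw [if_pos (by omega), if_neg (by omega), if_neg (by omega), if_pos rfl]
        linear_combination -hττ
      · rw [if_neg (by omega), if_neg (by omega), if_neg (by omega), if_neg (by omega)]
        ring
  · rw [revAt_eq_self_of_lt hi]
    simp only [coeff_sub, coeff_monomial]
    rw [if_neg (by omega), if_neg (by omega)]
    ring

theorem PP_reflect (hσ : ∀ j, σ j = 1 ∨ σ j = -1) (S : Finset (Fin r)) :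
    ∃ τ : ℤ, (τ = 1 ∨ τ = -1) ∧ reflect (∑ j ∈ S, ℓ j) (PP' ℓ σ S) = C τ * PP' ℓ σ S := by
  classical
  induction S using Finset.induction_on with
  | empty =>
    refine ⟨1, Or.inl rfl, ?_⟩
    unfold PP'
    simp only [Finset.sum_empty, Finset.prod_empty]
    rw [C_1, one_mul]
    ext i
    rw [coeff_reflect]
    rcases Nat.eq_zero_or_pos i with h | h
    · subst h; simp
    · rw [revAt_eq_self_of_lt h]
  | insert a S ha ih =>
    obtain ⟨τ, hτ, h⟩ := ih
    refine ⟨-σ a * τ, ?_, ?_⟩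
    · rcases hσ a with h1 | h1 <;> rcases hτ with h2 | h2 <;> rw [h1, h2] <;> simp
    · have e1 : PP' ℓ σ (insert a S) = (X ^ ℓ a - C (σ a)) * PP' ℓ σ S := by
        unfold PP'; rw [Finset.prod_insert ha]
      rw [Finset.sum_insert ha, e1, reflect_mul _ _ natDegree_X_pow_sub_C.le (PP_deg ℓ σ S),
        reflect_one (ℓ a) (σ a) (hσ a), h, C_mul]
      ring

/-- the product kills each locally periodic string -/
theorem PP_kill (j : Fin r) (v : ℤ → ℝ) (s : ℤ) (W : ℕ)
    (hv : ∀ k, s ≤ k → k + ℓ j < s + W → v (k + ℓ j) = σ j * v k) (k : ℤ) (hk : s ≤ k)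
    (hk2 : k + (∑ i, ℓ i : ℕ) < s + W) : act (PP' ℓ σ Finset.univ) v k = 0 := by
  classical
  have e1 : PP' ℓ σ Finset.univ = PP' ℓ σ (Finset.univ.erase j) * (X ^ ℓ j - C (σ j)) := by
    unfold PP'
    rw [mul_comm]
    exact (Finset.mul_prod_erase Finset.univ (fun j => (X ^ ℓ j - C (σ j) : ℤ[X]))
      (Finset.mem_univ j)).symm
  have e2 : ℓ j + ∑ i ∈ Finset.univ.erase j, ℓ i = ∑ i, ℓ i :=
    Finset.add_sum_erase _ _ (Finset.mem_univ j)
  rw [e1, act_mul]
  apply act_eq_zero _ _ (PP_deg ℓ σ (Finset.univ.erase j))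
  intro i hi
  have h1 : (X ^ ℓ j - C (σ j) : ℤ[X]) = monomial (ℓ j) 1 - monomial 0 (σ j) := by
    rw [← C_mul_X_pow_eq_monomial, ← C_mul_X_pow_eq_monomial]; simp
  rw [h1, act_sub]
  show act (monomial (ℓ j) 1) v (k + i) - act (monomial 0 (σ j)) v (k + i) = 0
  rw [act_monomial, act_monomial, zsmul_eq_mul, zsmul_eq_mul]
  rw [hv (k + i) (by omega) (by omega)]
  push_cast
  simp

end facts

/-- a reciprocal polynomial maps mirror symmetric strings to mirror symmetric strings -/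
theorem act_mirror (P : ℤ[X]) (m : ℕ) (hd : P.natDegree ≤ m) (τ : ℤ)
    (hP : reflect m P = C τ * P) (u : ℤ → ℝ) (σ : ℤ) (s : ℤ) (W : ℕ) (_hW : m ≤ W)
    (hu : ∀ k, s ≤ k → k < s + W → u (2 * s + W - 1 - k) = σ * u k) (k : ℤ) (hk : s ≤ k)
    (hk2 : k < s + (W - m : ℕ)) :
    act P u (2 * s + (W - m : ℕ) - 1 - k) = (τ * σ : ℤ) * act P u k := by
  rw [act_eq_sum P (m + 1) (by omega), act_eq_sum P (m + 1) (by omega),
    ← Finset.sum_range_reflect, Finset.mul_sum]
  apply Finset.sum_congr rfl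
  intro i hi
  have hi' : i ≤ m := by have := Finset.mem_range.mp hi; omega
  have h1 : P.coeff (m - i) = τ * P.coeff i := by
    have := congrArg (fun Q => Polynomial.coeff Q i) hP
    simp only [coeff_reflect, coeff_C_mul] at this
    rwa [revAt_le hi'] at this
  rw [show m + 1 - 1 - i = m - i by omega, h1, zsmul_eq_mul, zsmul_eq_mul,
    show (2 * s + (W - m : ℕ) - 1 - k + (m - i : ℕ) : ℤ) = 2 * s + W - 1 - (k + i) by omega,
    hu (k + i) (by omega) (by omega)]
  push_cast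
  ring

/-- one-sided real sequences as two-sided ones -/
def extR (f : ℕ → ℝ) (k : ℤ) : ℝ := f k.toNat

/-- the image of a sum -/
theorem act_of_sum {r : ℕ} (ℓ : Fin r → ℕ) (σ : Fin r → ℤ) (d : ℕ → ℤ) (u : ℕ → ℝ)
    (v : Fin r → ℕ → ℝ) (s W : ℕ)
    (hd : ∀ k, s ≤ k → k < s + W → (d k : ℝ) = u k + ∑ j, v j k)
    (hv : ∀ j k, s ≤ k → k + ℓ j < s + W → v j (k + ℓ j) = σ j * v j k) (k : ℤ) (hk : s ≤ k)
    (hk2 : k < s + (W - ∑ i, ℓ i : ℕ)) :
    ((act (PP' ℓ σ Finset.univ) (ext d) k : ℤ) : ℝ) = act (PP' ℓ σ Finset.univ) (extR u) k := by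
  set P := PP' ℓ σ Finset.univ with hP
  set m := ∑ i, ℓ i with hm
  have hdeg : P.natDegree ≤ m := PP_deg ℓ σ Finset.univ
  have hmW : m ≤ W := by omega
  rw [← act_cast]
  have h1 : act P (fun j => ((ext d j : ℤ) : ℝ)) k
      = act P (extR u + ∑ j, extR (v j)) k := by
    apply act_congr P m hdeg
    intro i hi
    obtain ⟨x, hx⟩ : ∃ x : ℕ, (x : ℤ) = k + i := ⟨(k + i).toNat, by omega⟩
    rw [← hx]
    rw [ext_nat, hd x (by omega) (by omega), Pi.add_apply, Finset.sum_apply]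
    rfl
  rw [h1, act_add_right, act_sum_right, Pi.add_apply, Finset.sum_apply, Finset.sum_eq_zero, add_zero]
  intro j _
  apply PP_kill ℓ σ j (extR (v j)) s W
  · intro x hx1 hx2
    obtain ⟨y, hy⟩ : ∃ y : ℕ, (y : ℤ) = x := ⟨x.toNat, by omega⟩
    have h2 := hv j y (by omega) (by omega)
    unfold extR
    rw [show (x + ℓ j).toNat = y + ℓ j by omega, show x.toNat = y by omega]
    exact h2
  · exact hk
  · omega

end Q172.LwRec
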