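import Mathlib
import Pool.Agent.Q172.LwRec.Mirror2
import Pool.Agent.Q172.LwRec.Rank
import Pool.Agent.Q172.LwRec.Sums

set_option autoImplicit false

/-!
Littlewood's conjecture and power savings from the quantitative statements.
-/

open Polynomial Pool.H389R2.LC

namespace Q172.LwRec

section base
variable {t : ℤ} {ε : ℝ} (hb : Base t ε)
include hb

theorem recip_LC (α β : ℝ) (A0 B0 : ℤ) (c : ℕ) (hc : 0 < c) (hα : (c : ℝ) * α = A0 + B0 * ε)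
    (d : ℕ → ℤ) (B : ℝ) (hB : ∀ k, |(d k : ℝ)| ≤ B)
    (hβ : β = ∑' k : ℕ, (d k : ℝ) * ε⁻¹ ^ k)
    (h : ∀ K : ℝ, ∃ (ℓ s n : ℕ) (σ : ℤ) (P : ℤ[X]), P ≠ 0 ∧ P.natDegree ≤ ℓ ∧
      (σ = 1 ∨ σ = -1) ∧ reflect ℓ P = Polynomial.C σ * P ∧
      K * (n1 P : ℝ) ^ 6 * ε ^ ℓ ≤ ε ^ (2 * n) ∧
      (∀ k : ℤ, s ≤ k → k < s + n → act P (ext d) k = 0)) :
    ∀ η : ℝ, 0 < η → ∀ N : ℕ, ∃ q : ℕ, N ≤ q ∧ 0 < q ∧ L α β q < η := by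
  have hε := hb.pos
  obtain ⟨C, K0, hC0, hK0, hC⟩ := recip hb α β A0 B0 c hc hα d B hB hβ
  apply to_LC α β C hC0
  intro K hK
  obtain ⟨ℓ, s, n, σ, P, hP0, hdeg, hσ, hrefl, hle, hrel⟩ := h (K0 + K)
  have hH1 : (1 : ℝ) ≤ n1 P := by
    have := one_le_n1 hP0
    exact_mod_cast this
  have hpos : 0 < (n1 P : ℝ) ^ 6 * ε ^ ℓ := by positivity
  obtain ⟨q, h1, -, h3⟩ := hC ℓ s n σ P hP0 hdeg hσ hrefl (by
    calc K0 * (n1 P : ℝ) ^ 6 * ε ^ ℓ = K0 * ((n1 P : ℝ) ^ 6 * ε ^ ℓ) := by ring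
      _ ≤ (K0 + K) * ((n1 P : ℝ) ^ 6 * ε ^ ℓ) :=
          mul_le_mul_of_nonneg_right (by linarith) hpos.le
      _ = (K0 + K) * (n1 P : ℝ) ^ 6 * ε ^ ℓ := by ring
      _ ≤ ε ^ (2 * n) := hle) hrel
  refine ⟨q, h1, ?_⟩
  have h4 : K * ((n1 P : ℝ) ^ 6 * ε ^ ℓ) ≤ ε ^ (2 * n) := by
    calc K * ((n1 P : ℝ) ^ 6 * ε ^ ℓ) ≤ (K0 + K) * ((n1 P : ℝ) ^ 6 * ε ^ ℓ) :=
          mul_le_mul_of_nonneg_right (by linarith) hpos.le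
      _ = (K0 + K) * (n1 P : ℝ) ^ 6 * ε ^ ℓ := by ring
      _ ≤ ε ^ (2 * n) := hle
  have h5 : ε ^ (2 * n) * ε⁻¹ ^ (2 * n) = 1 := by rw [← mul_pow, hb.mul, one_pow]
  calc (L α β q) ^ 4 * K ≤ (C * (n1 P : ℝ) ^ 6 * ε ^ ℓ * ε⁻¹ ^ (2 * n)) * K :=
        mul_le_mul_of_nonneg_right h3 hK.le
    _ = C * (K * ((n1 P : ℝ) ^ 6 * ε ^ ℓ)) * ε⁻¹ ^ (2 * n) := by ring
    _ ≤ C * ε ^ (2 * n) * ε⁻¹ ^ (2 * n) := by
        apply mul_le_mul_of_nonneg_right _ (pow_pos hb.rpos _).le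
        exact mul_le_mul_of_nonneg_left h4 hC0.le
    _ = C := by rw [mul_assoc, h5, mul_one]

theorem recip_rate (α β : ℝ) (A0 B0 : ℤ) (c : ℕ) (hc : 0 < c) (hα : (c : ℝ) * α = A0 + B0 * ε)
    (d : ℕ → ℤ) (B : ℝ) (hB : ∀ k, |(d k : ℝ)| ≤ B)
    (hβ : β = ∑' k : ℕ, (d k : ℝ) * ε⁻¹ ^ k) (κ : ℝ) (hκ : 0 < κ)
    (h : ∀ K : ℝ, ∃ (ℓ s n : ℕ) (σ : ℤ) (P : ℤ[X]), P ≠ 0 ∧ P.natDegree ≤ ℓ ∧
      (σ = 1 ∨ σ = -1) ∧ reflect ℓ P = Polynomial.C σ * P ∧ K ≤ n ∧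
      (ℓ : ℝ) + 6 * Real.logb ε (n1 P) + κ * (s + n) ≤ 2 * n ∧
      (∀ k : ℤ, s ≤ k → k < s + n → act P (ext d) k = 0)) :
    ∃ η : ℝ, 0 < η ∧ ∀ N : ℕ, ∃ q : ℕ, N ≤ q ∧ 0 < q ∧ (q : ℝ) ^ η * L α β q < 1 := by
  have hε := hb.pos
  have hr0 := hb.rpos
  obtain ⟨C, K0, hC0, hK0, hC⟩ := recip hb α β A0 B0 c hc hα d B hB hβ
  apply to_rate hb α β C κ hC0 hκ
  intro K
  obtain ⟨K1, hK1⟩ := pow_unbounded_of_one_lt K0 hb.h1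
  obtain ⟨ℓ, s, n, σ, P, hP0, hdeg, hσ, hrefl, hKn, hle, hrel⟩ := h (max K (K1 / κ))
  have hH1 : (1 : ℝ) ≤ n1 P := by
    have := one_le_n1 hP0
    exact_mod_cast this
  have hsn : (0 : ℝ) ≤ s := Nat.cast_nonneg s
  have hnn : (0 : ℝ) ≤ n := Nat.cast_nonneg n
  have hform := log_form hb (x := (ℓ : ℝ)) (y := κ * (s + n)) hH1 (m := 2 * n) (by push_cast; exact hle)
  rw [Real.rpow_natCast] at hform
  have hpos : 0 < (n1 P : ℝ) ^ 6 * ε ^ ℓ := by positivity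
  have hK0n : K0 ≤ ε ^ (κ * (s + n)) := by
    calc K0 ≤ ε ^ K1 := hK1.le
      _ = ε ^ (K1 : ℝ) := (Real.rpow_natCast _ _).symm
      _ ≤ ε ^ (κ * (s + n)) := by
          apply Real.rpow_le_rpow_of_exponent_le hb.h1.le
          have h1 : (K1 : ℝ) / κ ≤ n := le_trans (le_max_right _ _) hKn
          rw [div_le_iff₀ hκ] at h1
          nlinarith
  obtain ⟨q, h1, h2, h3⟩ := hC ℓ s n σ P hP0 hdeg hσ hrefl (by
    calc K0 * (n1 P : ℝ) ^ 6 * ε ^ ℓ = ((n1 P : ℝ) ^ 6 * ε ^ ℓ) * K0 := by ring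
      _ ≤ ((n1 P : ℝ) ^ 6 * ε ^ ℓ) * ε ^ (κ * (s + n)) :=
          mul_le_mul_of_nonneg_left hK0n hpos.le
      _ ≤ ε ^ (2 * n) := hform) hrel
  refine ⟨(s : ℝ) + n, q, ?_, h1, ?_, ?_⟩
  · have := le_trans (le_max_left K (K1 / κ)) hKn
    linarith
  · refine le_trans h2 ?_
    apply mul_le_mul_of_nonneg_left _ hC0.le
    rw [← Real.rpow_natCast]
    apply Real.rpow_le_rpow_of_exponent_le hb.h1.le
    push_cast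
    linarith
  · have h5 : ε ^ (2 * n) * ε⁻¹ ^ (2 * n) = 1 := by rw [← mul_pow, hb.mul, one_pow]
    have h6 : ε ^ (κ * (s + n)) * ε⁻¹ ^ (κ * ((s : ℝ) + n)) = 1 := by
      rw [Real.inv_rpow hε.le, mul_inv_cancel₀ (Real.rpow_pos_of_pos hε _).ne']
    have h7 : 0 < ε⁻¹ ^ (κ * ((s : ℝ) + n)) := Real.rpow_pos_of_pos hr0 _
    have h8 : (n1 P : ℝ) ^ 6 * ε ^ ℓ ≤ ε ^ (2 * n) * ε⁻¹ ^ (κ * ((s : ℝ) + n)) := by
      calc (n1 P : ℝ) ^ 6 * ε ^ ℓ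
          = ((n1 P : ℝ) ^ 6 * ε ^ ℓ) * (ε ^ (κ * (s + n)) * ε⁻¹ ^ (κ * ((s : ℝ) + n))) := by
            rw [h6, mul_one]
        _ = ((n1 P : ℝ) ^ 6 * ε ^ ℓ * ε ^ (κ * (s + n))) * ε⁻¹ ^ (κ * ((s : ℝ) + n)) := by ring
        _ ≤ _ := mul_le_mul_of_nonneg_right hform h7.le
    calc (L α β q) ^ 4 ≤ C * (n1 P : ℝ) ^ 6 * ε ^ ℓ * ε⁻¹ ^ (2 * n) := h3
      _ = C * ((n1 P : ℝ) ^ 6 * ε ^ ℓ) * ε⁻¹ ^ (2 * n) := by ring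
      _ ≤ C * (ε ^ (2 * n) * ε⁻¹ ^ (κ * ((s : ℝ) + n))) * ε⁻¹ ^ (2 * n) := by
          apply mul_le_mul_of_nonneg_right _ (pow_pos hr0 _).le
          exact mul_le_mul_of_nonneg_left h8 hC0.le
      _ = C * ε⁻¹ ^ (κ * ((s : ℝ) + n)) * (ε ^ (2 * n) * ε⁻¹ ^ (2 * n)) := by ring
      _ = C * ε⁻¹ ^ (κ * ((s : ℝ) + n)) := by rw [h5, mul_one]

theorem mirror_LC (α β : ℝ) (A0 B0 : ℤ) (c : ℕ) (hc : 0 < c) (hα : (c : ℝ) * α = A0 + B0 * ε)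
    (d : ℕ → ℤ) (B : ℝ) (hB : ∀ k, |(d k : ℝ)| ≤ B)
    (hβ : β = ∑' k : ℕ, (d k : ℝ) * ε⁻¹ ^ k)
    (h : ∀ K : ℝ, ∃ (ℓ s n : ℕ) (σ : ℤ) (P : ℤ[X]), P ≠ 0 ∧ P.natDegree ≤ ℓ ∧
      (σ = 1 ∨ σ = -1) ∧ K * (n1 P : ℝ) ^ 6 * ε ^ (2 * ℓ) ≤ ε ^ n ∧
      (∀ k : ℤ, s ≤ k → k < s + n →
        act P (ext d) (2 * s + n - 1 - k) = σ * act P (ext d) k)) :
    ∀ η : ℝ, 0 < η → ∀ N : ℕ, ∃ q : ℕ, N ≤ q ∧ 0 < q ∧ L α β q < η := by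
  have hε := hb.pos
  obtain ⟨C, K0, hC0, hK0, hC⟩ := mirror hb α β A0 B0 c hc hα d B hB hβ
  apply to_LC α β (C ^ 2) (by positivity)
  intro K hK
  obtain ⟨ℓ, s, n, σ, P, hP0, hdeg, hσ, hle, hrel⟩ := h (K0 + K + 1)
  have hH1 : (1 : ℝ) ≤ n1 P := by
    have := one_le_n1 hP0
    exact_mod_cast this
  have hpos : 0 < (n1 P : ℝ) ^ 6 * ε ^ (2 * ℓ) := by positivity
  obtain ⟨q, h1, -, h3⟩ := hC ℓ s σ hσ P.natDegree n P rfl hP0 hdeg (by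
    calc K0 * (n1 P : ℝ) ^ 6 * ε ^ (2 * ℓ) = K0 * ((n1 P : ℝ) ^ 6 * ε ^ (2 * ℓ)) := by ring
      _ ≤ (K0 + K + 1) * ((n1 P : ℝ) ^ 6 * ε ^ (2 * ℓ)) :=
          mul_le_mul_of_nonneg_right (by linarith) hpos.le
      _ = (K0 + K + 1) * (n1 P : ℝ) ^ 6 * ε ^ (2 * ℓ) := by ring
      _ ≤ ε ^ n := hle) hrel
  refine ⟨q, h1, ?_⟩
  have h4 : (K + 1) * ((n1 P : ℝ) ^ 6 * ε ^ (2 * ℓ)) ≤ ε ^ n := by
    calc (K + 1) * ((n1 P : ℝ) ^ 6 * ε ^ (2 * ℓ)) ≤ (K0 + K + 1) * ((n1 P : ℝ) ^ 6 * ε ^ (2 * ℓ)) :=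
          mul_le_mul_of_nonneg_right (by linarith) hpos.le
      _ = (K0 + K + 1) * (n1 P : ℝ) ^ 6 * ε ^ (2 * ℓ) := by ring
      _ ≤ ε ^ n := hle
  have h5 : ε ^ n * ε⁻¹ ^ n = 1 := by rw [← mul_pow, hb.mul, one_pow]
  have h6 : (L α β q) ^ 2 * (K + 1) ≤ C := by
    calc (L α β q) ^ 2 * (K + 1) ≤ (C * (n1 P : ℝ) ^ 6 * ε ^ (2 * ℓ) * ε⁻¹ ^ n) * (K + 1) :=
          mul_le_mul_of_nonneg_right h3 (by linarith)
      _ = C * ((K + 1) * ((n1 P : ℝ) ^ 6 * ε ^ (2 * ℓ))) * ε⁻¹ ^ n := by ring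
      _ ≤ C * ε ^ n * ε⁻¹ ^ n := by
          apply mul_le_mul_of_nonneg_right _ (pow_pos hb.rpos _).le
          exact mul_le_mul_of_nonneg_left h4 hC0.le
      _ = C := by rw [mul_assoc, h5, mul_one]
  have h7 : 0 ≤ (L α β q) ^ 2 * (K + 1) := by positivity
  calc (L α β q) ^ 4 * K ≤ (L α β q) ^ 4 * (K + 1) ^ 2 := by
        apply mul_le_mul_of_nonneg_left _ (by positivity)
        nlinarith
    _ = ((L α β q) ^ 2 * (K + 1)) ^ 2 := by ring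
    _ ≤ C ^ 2 := pow_le_pow_left₀ h7 h6 2

theorem mirror_rate (α β : ℝ) (A0 B0 : ℤ) (c : ℕ) (hc : 0 < c) (hα : (c : ℝ) * α = A0 + B0 * ε)
    (d : ℕ → ℤ) (B : ℝ) (hB : ∀ k, |(d k : ℝ)| ≤ B)
    (hβ : β = ∑' k : ℕ, (d k : ℝ) * ε⁻¹ ^ k) (κ : ℝ) (hκ : 0 < κ)
    (h : ∀ K : ℝ, ∃ (ℓ s n : ℕ) (σ : ℤ) (P : ℤ[X]), P ≠ 0 ∧ P.natDegree ≤ ℓ ∧
      (σ = 1 ∨ σ = -1) ∧ K ≤ n ∧
      ((2 * ℓ : ℕ) : ℝ) + 6 * Real.logb ε (n1 P) + κ * (s + n) ≤ n ∧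
      (∀ k : ℤ, s ≤ k → k < s + n →
        act P (ext d) (2 * s + n - 1 - k) = σ * act P (ext d) k)) :
    ∃ η : ℝ, 0 < η ∧ ∀ N : ℕ, ∃ q : ℕ, N ≤ q ∧ 0 < q ∧ (q : ℝ) ^ η * L α β q < 1 := by
  have hε := hb.pos
  have hr0 := hb.rpos
  obtain ⟨C, K0, hC0, hK0, hC⟩ := mirror hb α β A0 B0 c hc hα d B hB hβ
  apply to_rate hb α β (C + C ^ 2) κ (by positivity) hκ
  intro K
  obtain ⟨K1, hK1⟩ := pow_unbounded_of_one_lt K0 hb.h1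
  obtain ⟨ℓ, s, n, σ, P, hP0, hdeg, hσ, hKn, hle, hrel⟩ := h (max K (K1 / κ))
  have hH1 : (1 : ℝ) ≤ n1 P := by
    have := one_le_n1 hP0
    exact_mod_cast this
  have hsn : (0 : ℝ) ≤ s := Nat.cast_nonneg s
  have hnn : (0 : ℝ) ≤ n := Nat.cast_nonneg n
  have hform := log_form hb (x := ((2 * ℓ : ℕ) : ℝ)) (y := κ * (s + n)) hH1 (m := n) hle
  rw [Real.rpow_natCast] at hform
  have hpos : 0 < (n1 P : ℝ) ^ 6 * ε ^ (2 * ℓ) := by positivity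
  have hK0n : K0 ≤ ε ^ (κ * (s + n)) := by
    calc K0 ≤ ε ^ K1 := hK1.le
      _ = ε ^ (K1 : ℝ) := (Real.rpow_natCast _ _).symm
      _ ≤ ε ^ (κ * (s + n)) := by
          apply Real.rpow_le_rpow_of_exponent_le hb.h1.le
          have h1 : (K1 : ℝ) / κ ≤ n := le_trans (le_max_right _ _) hKn
          rw [div_le_iff₀ hκ] at h1
          nlinarith
  have hℓn : 2 * (ℓ : ℝ) ≤ n := by
    have h1 : 0 ≤ Real.logb ε (n1 P) := Real.logb_nonneg hb.h1 hH1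
    push_cast at hle
    have h2 : 0 ≤ κ * (s + n) := by positivity
    linarith
  obtain ⟨q, h1, h2, h3⟩ := hC ℓ s σ hσ P.natDegree n P rfl hP0 hdeg (by
    calc K0 * (n1 P : ℝ) ^ 6 * ε ^ (2 * ℓ) = ((n1 P : ℝ) ^ 6 * ε ^ (2 * ℓ)) * K0 := by ring
      _ ≤ ((n1 P : ℝ) ^ 6 * ε ^ (2 * ℓ)) * ε ^ (κ * (s + n)) :=
          mul_le_mul_of_nonneg_left hK0n hpos.le
      _ ≤ ε ^ n := hform) hrel
  refine ⟨(s : ℝ) + n, q, ?_, h1, ?_, ?_⟩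
  · have := le_trans (le_max_left K (K1 / κ)) hKn
    linarith
  · refine le_trans h2 ?_
    apply mul_le_mul (by nlinarith [sq_nonneg C]) _ (pow_pos hε _).le (by positivity)
    rw [← Real.rpow_natCast]
    apply Real.rpow_le_rpow_of_exponent_le hb.h1.le
    have h4 : (P.natDegree : ℝ) ≤ ℓ := by exact_mod_cast hdeg
    push_cast
    linarith
  · have h5 : ε ^ n * ε⁻¹ ^ n = 1 := by rw [← mul_pow, hb.mul, one_pow]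
    have h6 : ε ^ (κ * (s + n)) * ε⁻¹ ^ (κ * ((s : ℝ) + n)) = 1 := by
      rw [Real.inv_rpow hε.le, mul_inv_cancel₀ (Real.rpow_pos_of_pos hε _).ne']
    have h7 : 0 < ε⁻¹ ^ (κ * ((s : ℝ) + n)) := Real.rpow_pos_of_pos hr0 _
    have h7' : ε⁻¹ ^ (κ * ((s : ℝ) + n)) ≤ 1 :=
      Real.rpow_le_one hr0.le hb.rlt.le (by positivity)
    have h8 : (n1 P : ℝ) ^ 6 * ε ^ (2 * ℓ) ≤ ε ^ n * ε⁻¹ ^ (κ * ((s : ℝ) + n)) := by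
      calc (n1 P : ℝ) ^ 6 * ε ^ (2 * ℓ)
          = ((n1 P : ℝ) ^ 6 * ε ^ (2 * ℓ)) * (ε ^ (κ * (s + n)) * ε⁻¹ ^ (κ * ((s : ℝ) + n))) := by
            rw [h6, mul_one]
        _ = ((n1 P : ℝ) ^ 6 * ε ^ (2 * ℓ) * ε ^ (κ * (s + n))) * ε⁻¹ ^ (κ * ((s : ℝ) + n)) := by ring
        _ ≤ _ := mul_le_mul_of_nonneg_right hform h7.le
    have h9 : (L α β q) ^ 2 ≤ C * ε⁻¹ ^ (κ * ((s : ℝ) + n)) := by
      calc (L α β q) ^ 2 ≤ C * (n1 P : ℝ) ^ 6 * ε ^ (2 * ℓ) * ε⁻¹ ^ n := h3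
        _ = C * ((n1 P : ℝ) ^ 6 * ε ^ (2 * ℓ)) * ε⁻¹ ^ n := by ring
        _ ≤ C * (ε ^ n * ε⁻¹ ^ (κ * ((s : ℝ) + n))) * ε⁻¹ ^ n := by
            apply mul_le_mul_of_nonneg_right _ (pow_pos hr0 _).le
            exact mul_le_mul_of_nonneg_left h8 hC0.le
        _ = C * ε⁻¹ ^ (κ * ((s : ℝ) + n)) * (ε ^ n * ε⁻¹ ^ n) := by ring
        _ = C * ε⁻¹ ^ (κ * ((s : ℝ) + n)) := by rw [h5, mul_one]
    calc (L α β q) ^ 4 = ((L α β q) ^ 2) ^ 2 := by ring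
      _ ≤ (C * ε⁻¹ ^ (κ * ((s : ℝ) + n))) ^ 2 := pow_le_pow_left₀ (sq_nonneg _) h9 2
      _ = C ^ 2 * ε⁻¹ ^ (κ * ((s : ℝ) + n)) * ε⁻¹ ^ (κ * ((s : ℝ) + n)) := by ring
      _ ≤ C ^ 2 * ε⁻¹ ^ (κ * ((s : ℝ) + n)) * 1 :=
          mul_le_mul_of_nonneg_left h7' (by positivity)
      _ ≤ (C + C ^ 2) * ε⁻¹ ^ (κ * ((s : ℝ) + n)) := by
          rw [mul_one]
          apply mul_le_mul_of_nonneg_right _ h7.le
          linarith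

/-- matrices of small rank -/
theorem rank_LC (α β : ℝ) (A0 B0 : ℤ) (c : ℕ) (hc : 0 < c) (hα : (c : ℝ) * α = A0 + B0 * ε)
    (d : ℕ → ℤ) (b : ℕ) (hb1 : 1 ≤ b) (hB : ∀ k, |d k| ≤ b)
    (hβ : β = ∑' k : ℕ, (d k : ℝ) * ε⁻¹ ^ k) (θ : ℝ) (hθ0 : 0 < θ) (hθ1 : θ < 1)
    (h : ∀ K : ℕ, ∃ N s n : ℕ, K ≤ N ∧ (N : ℝ) + 4 / θ * Real.logb ε N ≤ n ∧
      (((sH d s n N).map (Int.cast : ℤ → ℚ)).rank : ℝ) ≤ (1 - θ) * N) :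
    ∀ η : ℝ, 0 < η → ∀ N : ℕ, ∃ q : ℕ, N ≤ q ∧ 0 < q ∧ L α β q < η := by
  have hε := hb.pos
  have hBr : ∀ k, |(d k : ℝ)| ≤ (b : ℝ) := by
    intro k
    have h1 : ((|d k| : ℤ) : ℝ) ≤ ((b : ℤ) : ℝ) := by exact_mod_cast hB k
    push_cast at h1
    exact h1
  apply recip_LC hb α β A0 B0 c hc hα d b hBr hβ
  intro K
  obtain ⟨K1, hK1⟩ := exists_nat_ge (|K| * (64 * (4 * b : ℝ) ^ (6 / θ)))
  obtain ⟨N, s, n, hKN, hn, hrank⟩ := h (K1 + 1)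
  have hN1 : (1 : ℝ) ≤ N := by
    have : 1 ≤ N := by omega
    exact_mod_cast this
  have hN0 : (0 : ℝ) < N := by linarith
  set r := ((sH d s n N).map (Int.cast : ℤ → ℚ)).rank with hr
  have hrN' : (r : ℝ) < N + 1 := by nlinarith
  have hrN : r < N + 1 := by exact_mod_cast hrN'
  have hbr : (1 : ℝ) ≤ b := by exact_mod_cast hb1
  obtain ⟨v, hv0, hv, hvn⟩ := siegel_rank (sH d s n N) (2 * b) (by omega) (by
    intro i j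
    unfold sH
    refine le_trans (abs_add_le _ _) ?_
    push_cast
    linarith [hB (s + i + (N - j)), hB (s + i + (N + j))]) r hr.symm hrN
  set X0 : ℝ := (((N : ℝ) + 1) * ((2 * b : ℕ) : ℝ)) ^ ((r : ℝ) / (N + 1 - r)) with hX0
  obtain ⟨P, hP0, hdeg, hrefl, hPn, hrel⟩ := rec_of_kernel d s n N v hv0 hv X0 hvn
  refine ⟨2 * N, s, n, 1, P, hP0, hdeg, Or.inl rfl, hrefl, ?_, hrel⟩
  have hH1 : (1 : ℝ) ≤ n1 P := by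
    have := one_le_n1 hP0
    exact_mod_cast this
  -- the base
  set Z : ℝ := (4 * b : ℝ) * N with hZ
  have hZ1 : 1 ≤ Z := by nlinarith
  have hbase : ((N : ℝ) + 1) * ((2 * b : ℕ) : ℝ) ≤ Z := by
    push_cast
    rw [hZ]
    have : (0 : ℝ) < b := by linarith
    nlinarith
  have hbase1 : 1 ≤ ((N : ℝ) + 1) * ((2 * b : ℕ) : ℝ) := by
    push_cast
    nlinarith
  have hexp : (r : ℝ) / (N + 1 - r) ≤ (1 - θ) / θ := by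
    rw [div_le_div_iff₀ (by linarith) hθ0]
    nlinarith
  have hXZ : X0 ≤ Z ^ ((1 - θ) / θ) := by
    calc X0 ≤ (((N : ℝ) + 1) * ((2 * b : ℕ) : ℝ)) ^ ((1 - θ) / θ) :=
          Real.rpow_le_rpow_of_exponent_le hbase1 hexp
      _ ≤ Z ^ ((1 - θ) / θ) := by
          apply Real.rpow_le_rpow (by linarith) hbase
          apply div_nonneg (by linarith) hθ0.le
  have hHZ : (n1 P : ℝ) ≤ 2 * Z ^ (1 / θ) := by
    have h1 : (N : ℝ) + 1 ≤ Z := by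
      rw [hZ]; nlinarith
    have h2 : 0 ≤ Z ^ ((1 - θ) / θ) := Real.rpow_nonneg (by linarith) _
    calc (n1 P : ℝ) ≤ 2 * (N + 1) * X0 := hPn
      _ ≤ 2 * Z * Z ^ ((1 - θ) / θ) := by
          apply mul_le_mul _ hXZ (Real.rpow_nonneg (by positivity) _) (by positivity)
          linarith
      _ = 2 * (Z ^ (1 : ℝ) * Z ^ ((1 - θ) / θ)) := by rw [Real.rpow_one]; ring
      _ = 2 * Z ^ (1 / θ) := by
          rw [← Real.rpow_add (by linarith)]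
          congr 2
          field_simp
          ring
  have hH6 : (n1 P : ℝ) ^ 6 ≤ 64 * (4 * b : ℝ) ^ (6 / θ) * (N : ℝ) ^ (6 / θ) := by
    calc (n1 P : ℝ) ^ 6 ≤ (2 * Z ^ (1 / θ)) ^ 6 := pow_le_pow_left₀ (by linarith) hHZ 6
      _ = 64 * (Z ^ (1 / θ)) ^ 6 := by ring
      _ = 64 * Z ^ (6 / θ) := by
          rw [← Real.rpow_natCast (Z ^ (1 / θ)) 6, ← Real.rpow_mul (by linarith)]
          congr 2
          push_cast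
          ring
      _ = _ := by
          rw [hZ, Real.mul_rpow (by positivity) hN0.le]; ring
  have hεn : ε ^ (2 * N) * (N : ℝ) ^ (8 / θ) ≤ ε ^ (2 * n) := by
    have h1 : (N : ℝ) ^ (8 / θ) = ε ^ (8 / θ * Real.logb ε N) := by
      rw [mul_comm, Real.rpow_mul hε.le, Real.rpow_logb hε (ne_of_gt hb.h1) hN0]
    rw [h1, ← Real.rpow_natCast, ← Real.rpow_natCast, ← Real.rpow_add hε]
    apply Real.rpow_le_rpow_of_exponent_le hb.h1.le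
    push_cast
    have : 8 / θ * Real.logb ε N = 2 * (4 / θ * Real.logb ε N) := by ring
    rw [this]
    linarith
  have hNN : (K1 : ℝ) ≤ (N : ℝ) ^ (2 / θ) := by
    have h1 : (K1 : ℝ) ≤ N := by
      have : K1 ≤ N := by omega
      exact_mod_cast this
    calc (K1 : ℝ) ≤ (N : ℝ) ^ (1 : ℝ) := by rw [Real.rpow_one]; exact h1
      _ ≤ (N : ℝ) ^ (2 / θ) := by
          apply Real.rpow_le_rpow_of_exponent_le hN1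
          rw [le_div_iff₀ hθ0]
          linarith
  have hN6 : 0 < (N : ℝ) ^ (6 / θ) := Real.rpow_pos_of_pos hN0 _
  calc K * (n1 P : ℝ) ^ 6 * ε ^ (2 * N) ≤ |K| * (n1 P : ℝ) ^ 6 * ε ^ (2 * N) := by
        apply mul_le_mul_of_nonneg_right _ (by positivity)
        exact mul_le_mul_of_nonneg_right (le_abs_self K) (by positivity)
    _ ≤ |K| * (64 * (4 * b : ℝ) ^ (6 / θ) * (N : ℝ) ^ (6 / θ)) * ε ^ (2 * N) := by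
        apply mul_le_mul_of_nonneg_right _ (by positivity)
        exact mul_le_mul_of_nonneg_left hH6 (abs_nonneg K)
    _ = (|K| * (64 * (4 * b : ℝ) ^ (6 / θ))) * ((N : ℝ) ^ (6 / θ) * ε ^ (2 * N)) := by ring
    _ ≤ (N : ℝ) ^ (2 / θ) * ((N : ℝ) ^ (6 / θ) * ε ^ (2 * N)) := by
        apply mul_le_mul_of_nonneg_right (le_trans hK1 hNN) (by positivity)
    _ = ε ^ (2 * N) * ((N : ℝ) ^ (2 / θ) * (N : ℝ) ^ (6 / θ)) := by ring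
    _ = ε ^ (2 * N) * (N : ℝ) ^ (8 / θ) := by
        rw [← Real.rpow_add hN0]
        congr 2
        ring
    _ ≤ ε ^ (2 * n) := hεn

omit hb in
/-- from the number of summands to the norm -/
theorem two_pow_le {ε : ℝ} (h2 : 2 < ε) {r : ℕ} {P : ℤ[X]} (h : n1 P ≤ 2 ^ r) :
    (n1 P : ℝ) ^ 6 ≤ ε ^ (6 * r) := by
  have h0 : (0 : ℝ) ≤ n1 P := by exact_mod_cast n1_nonneg P
  have h1 : (n1 P : ℝ) ≤ 2 ^ r := by exact_mod_cast h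
  calc (n1 P : ℝ) ^ 6 ≤ (2 ^ r) ^ 6 := pow_le_pow_left₀ h0 h1 6
    _ = 2 ^ (6 * r) := by rw [← pow_mul, mul_comm]
    _ ≤ ε ^ (6 * r) := pow_le_pow_left₀ (by norm_num) h2.le _

/-- sums of locally periodic strings -/
theorem sums_LC (α β : ℝ) (A0 B0 : ℤ) (c : ℕ) (hc : 0 < c) (hα : (c : ℝ) * α = A0 + B0 * ε)
    (d : ℕ → ℤ) (B : ℝ) (hB : ∀ k, |(d k : ℝ)| ≤ B)
    (hβ : β = ∑' k : ℕ, (d k : ℝ) * ε⁻¹ ^ k)
    (h : ∀ K : ℕ, ∃ (r s W : ℕ) (ℓ : Fin r → ℕ) (σ : Fin r → ℤ) (v : Fin r → ℕ → ℝ),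
      (∀ j, 0 < ℓ j) ∧ (∀ j, σ j = 1 ∨ σ j = -1) ∧
      (∀ k, s ≤ k → k < s + W → (d k : ℝ) = ∑ j, v j k) ∧
      (∀ j k, s ≤ k → k + ℓ j < s + W → v j (k + ℓ j) = σ j * v j k) ∧
      3 * (∑ j, (ℓ j + 2)) + K ≤ 2 * W) :
    ∀ η : ℝ, 0 < η → ∀ N : ℕ, ∃ q : ℕ, N ≤ q ∧ 0 < q ∧ L α β q < η := by
  have hε := hb.pos
  apply recip_LC hb α β A0 B0 c hc hα d B hB hβ
  intro K
  obtain ⟨K1, hK1⟩ := pow_unbounded_of_one_lt K hb.h1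
  obtain ⟨r, s, W, ℓ, σ, v, hℓ, hσ, hd, hv, hW⟩ := h K1
  set m := ∑ j, ℓ j with hm
  have hsum : ∑ j, (ℓ j + 2) = m + 2 * r := by
    rw [Finset.sum_add_distrib, Finset.sum_const, Finset.card_univ, Fintype.card_fin,
      smul_eq_mul, mul_comm r 2]
  rw [hsum] at hW
  obtain ⟨τ, hτ, hrefl⟩ := PP_reflect ℓ σ hσ Finset.univ
  have hn1 := PP_n1 ℓ σ hσ Finset.univ
  rw [Finset.card_univ, Fintype.card_fin] at hn1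
  refine ⟨m, s, W - m, τ, PP' ℓ σ Finset.univ, PP_ne ℓ σ hℓ _, PP_deg ℓ σ _, hτ, hrefl, ?_, ?_⟩
  · calc K * (n1 (PP' ℓ σ Finset.univ) : ℝ) ^ 6 * ε ^ m
        ≤ ε ^ K1 * ε ^ (6 * r) * ε ^ m := by
          apply mul_le_mul_of_nonneg_right _ (pow_pos hε _).le
          apply mul_le_mul hK1.le (two_pow_le hb.two_lt hn1) (by positivity) (pow_pos hε _).le
      _ = ε ^ (K1 + 6 * r + m) := by rw [pow_add, pow_add]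
      _ ≤ ε ^ (2 * (W - m)) := pow_le_pow_right₀ hb.h1.le (by omega)
  · intro k hk1 hk2
    have h1 := act_of_sum ℓ σ d (fun _ => 0) v s W (by
      intro k h1 h2; rw [hd k h1 h2, zero_add]) hv k hk1 hk2
    have h2 : extR (fun _ => 0) = 0 := by funext x; rfl
    rw [h2, act_zero_right] at h1
    have h3 : ((act (PP' ℓ σ Finset.univ) (ext d) k : ℤ) : ℝ) = 0 := h1
    exact_mod_cast h3

/-- a mirror symmetric string plus locally periodic strings -/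
theorem sums_mirror_LC (α β : ℝ) (A0 B0 : ℤ) (c : ℕ) (hc : 0 < c)
    (hα : (c : ℝ) * α = A0 + B0 * ε)
    (d : ℕ → ℤ) (B : ℝ) (hB : ∀ k, |(d k : ℝ)| ≤ B)
    (hβ : β = ∑' k : ℕ, (d k : ℝ) * ε⁻¹ ^ k)
    (h : ∀ K : ℕ, ∃ (r s W : ℕ) (ℓ : Fin r → ℕ) (σ : Fin r → ℤ) (v : Fin r → ℕ → ℝ)
      (u : ℕ → ℝ) (τ : ℤ),
      (∀ j, 0 < ℓ j) ∧ (∀ j, σ j = 1 ∨ σ j = -1) ∧ (τ = 1 ∨ τ = -1) ∧
      (∀ k, s ≤ k → k < s + W → (d k : ℝ) = u k + ∑ j, v j k) ∧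
      (∀ k, s ≤ k → k < s + W → u (2 * s + W - 1 - k) = τ * u k) ∧
      (∀ j k, s ≤ k → k + ℓ j < s + W → v j (k + ℓ j) = σ j * v j k) ∧
      3 * (∑ j, (ℓ j + 2)) + K ≤ W) :
    ∀ η : ℝ, 0 < η → ∀ N : ℕ, ∃ q : ℕ, N ≤ q ∧ 0 < q ∧ L α β q < η := by
  have hε := hb.pos
  apply mirror_LC hb α β A0 B0 c hc hα d B hB hβ
  intro K
  obtain ⟨K1, hK1⟩ := pow_unbounded_of_one_lt K hb.h1
  obtain ⟨r, s, W, ℓ, σ, v, u, τ, hℓ, hσ, hτ, hd, hu, hv, hW⟩ := h K1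
  set m := ∑ j, ℓ j with hm
  have hsum : ∑ j, (ℓ j + 2) = m + 2 * r := by
    rw [Finset.sum_add_distrib, Finset.sum_const, Finset.card_univ, Fintype.card_fin,
      smul_eq_mul, mul_comm r 2]
  rw [hsum] at hW
  obtain ⟨τ', hτ', hrefl⟩ := PP_reflect ℓ σ hσ Finset.univ
  have hn1 := PP_n1 ℓ σ hσ Finset.univ
  rw [Finset.card_univ, Fintype.card_fin] at hn1
  refine ⟨m, s, W - m, τ' * τ, PP' ℓ σ Finset.univ, PP_ne ℓ σ hℓ _, PP_deg ℓ σ _, ?_, ?_, ?_⟩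
  · rcases hτ with h1 | h1 <;> rcases hτ' with h2 | h2 <;> rw [h1, h2] <;> simp
  · calc K * (n1 (PP' ℓ σ Finset.univ) : ℝ) ^ 6 * ε ^ (2 * m)
        ≤ ε ^ K1 * ε ^ (6 * r) * ε ^ (2 * m) := by
          apply mul_le_mul_of_nonneg_right _ (pow_pos hε _).le
          apply mul_le_mul hK1.le (two_pow_le hb.two_lt hn1) (by positivity) (pow_pos hε _).le
      _ = ε ^ (K1 + 6 * r + 2 * m) := by rw [pow_add, pow_add]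
      _ ≤ ε ^ (W - m) := pow_le_pow_right₀ hb.h1.le (by omega)
  · intro k hk1 hk2
    have e1 := act_of_sum ℓ σ d u v s W hd hv k hk1 hk2
    have e2 := act_of_sum ℓ σ d u v s W hd hv (2 * s + (W - m : ℕ) - 1 - k) (by omega) (by omega)
    have e3 := act_mirror (PP' ℓ σ Finset.univ) m (PP_deg ℓ σ _) τ' hrefl (extR u) τ s W (by omega)
      (by
        intro x hx1 hx2
        obtain ⟨y, hy⟩ : ∃ y : ℕ, (y : ℤ) = x := ⟨x.toNat, by omega⟩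
        have h2 := hu y (by omega) (by omega)
        unfold extR
        rw [show (2 * (s : ℤ) + W - 1 - x).toNat = 2 * s + W - 1 - y by omega,
          show x.toNat = y by omega]
        exact h2) k hk1 hk2
    rw [← e1, ← e2] at e3
    exact_mod_cast e3

end base

end Q172.LwRec
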