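import Mathlib
import Pool.Agent.Q172.LwRec.Fin

set_option autoImplicit false

/-!
From coefficient sequences to polynomials.
-/

open Polynomial Pool.H389R2.LC

namespace Q172.LwRec

/-- the polynomial with coefficients `c_0, …, c_ℓ` -/
noncomputable def polyOf (ℓ : ℕ) (c : ℕ → ℤ) : ℤ[X] := ∑ i ∈ Finset.range (ℓ + 1), monomial i (c i)

theorem polyOf_coeff (ℓ : ℕ) (c : ℕ → ℤ) (j : ℕ) :
    (polyOf ℓ c).coeff j = if j ≤ ℓ then c j else 0 := by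
  unfold polyOf
  rw [finsetSum_coeff]
  simp only [coeff_monomial]
  rw [Finset.sum_ite_eq']
  simp only [Finset.mem_range, Nat.lt_succ_iff]

theorem polyOf_deg (ℓ : ℕ) (c : ℕ → ℤ) : (polyOf ℓ c).natDegree ≤ ℓ := by
  rw [natDegree_le_iff_coeff_eq_zero]
  intro j hj
  rw [polyOf_coeff, if_neg (by omega)]

theorem polyOf_n1 (ℓ : ℕ) (c : ℕ → ℤ) :
    n1 (polyOf ℓ c) = ∑ i ∈ Finset.range (ℓ + 1), |c i| := by
  rw [n1_eq _ (ℓ + 1) (Nat.lt_succ_of_le (polyOf_deg ℓ c))]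
  apply Finset.sum_congr rfl
  intro i hi
  rw [polyOf_coeff, if_pos (by have := Finset.mem_range.mp hi; omega)]

theorem polyOf_ne (ℓ : ℕ) (c : ℕ → ℤ) (h : 0 < ∑ i ∈ Finset.range (ℓ + 1), |c i|) :
    polyOf ℓ c ≠ 0 := by
  intro h0
  rw [← polyOf_n1, h0, n1_zero] at h
  exact lt_irrefl _ h

theorem polyOf_reflect (ℓ : ℕ) (c : ℕ → ℤ) (σ : ℤ) (h : ∀ i, i ≤ ℓ → c (ℓ - i) = σ * c i) :
    reflect ℓ (polyOf ℓ c) = C σ * polyOf ℓ c := by
  ext i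
  rw [coeff_reflect, coeff_C_mul]
  rcases le_or_gt i ℓ with hi | hi
  · rw [revAt_le hi, polyOf_coeff, polyOf_coeff, if_pos (by omega), if_pos hi, h i hi]
  · rw [revAt_eq_self_of_lt hi, polyOf_coeff, if_neg (by omega), mul_zero]

theorem polyOf_act (ℓ : ℕ) (c : ℕ → ℤ) (d : ℕ → ℤ) (k : ℕ) :
    act (polyOf ℓ c) (ext d) (k : ℤ) = ∑ i ∈ Finset.range (ℓ + 1), c i * d (k + i) := by
  rw [act_eq_sum _ (ℓ + 1) (Nat.lt_succ_of_le (polyOf_deg ℓ c))]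
  apply Finset.sum_congr rfl
  intro i hi
  rw [polyOf_coeff, if_pos (by have := Finset.mem_range.mp hi; omega), smul_eq_mul,
    show ((k : ℤ) + (i : ℤ)) = ((k + i : ℕ) : ℤ) by push_cast; ring, ext_nat]

end Q172.LwRec
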